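import Pool.Agent.TH281.PC.Link
import Pool.Agent.TH596.J52

/-!
# The certificate field
-/

open MeasureTheory Set Metric Filter Topology
open scoped InnerProductSpace

namespace Pool.Agent.TH281.PC

variable {d : ℕ}

/-- derivative of the phase map -/
noncomputable def phD (p q Λ M : ℝ) (f : ℝ → ℝ) (a : ℝ) : ℝ :=
  (M + (q - 1) * (f a) ^ (q / (q - 1))) / (Λ + (p - 1) * a ^ (p / (p - 1)))

/-- phase maps -/
structure Phase (p q Λ M : ℝ) (f : ℝ → ℝ) : Prop where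
  zero : f 0 = 0
  pos : ∀ a, 0 < a → 0 < f a
  der : ∀ a, 0 ≤ a → HasDerivAt f (phD p q Λ M f a) a
  conc : ∀ a, 0 < a → a * phD p q Λ M f a < f a
  top : Tendsto f atTop atTop

open Pool.Agent.TH596.J52 in
theorem exists_phase {p q Λ M : ℝ} (hq : 1 < q) (hpq : q < p) (hΛ : 0 < Λ) (hM : 0 < M)
    (hs : M ^ (-(1 / q)) * Jr q = Λ ^ (-(1 / p)) * Jr p) : ∃ f, Phase p q Λ M f := by
  have hp : 1 < p := hq.trans hpq
  have htot : (∫ a in Ioi (0 : ℝ), 1 / (M + (q - 1) * a ^ (q / (q - 1)))) =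
      ∫ a in Ioi (0 : ℝ), 1 / (Λ + (p - 1) * a ^ (p / (p - 1))) := by
    rw [total_scale hq hM, total_scale hp hΛ]
    exact hs
  obtain ⟨f, h0, hpos, hder, hconc⟩ := phase_map hq hpq hΛ hM htot
  refine ⟨f, h0, hpos, hder, hconc, ?_⟩
  -- the phases agree
  have hfn : ∀ a, 0 ≤ a → 0 ≤ f a := by
    intro a ha
    rcases ha.eq_or_lt with h | h
    · rw [← h, h0]
    · exact (hpos a h).le
  have hden : ∀ a : ℝ, 0 ≤ a → 0 < Λ + (p - 1) * a ^ (p / (p - 1)) := fun a ha => by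
    have : 0 ≤ (p - 1) * a ^ (p / (p - 1)) := mul_nonneg (by linarith) (Real.rpow_nonneg ha _)
    linarith
  have hnum : ∀ a : ℝ, 0 ≤ a → 0 < M + (q - 1) * (f a) ^ (q / (q - 1)) := fun a ha => by
    have : 0 ≤ (q - 1) * (f a) ^ (q / (q - 1)) :=
      mul_nonneg (by linarith) (Real.rpow_nonneg (hfn a ha) _)
    linarith
  have hTT : ∀ a, 0 ≤ a → TT q M (f a) = TT p Λ a := by
    intro a ha
    have hd : ∀ x ∈ Icc (0:ℝ) a, HasDerivWithinAt (fun x => TT q M (f x) - TT p Λ x) 0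
        (Icc 0 a) x := by
      intro x hx
      have h1 := (TT_hasDeriv hq hM (f x)).comp x (hder x hx.1)
      have h2 := (h1.sub (TT_hasDeriv hp hΛ x)).hasDerivWithinAt (s := Icc 0 a)
      refine h2.congr_deriv ?_
      simp only [hh, abs_of_nonneg (hfn x hx.1), abs_of_nonneg hx.1]
      have e1 := (hden x hx.1).ne'
      have e2 := (hnum x hx.1).ne'
      field_simp
      ring
    have h3 := norm_image_sub_le_of_norm_deriv_le_segment' (C := 0) hd (fun x _ => by simp) a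
      (right_mem_Icc.2 ha)
    simp only [h0, TT_zero, sub_zero, zero_mul, norm_le_zero_iff] at h3
    linarith
  rw [Filter.tendsto_atTop]
  intro K
  have h1 : TT q M K < JJ p Λ := by
    have h2 := TT_lt hq hM K
    rwa [show JJ q M = JJ p Λ from htot] at h2
  filter_upwards [(TT_tendsto hp hΛ).eventually (lt_mem_nhds h1), eventually_ge_atTop 0]
    with a ha ha0
  rw [← hTT a ha0] at ha
  exact ((TT_mono hq hM).lt_iff_lt.1 ha).le

namespace Phase

variable {p q Λ M : ℝ} {f : ℝ → ℝ}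

theorem nonneg (h : Phase p q Λ M f) {a : ℝ} (ha : 0 ≤ a) : 0 ≤ f a := by
  rcases ha.eq_or_lt with h' | h'
  · rw [← h', h.zero]
  · exact (h.pos a h').le

theorem den_pos (hp : 1 < p) (hΛ : 0 < Λ) {a : ℝ} (ha : 0 ≤ a) :
    0 < Λ + (p - 1) * a ^ (p / (p - 1)) := by
  have : 0 ≤ (p - 1) * a ^ (p / (p - 1)) := mul_nonneg (by linarith) (Real.rpow_nonneg ha _)
  linarith

theorem num_pos (h : Phase p q Λ M f) (hq : 1 < q) (hM : 0 < M) {a : ℝ} (ha : 0 ≤ a) :
    0 < M + (q - 1) * (f a) ^ (q / (q - 1)) := by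
  have : 0 ≤ (q - 1) * (f a) ^ (q / (q - 1)) :=
    mul_nonneg (by linarith) (Real.rpow_nonneg (h.nonneg ha) _)
  linarith

theorem phD_pos (h : Phase p q Λ M f) (hq : 1 < q) (hp : 1 < p) (hΛ : 0 < Λ) (hM : 0 < M)
    {a : ℝ} (ha : 0 ≤ a) : 0 < phD p q Λ M f a :=
  div_pos (h.num_pos hq hM ha) (den_pos hp hΛ ha)

theorem continuousOn (h : Phase p q Λ M f) : ContinuousOn f (Ici 0) :=
  fun a ha => (h.der a ha).continuousAt.continuousWithinAt

theorem continuousOn_phD (h : Phase p q Λ M f) (hq : 1 < q) (hp : 1 < p) (hΛ : 0 < Λ) :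
    ContinuousOn (phD p q Λ M f) (Ici 0) := by
  have hq' : 0 ≤ q / (q - 1) := div_nonneg (by linarith) (by linarith)
  have hp' : 0 ≤ p / (p - 1) := div_nonneg (by linarith) (by linarith)
  refine ContinuousOn.div ?_ ?_ fun a ha => (den_pos hp hΛ ha).ne'
  · exact continuousOn_const.add (continuousOn_const.mul
      (h.continuousOn.rpow_const fun a _ => Or.inr hq'))
  · exact continuousOn_const.add (continuousOn_const.mul
      (continuousOn_id.rpow_const fun a _ => Or.inr hp'))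

theorem mono (h : Phase p q Λ M f) (hq : 1 < q) (hp : 1 < p) (hΛ : 0 < Λ) (hM : 0 < M) :
    MonotoneOn f (Ici 0) := by
  refine monotoneOn_of_deriv_nonneg (convex_Ici 0) h.continuousOn ?_ ?_
  · intro x hx
    rw [interior_Ici] at hx
    exact (h.der x (le_of_lt hx)).differentiableAt.differentiableWithinAt
  · intro x hx
    rw [interior_Ici] at hx
    rw [(h.der x (le_of_lt hx)).deriv]
    exact (h.phD_pos hq hp hΛ hM (le_of_lt hx)).le

end Phase

/-- tangential part of `-tr D` -/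
noncomputable def tau (z : V d) (D : V d →L[ℝ] V d) : ℝ := (‖z‖ ^ 2)⁻¹ * ⟪D z, z⟫_ℝ - trL d D

theorem tau_nonneg {z : V d} {D : V d →L[ℝ] V d} (hD : ∀ x, ⟪D x, x⟫_ℝ ≤ 0) : 0 ≤ tau z D := by
  unfold tau
  rcases eq_or_ne z 0 with h0 | h0
  · have := trL_nonneg (H := -D) (fun x => by simpa using hD x)
    simp only [map_neg] at this
    simp [h0]
    linarith
  · have hn : ‖z‖ ≠ 0 := norm_ne_zero_iff.2 h0
    have he : ‖(‖z‖⁻¹ • z)‖ = 1 := by
      rw [norm_smul, norm_inv, norm_norm, inv_mul_cancel₀ hn]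
    have h3 := trL_le hD he
    rw [map_smul, inner_smul_left, inner_smul_right, conj_trivial] at h3
    have e : (‖z‖ ^ 2)⁻¹ * ⟪D z, z⟫_ℝ = ‖z‖⁻¹ * (‖z‖⁻¹ * ⟪D z, z⟫_ℝ) := by
      rw [← mul_assoc, ← mul_inv, pow_two]
    rw [e]
    linarith

/-- the Hessian of a concave function is nonpositive -/
theorem hess_nonpos {P : Set (V d)} (hP : IsOpen P) {v : V d → ℝ} (hv : ConcaveOn ℝ P v)
    {g : V d → V d} (hg : ∀ x ∈ P, HasGradientAt v (g x) x) {x : V d} (hx : x ∈ P)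
    {D : V d →L[ℝ] V d} (hD : HasFDerivAt g D x) (e : V d) : ⟪D e, e⟫_ℝ ≤ 0 := by
  -- supergradient inequality
  have hsup : ∀ y ∈ P, ∀ z ∈ P, v z ≤ v y + ⟪g y, z - y⟫_ℝ := by
    intro y hy z hz
    have hline : HasDerivWithinAt (fun t : ℝ => v (y + t • (z - y))) (⟪g y, z - y⟫_ℝ)
        (Ioi 0) 0 := by
      have h2 : HasDerivAt (fun s : ℝ => y + s • (z - y)) (z - y) 0 := by
        simpa using ((hasDerivAt_id (0:ℝ)).smul_const (z - y)).const_add y
      have h3 : HasGradientAt v (g y) (y + (0:ℝ) • (z - y)) := by simpa using hg y hy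
      have h4 := h3.hasFDerivAt.comp_hasDerivAt (0:ℝ) h2
      refine (h4.congr_deriv ?_).hasDerivWithinAt
      simp
    have h5 := (hasDerivWithinAt_iff_tendsto_slope' (by simp)).1 hline
    have hge : ∀ᶠ t in 𝓝[>] (0:ℝ), v z - v y ≤ slope (fun t : ℝ => v (y + t • (z - y))) 0 t := by
      have : Ioo (0:ℝ) 1 ∈ 𝓝[>] (0:ℝ) := Ioo_mem_nhdsGT one_pos
      filter_upwards [this] with t ht
      have h6 := hv.2 hy hz (by linarith [ht.2] : (0:ℝ) ≤ 1 - t) ht.1.le (by ring)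
      have e1 : (1 - t) • y + t • z = y + t • (z - y) := by
        rw [sub_smul, one_smul, smul_sub]; abel
      rw [e1] at h6
      simp only [smul_eq_mul] at h6
      rw [slope_def_field, sub_zero, zero_smul, add_zero, le_div_iff₀ ht.1]
      nlinarith
    have h7 := ge_of_tendsto h5 hge
    linarith
  have hmono : ∀ y ∈ P, ⟪g y - g x, y - x⟫_ℝ ≤ 0 := by
    intro y hy
    have h1 := hsup y hy x hx
    have h2 := hsup x hx y hy
    have e : ⟪g y, x - y⟫_ℝ = -⟪g y, y - x⟫_ℝ := by rw [← inner_neg_right, neg_sub]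
    rw [inner_sub_left]
    linarith
  have hder : HasDerivAt (fun t : ℝ => g (x + t • e)) (D e) 0 := by
    have h2 : HasDerivAt (fun s : ℝ => x + s • e) e 0 := by
      simpa using ((hasDerivAt_id (0:ℝ)).smul_const e).const_add x
    have h3 : HasFDerivAt g D (x + (0:ℝ) • e) := by simpa using hD
    exact h3.comp_hasDerivAt (0:ℝ) h2
  have h5 := (hasDerivWithinAt_iff_tendsto_slope' (s := Ioi 0) (by simp)).1 hder.hasDerivWithinAt
  have h6 : Tendsto (fun t : ℝ => ⟪slope (fun t : ℝ => g (x + t • e)) 0 t, e⟫_ℝ) (𝓝[>] 0)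
      (𝓝 ⟪D e, e⟫_ℝ) := h5.inner tendsto_const_nhds
  refine le_of_tendsto h6 ?_
  have hmem : ∀ᶠ t in 𝓝[>] (0:ℝ), x + t • e ∈ P := by
    have hcont : Tendsto (fun t : ℝ => x + t • e) (𝓝[>] 0) (𝓝 x) := by
      have : Tendsto (fun t : ℝ => x + t • e) (𝓝 0) (𝓝 (x + (0:ℝ) • e)) := by
        apply Continuous.tendsto; fun_prop
      rw [zero_smul, add_zero] at this
      exact this.mono_left nhdsWithin_le_nhds
    exact hcont.eventually (hP.mem_nhds hx)
  filter_upwards [hmem, self_mem_nhdsWithin] with t ht ht0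
  have ht0' : (0:ℝ) < t := ht0
  have h7 := hmono _ ht
  rw [add_sub_cancel_left, inner_smul_right] at h7
  have h8 : ⟪g (x + t • e) - g x, e⟫_ℝ ≤ 0 := by
    by_contra hcon
    rw [not_le] at hcon
    have := mul_pos ht0' hcon
    linarith
  rw [slope_def_module, sub_zero, zero_smul, add_zero, inner_smul_left, conj_trivial]
  exact mul_nonpos_of_nonneg_of_nonpos (inv_nonneg.2 ht0'.le) h8

section Flux

variable {p q ε δ Λ M : ℝ} {f : ℝ → ℝ} {P : Set (V d)} {v : V d → ℝ} {g : V d → V d}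

/-- the flux identity -/
theorem flux_eq (hp : 1 < p) (hε : 0 < ε) (hf : Phase p q Λ M f)
    (h : Soln p ε δ P v g) {x : V d} (hx : x ∈ P) {D : V d →L[ℝ] V d} (hD : HasFDerivAt g D x) :
    HasFDerivAt (fun y => radF p ε f (g y)) ((radD p ε f (phD p q Λ M f) (g x)).comp D) x ∧
    -trL d ((radD p ε f (phD p q Λ M f) (g x)).comp D) =
      phD p q Λ M f ‖opS p ε (g x)‖ * (opb p ε (g x) - δ * v x) +
      ((f ‖opS p ε (g x)‖ - ‖opS p ε (g x)‖ * phD p q Λ M f ‖opS p ε (g x)‖) / ‖g x‖) *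
        tau (g x) D := by
  refine ⟨(hasFDerivAt_radF hp hε hf.zero hf.der (g x)).comp x hD, ?_⟩
  rw [trL_radD]
  have h1 := h.eq x hx D hD
  have h2 : opA p ε (g x) D = -(opb p ε (g x) - δ * v x) := by linarith
  rw [h2, tau]
  ring

/-- coefficient of the tangential term -/
noncomputable def gam (p q ε Λ M : ℝ) (f : ℝ → ℝ) (z : V d) : ℝ :=
  (f ‖opS p ε z‖ - ‖opS p ε z‖ * phD p q Λ M f ‖opS p ε z‖) / ‖z‖

theorem gam_nonneg (hf : Phase p q Λ M f) (z : V d) : 0 ≤ gam p q ε Λ M f z := by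
  unfold gam
  refine div_nonneg ?_ (norm_nonneg _)
  rcases (norm_nonneg (opS p ε z)).eq_or_lt with h | h
  · rw [← h, hf.zero]; simp
  · linarith [hf.conc _ h]

/-- the flux inequality -/
theorem flux_ge (hq : 1 < q) (hp : 1 < p) (hε : 0 < ε) (hδ : 0 < δ) (hΛ : 0 < Λ) (hM : 0 < M)
    (hf : Phase p q Λ M f) (h : Soln p ε δ P v g) {x₀ : V d} (hmax : ∀ x ∈ P, v x ≤ v x₀)
    {ρ : ℝ} (hρ : ∀ z : V d, (1 - ρ) * (Λ + (p - 1) * ‖opS p ε z‖ ^ (p / (p - 1))) ≤
      opb p ε z - δ * v x₀) {x : V d} (hx : x ∈ P) {D : V d →L[ℝ] V d} (hD : HasFDerivAt g D x) :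
    (1 - ρ) * (M + (q - 1) * ‖radF p ε f (g x)‖ ^ (q / (q - 1))) +
      gam p q ε Λ M f (g x) * tau (g x) D ≤
      -trL d ((radD p ε f (phD p q Λ M f) (g x)).comp D) := by
  rw [(flux_eq hp hε hf h hx hD).2, norm_radF hf.zero hf.pos]
  set s := ‖opS p ε (g x)‖ with hs
  have hs0 : 0 ≤ s := norm_nonneg _
  have h1 := hρ (g x)
  rw [← hs] at h1
  have h2 : opb p ε (g x) - δ * v x₀ ≤ opb p ε (g x) - δ * v x := by
    have := mul_le_mul_of_nonneg_left (hmax x hx) hδ.le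
    linarith
  have h3 := hf.phD_pos hq hp hΛ hM hs0
  have h4 : phD p q Λ M f s * ((1 - ρ) * (Λ + (p - 1) * s ^ (p / (p - 1)))) =
      (1 - ρ) * (M + (q - 1) * f s ^ (q / (q - 1))) := by
    have := (Phase.den_pos hp hΛ hs0).ne'
    unfold phD
    field_simp
  have h5 := mul_le_mul_of_nonneg_left (h1.trans h2) h3.le
  rw [h4] at h5
  unfold gam
  rw [← hs]
  linarith

theorem LocLip.bounded {F : Type*} [NormedAddCommGroup F] {X : V d → F} (hX : LocLip P X)
    {K : Set (V d)} (hKP : K ⊆ P) (hK : IsCompact K) : ∃ R : ℝ, ∀ x ∈ K, ‖X x‖ ≤ R := by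
  obtain ⟨L, hL⟩ := hX K hKP hK
  obtain ⟨R, hR⟩ := hK.exists_bound_of_continuousOn hL.continuousOn
  exact ⟨R, hR⟩

theorem LocLip.radF (hp : 1 < p) (hε : 0 < ε) (hq : 1 < q) (hΛ : 0 < Λ)
    (hf : Phase p q Λ M f) (hg : LocLip P g) :
    LocLip P (fun y => radF p ε f (g y)) := by
  intro K hKP hK
  obtain ⟨R, hR⟩ := hg.bounded hKP hK
  obtain ⟨L, hL⟩ := hg K hKP hK
  obtain ⟨L', hL'⟩ := lipschitz_radF (d := d) hp hε hf.zero hf.pos hf.der
    (hf.continuousOn_phD hq hp hΛ) R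
  refine ⟨L' * L, hL'.comp hL ?_⟩
  intro x hx
  rw [mem_closedBall, dist_zero_right]
  exact hR x hx

theorem LocLip.const_smul {X : V d → V d} (hX : LocLip P X) (c : ℝ) :
    LocLip P (fun y => c • X y) := by
  intro K hKP hK
  obtain ⟨L, hL⟩ := hX K hKP hK
  refine ⟨‖c‖₊ * L, ?_⟩
  exact (lipschitzWith_smul c).comp_lipschitzOnWith hL

end Flux

end Pool.Agent.TH281.PC
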