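import Mathlib

/-!
# Concave subsolutions of quasilinear elliptic equations: basic notions
-/

open MeasureTheory Set Metric Filter Topology
open scoped InnerProductSpace

namespace Pool.Agent.TH281.PC

/-- the ambient space -/
abbrev V (d : ℕ) := EuclideanSpace ℝ (Fin d)

/-- data of an operator `w ↦ A(∇w) D²w + b(∇w)` -/
structure OpData (d : ℕ) where
  A : V d → (V d →L[ℝ] V d) →L[ℝ] ℝ
  b : V d → ℝ
  contA : Continuous A
  contb : Continuous b
  pos : ∀ ξ H, (∀ x, 0 ≤ ⟪H x, x⟫_ℝ) → 0 ≤ A ξ H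
  ell : ∀ R : ℝ, ∃ c : ℝ, 0 < c ∧ ∀ ξ, ‖ξ‖ ≤ R → ∀ H : V d →L[ℝ] V d, (∀ x, ⟪H x, x⟫_ℝ ≤ 0) →
    ∀ e : V d, ‖e‖ = 1 → A ξ H ≤ c * ⟪H e, e⟫_ℝ

variable {d : ℕ}

/-- `w` is a subsolution on `Ω` (tested with local quadratic majorants) -/
def Sub (O : OpData d) (δ : ℝ) (Ω : Set (V d)) (w : V d → ℝ) : Prop :=
  ∀ x ∈ Ω, ∀ (ξ : V d) (H : V d →L[ℝ] V d),
    (∀ᶠ y in 𝓝 x, w y ≤ w x + ⟪ξ, y - x⟫_ℝ + (1 / 2) * ⟪H (y - x), y - x⟫_ℝ) →
    0 ≤ O.A ξ H + O.b ξ - δ * w x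

theorem OpData.mono (O : OpData d) (ξ : V d) {H H' : V d →L[ℝ] V d}
    (h : ∀ x, ⟪H x, x⟫_ℝ ≤ ⟪H' x, x⟫_ℝ) : O.A ξ H ≤ O.A ξ H' := by
  have := O.pos ξ (H' - H) (fun x => by
    simp only [sub_apply, inner_sub_left]
    linarith [h x])
  rw [map_sub] at this
  linarith

/-- if the inequality holds for all `H + 2γ`, then for `H` -/
theorem OpData.limit (O : OpData d) (ξ : V d) (H : V d →L[ℝ] V d) {r : ℝ}
    (h : ∀ γ : ℝ, 0 < γ → 0 ≤ O.A ξ (H + (2 * γ) • ContinuousLinearMap.id ℝ (V d)) + r) :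
    0 ≤ O.A ξ H + r := by
  have hc : Tendsto (fun γ : ℝ => O.A ξ (H + (2 * γ) • ContinuousLinearMap.id ℝ (V d)) + r)
      (𝓝[>] 0) (𝓝 (O.A ξ (H + (2 * 0 : ℝ) • ContinuousLinearMap.id ℝ (V d)) + r)) := by
    apply Tendsto.mono_left _ nhdsWithin_le_nhds
    apply Continuous.tendsto
    fun_prop
  have e0 : H + (2 * 0 : ℝ) • ContinuousLinearMap.id ℝ (V d) = H := by
    ext x
    simp
  rw [e0] at hc
  refine ge_of_tendsto hc ?_
  filter_upwards [self_mem_nhdsWithin] with γ hγ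
  exact h γ hγ

/-- second order expansion from differentiability of the gradient -/
theorem taylor_two {g : V d → ℝ} {p : V d → V d} {U : Set (V d)} (hU : IsOpen U)
    (hg : ∀ x ∈ U, HasGradientAt g (p x) x) {x : V d} (hx : x ∈ U) {D : V d →L[ℝ] V d}
    (hp : HasFDerivAt p D x) {γ : ℝ} (hγ : 0 < γ) :
    ∀ᶠ y in 𝓝 x, |g y - (g x + ⟪p x, y - x⟫_ℝ + (1 / 2) * ⟪D (y - x), y - x⟫_ℝ)| ≤
      γ * ‖y - x‖ ^ 2 := by
  have h1 : ∀ᶠ y in 𝓝 x, ‖p y - p x - D (y - x)‖ ≤ γ * ‖y - x‖ :=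
    (hasFDerivAt_iff_isLittleO.1 hp).def hγ
  obtain ⟨ε, hε, hball⟩ := Metric.eventually_nhds_iff_ball.1 (h1.and (hU.mem_nhds hx))
  filter_upwards [Metric.ball_mem_nhds x hε] with y hy
  set h := y - x with hh
  have hseg : ∀ t ∈ Icc (0:ℝ) 1, x + t • h ∈ ball x ε := by
    intro t ht
    rw [mem_ball, dist_eq_norm, add_sub_cancel_left, norm_smul, Real.norm_eq_abs,
      abs_of_nonneg ht.1]
    rw [mem_ball, dist_eq_norm] at hy
    calc t * ‖h‖ ≤ 1 * ‖h‖ := by gcongr; exact ht.2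
      _ < ε := by rw [one_mul]; exact hy
  set φ : ℝ → ℝ := fun t => g (x + t • h) - (g x + t * ⟪p x, h⟫_ℝ + (1 / 2) * t ^ 2 * ⟪D h, h⟫_ℝ)
    with hφ
  have hder : ∀ t ∈ Icc (0:ℝ) 1, HasDerivWithinAt φ
      (⟪p (x + t • h) - p x - D (t • h), h⟫_ℝ) (Icc 0 1) t := by
    intro t ht
    have h2 : HasDerivAt (fun s : ℝ => x + s • h) h t := by
      simpa using ((hasDerivAt_id t).smul_const h).const_add x
    have h3 : HasDerivAt (fun s : ℝ => g (x + s • h)) (⟪p (x + t • h), h⟫_ℝ) t := by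
      have h4 := (hg _ (hball _ (hseg t ht)).2).hasFDerivAt.comp_hasDerivAt t h2
      refine h4.congr_deriv ?_
      simp
    have h5 : HasDerivAt (fun s : ℝ => g x + s * ⟪p x, h⟫_ℝ + (1 / 2) * s ^ 2 * ⟪D h, h⟫_ℝ)
        (⟪p x, h⟫_ℝ + t * ⟪D h, h⟫_ℝ) t := by
      have h6 := (((hasDerivAt_id t).mul_const ⟪p x, h⟫_ℝ).const_add (g x)).add
        ((((hasDerivAt_id t).pow 2).const_mul (1 / 2 : ℝ)).mul_const ⟪D h, h⟫_ℝ)
      refine h6.congr_deriv ?_
      simp only [id]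
      ring
    have h7 := (h3.sub h5).hasDerivWithinAt (s := Icc 0 1)
    refine h7.congr_deriv ?_
    simp only [inner_sub_left, map_smul, inner_smul_left, conj_trivial]
    ring
  have hbound : ∀ t ∈ Ico (0:ℝ) 1, ‖⟪p (x + t • h) - p x - D (t • h), h⟫_ℝ‖ ≤ γ * ‖h‖ ^ 2 := by
    intro t ht
    have ht' : t ∈ Icc (0:ℝ) 1 := ⟨ht.1, ht.2.le⟩
    have h8 := (hball _ (hseg t ht')).1
    rw [add_sub_cancel_left] at h8
    calc ‖⟪p (x + t • h) - p x - D (t • h), h⟫_ℝ‖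
        ≤ ‖p (x + t • h) - p x - D (t • h)‖ * ‖h‖ := norm_inner_le_norm _ _
      _ ≤ (γ * ‖t • h‖) * ‖h‖ := by gcongr
      _ ≤ (γ * (1 * ‖h‖)) * ‖h‖ := by
          rw [norm_smul, Real.norm_eq_abs, abs_of_nonneg ht.1]
          gcongr
          exact ht.2.le
      _ = γ * ‖h‖ ^ 2 := by ring
  have hfin := norm_image_sub_le_of_norm_deriv_le_segment' hder hbound 1 (right_mem_Icc.2 zero_le_one)
  simp only [hφ, one_smul, zero_smul, add_zero, sub_zero, mul_one, Real.norm_eq_abs] at hfin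
  have e1 : x + h = y := by rw [hh]; abel
  rw [e1] at hfin
  convert hfin using 2
  ring

/-- a subsolution satisfies the inequality at points of second order differentiability -/
theorem Sub.at_point {O : OpData d} {δ : ℝ} {Ω U : Set (V d)} {w : V d → ℝ} (hw : Sub O δ Ω w)
    {p : V d → V d} (hU : IsOpen U) (hg : ∀ x ∈ U, HasGradientAt w (p x) x) {x : V d}
    (hx : x ∈ U) (hxΩ : x ∈ Ω) {D : V d →L[ℝ] V d} (hp : HasFDerivAt p D x) :
    0 ≤ O.A (p x) D + O.b (p x) - δ * w x := by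
  have key := O.limit (p x) D (r := O.b (p x) - δ * w x) (fun γ hγ => by
    have h1 := hw x hxΩ (p x) (D + (2 * γ) • ContinuousLinearMap.id ℝ (V d)) ?_
    · linarith
    · filter_upwards [taylor_two hU hg hx hp hγ] with y hy
      have h2 := (abs_le.1 hy).2
      simp only [add_apply, smul_apply,
        ContinuousLinearMap.id_apply, inner_add_left, inner_smul_left, conj_trivial,
        real_inner_self_eq_norm_sq]
      linarith)
  linarith

/-- it is enough to test with self-adjoint matrices -/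
theorem Sub.of_symm {O : OpData d} {δ : ℝ} {Ω : Set (V d)} {w : V d → ℝ}
    (h : ∀ x ∈ Ω, ∀ (ξ : V d) (H : V d →L[ℝ] V d), (∀ a b, ⟪H a, b⟫_ℝ = ⟪a, H b⟫_ℝ) →
      (∀ᶠ y in 𝓝 x, w y ≤ w x + ⟪ξ, y - x⟫_ℝ + (1 / 2) * ⟪H (y - x), y - x⟫_ℝ) →
      0 ≤ O.A ξ H + O.b ξ - δ * w x) : Sub O δ Ω w := by
  intro x hx ξ H hH
  set T : V d →L[ℝ] V d := (1 / 2 : ℝ) • (H + ContinuousLinearMap.adjoint H) with hT
  have hq : ∀ a, ⟪T a, a⟫_ℝ = ⟪H a, a⟫_ℝ := by
    intro a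
    simp only [hT, smul_apply, add_apply, inner_smul_left, inner_add_left,
      ContinuousLinearMap.adjoint_inner_left, conj_trivial]
    rw [real_inner_comm a (H a)]
    ring
  have hsym : ∀ a b, ⟪T a, b⟫_ℝ = ⟪a, T b⟫_ℝ := by
    intro a b
    simp only [hT, smul_apply, add_apply, inner_smul_left, inner_add_left, inner_smul_right,
      inner_add_right, ContinuousLinearMap.adjoint_inner_left,
      ContinuousLinearMap.adjoint_inner_right, conj_trivial]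
    ring
  have h1 := h x hx ξ T hsym (by
    filter_upwards [hH] with y hy
    rw [hq]
    exact hy)
  have h2 := O.mono ξ (H := T) (H' := H) (fun a => (hq a).le)
  linarith

/-- superlevel sets are relatively compact -/
def Coer (P : Set (V d)) (w : V d → ℝ) : Prop :=
  ∀ M : ℝ, ∃ K : Set (V d), K ⊆ P ∧ IsCompact K ∧ ∀ x ∈ P, -M ≤ w x → x ∈ K

/-- concave coercive subsolutions -/
structure Cls (O : OpData d) (δ : ℝ) (P : Set (V d)) (w : V d → ℝ) : Prop where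
  conc : ConcaveOn ℝ P w
  sub : Sub O δ P w
  coer : Coer P w

/-- Lipschitz on compact subsets -/
def LocLip {F : Type*} [NormedAddCommGroup F] (P : Set (V d)) (X : V d → F) : Prop :=
  ∀ K : Set (V d), K ⊆ P → IsCompact K → ∃ L : NNReal, LipschitzOnWith L X K

/-- `G` is a smooth concave approximate subsolution, close to `v` on `K` -/
structure Apx (O : OpData d) (δ : ℝ) (K : Set (V d)) (η : ℝ) (v G : V d → ℝ) (q : V d → V d)
    (Q : V d → V d →L[ℝ] V d) : Prop where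
  grad : ∀ x, HasGradientAt G (q x) x
  hess : ∀ x, HasFDerivAt q (Q x) x
  nonpos : ∀ x e, ⟪Q x e, e⟫_ℝ ≤ 0
  conc : ConcaveOn ℝ univ G
  sub : ∀ x ∈ K, -η ≤ O.A (q x) (Q x) + O.b (q x) - δ * G x
  close : ∀ x ∈ K, |G x - v x| ≤ η

/-- an open polyhedron -/
def poly {n : ℕ} (ν : Fin (n + 1) → V d) (c : Fin (n + 1) → ℝ) : Set (V d) :=
  {x | ∀ i, 0 < ⟪ν i, x⟫_ℝ + c i}

end Pool.Agent.TH281.PC
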