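import Mathlib

/-!
# Rayleigh quotients of the p-Laplacian
-/

open MeasureTheory Set

namespace Pool.Agent.TH281.PC

section
variable {E : Type*} [NormedAddCommGroup E] [InnerProductSpace ℝ E] [MeasureSpace E]

/-- values of the Rayleigh quotient of the `p`-Laplacian on `Ω`, over nonzero `C¹` functions with
compact support in `Ω` -/
def lamSet (p : ℝ) (Ω : Set E) : Set ℝ :=
  {r | ∃ u : E → ℝ, ContDiff ℝ 1 u ∧ HasCompactSupport u ∧ tsupport u ⊆ Ω ∧ u ≠ 0 ∧
    r = (∫ x, ‖fderiv ℝ u x‖ ^ p) / (∫ x, |u x| ^ p)}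

/-- the principal Dirichlet eigenvalue of the `p`-Laplacian -/
noncomputable def lam (p : ℝ) (Ω : Set E) : ℝ := sInf (lamSet p Ω)

end

/-- half of the generalised pi: `π_r = 2 J_r` -/
noncomputable def Jr (r : ℝ) : ℝ := ∫ a in Ioi (0 : ℝ), 1 / (1 + (r - 1) * a ^ (r / (r - 1)))

end Pool.Agent.TH281.PC
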