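import Pool.Agent.TH281.PC.Link

/-!
# Existence of concave solutions on polyhedra
-/

open MeasureTheory Set Metric Filter Topology
open scoped InnerProductSpace

namespace Pool.Agent.TH281.PC

variable {d : ℕ}

theorem Cls.approx {O : OpData d} {δ : ℝ} (hδ : 0 ≤ δ) {P : Set (V d)} (hP : IsOpen P)
    (hne : P.Nonempty) {v : V d → ℝ} (hv : Cls O δ P v) {K : Set (V d)} (hKP : K ⊆ P)
    (hK : IsCompact K) {η : ℝ} (hη : 0 < η) :
    ∃ (G : V d → ℝ) (q : V d → V d) (Q : V d → V d →L[ℝ] V d), Apx O δ K η v G q Q := by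
  obtain ⟨κ, hκ, hclose⟩ := moreau_close hP hne hv hK hKP (half_pos hη)
  obtain ⟨W, g, hW, hg, ⟨L, hL⟩, hs, hle, hy⟩ := moreau hP hne hv hδ hκ
  obtain ⟨G, q, Q, hG⟩ := mollify hW hg hL hs hK (half_pos hη)
  refine ⟨G, q, Q, hG.grad, hG.hess, hG.nonpos, hG.conc, fun x hx => ?_, fun x hx => ?_⟩
  · have := hG.sub x hx
    linarith
  · have h1 := hG.close x hx
    obtain ⟨y, hyP, hWy, hxy⟩ := hy x (hKP hx)
    have h2 := hclose x hx y hyP hxy
    have h3 := hle x (hKP hx)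
    rw [abs_le] at h1 ⊢
    constructor <;> linarith [h1.1, h1.2]

/-- maximal concave coercive subsolutions exist -/
theorem exists_max {O : OpData d} {δ : ℝ} {P : Set (V d)} (hP : IsOpen P)
    {bar : V d → ℝ} (hbar : Coer P bar) (hcomp : ∀ w, Cls O δ P w → ∀ x ∈ P, w x ≤ bar x)
    (hne : ∃ w, Cls O δ P w) :
    ∃ v, Cls O δ P v ∧ ∀ w, Cls O δ P w → (∀ x ∈ P, v x ≤ w x) → ∀ x ∈ P, w x ≤ v x := by
  obtain ⟨w₀, hw₀⟩ := hne
  have : Nonempty {w : V d → ℝ // Cls O δ P w} := ⟨⟨w₀, hw₀⟩⟩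
  obtain ⟨m, hm⟩ := exists_maximal_of_nonempty_chains_bounded
    (α := {w : V d → ℝ // Cls O δ P w}) (r := fun a b => ∀ x ∈ P, a.1 x ≤ b.1 x)
    (fun c hc hne => by
      obtain ⟨W, hW, hub⟩ := chain_sup hP hbar (C := (Subtype.val '' c))
        (hne.image _) (by rintro _ ⟨a, _, rfl⟩; exact a.2)
        (by rintro _ ⟨a, _, rfl⟩; exact hcomp _ a.2)
        (by
          rintro _ ⟨a, ha, rfl⟩ _ ⟨b, hb, rfl⟩
          by_cases hab : a = b
          · left
            intro x _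
            rw [hab]
          · exact hc ha hb hab)
      exact ⟨⟨W, hW⟩, fun a ha x hx => hub a.1 ⟨a, ha, rfl⟩ x hx⟩)
    (fun hab hbc x hx => (hab x hx).trans (hbc x hx))
  exact ⟨m.1, m.2, fun w hw hle => hm ⟨w, hw⟩ hle⟩

/-- existence of a concave solution of the regularised equation -/
theorem exists_soln {p ε δ : ℝ} (hp : 1 < p) (hε : 0 < ε) (hδ : 0 < δ) {n : ℕ}
    {ν : Fin (n + 1) → V d} {c : Fin (n + 1) → ℝ} (hν : ∀ i, ‖ν i‖ = 1)
    (hP : IsOpen (poly ν c)) (hb : Bornology.IsBounded (poly ν c)) (hne : (poly ν c).Nonempty) :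
    ∃ v g, Soln p ε δ (poly ν c) v g := by
  obtain ⟨C₀, hC₀⟩ := barrier_const (d := d) hp hε hδ
  obtain ⟨bar, hbar, hle⟩ := coer_barrier hb C₀
  have hcomp : ∀ w, Cls (opD d p ε hp hε) δ (poly ν c) w → ∀ x ∈ poly ν c, w x ≤ bar x := by
    intro w hw
    apply hle
    intro i
    exact compare hδ hP (fun x hx => hx i) (hC₀ (ν i) (hν i)) hw
  obtain ⟨v, hv, hmax⟩ := exists_max hP hbar hcomp (exists_initial hp hε hδ hν hb hne)
  have happ : ∀ K : Set (V d), K ⊆ poly ν c → IsCompact K → ∀ η : ℝ, 0 < η →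
      ∃ (G : V d → ℝ) (q : V d → V d) (Q : V d → V d →L[ℝ] V d),
        Apx (opD d p ε hp hε) δ K η v G q Q :=
    fun K hKP hK η hη => hv.approx hδ.le hP hne hKP hK hη
  obtain ⟨g, hg, hlip⟩ := regularity hP hv.conc happ
  refine ⟨v, g, hv.conc, hv.coer, hg, hlip, fun x hx D hD => ?_⟩
  have h1 : 0 ≤ opA p ε (g x) D + opb p ε (g x) - δ * v x :=
    hv.sub.at_point hP hg hx hx hD
  have h2 : opA p ε (g x) D + opb p ε (g x) - δ * v x ≤ 0 := by
    by_contra hcon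
    rw [not_le] at hcon
    obtain ⟨W, hW, hvW, hlt⟩ := bump hδ.le hP hb hv happ hg hx hD hcon
    exact absurd (hmax W hW hvW x hx) (not_le.2 hlt)
  linarith

theorem isOpen_poly {n : ℕ} (ν : Fin (n + 1) → V d) (c : Fin (n + 1) → ℝ) :
    IsOpen (poly ν c) := by
  have : poly ν c = ⋂ i, {x | 0 < ⟪ν i, x⟫_ℝ + c i} := by
    ext x
    simp [poly]
  rw [this]
  exact isOpen_iInter_of_finite fun i => isOpen_lt continuous_const (by fun_prop)

end Pool.Agent.TH281.PC
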