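import Pool.Agent.TH281.PC.Strict6
import Pool.Agent.TH925.J53

/-!
# Parini's conjecture
-/

open MeasureTheory Set Metric Filter Topology
open scoped InnerProductSpace

namespace Pool.Agent.TH281.PC

variable {d : ℕ}

theorem Jr_pos' {r : ℝ} (hr : 1 < r) : 0 < Jr r := Pool.Agent.TH925.J53.Jr_pos hr

theorem lam_unit {r : ℝ} (hr : 1 < r) : lam r (Ioo (0 : ℝ) 1) = (2 * Jr r) ^ r :=
  Pool.Agent.TH925.J53.lam_interval hr

theorem lam_unit_rpow {r : ℝ} (hr : 1 < r) : lam r (Ioo (0 : ℝ) 1) ^ (1 / r) = 2 * Jr r := by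
  have := Jr_pos' hr
  rw [lam_unit hr, ← Real.rpow_mul (by positivity), mul_one_div_cancel (by linarith),
    Real.rpow_one]

/-- the strict inequality -/
theorem ratio_lt {p q : ℝ} (hq : 1 < q) (hpq : q < p) (hd : 2 ≤ d) {Ω : Set (V d)}
    (hΩ : IsOpen Ω) (hcv : Convex ℝ Ω) (h0 : 0 < volume Ω) (hfin : volume Ω < ⊤) :
    lam p Ω ^ (1 / p) / lam q Ω ^ (1 / q) < Jr p / Jr q := by
  have hp : 1 < p := hq.trans hpq
  have hp0 : 0 < p := by linarith
  have hq0 : 0 < q := by linarith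
  have hJp := Jr_pos' hp
  have hJq := Jr_pos' hq
  have hb : Bornology.IsBounded Ω := Pool.Agent.TH925.J55.bounded_of_convex_finite hΩ hcv hfin
  have hne : Ω.Nonempty := nonempty_of_measure_ne_zero h0.ne'
  have hΛ0 : 0 ≤ lam p Ω := lam_nonneg
  rcases hΛ0.eq_or_lt with hz | hΛ
  · rw [← hz, Real.zero_rpow (by positivity), zero_div]
    positivity
  · obtain ⟨M, hMdef⟩ : ∃ M, M = (Jr q * lam p Ω ^ (1 / p) / Jr p) ^ q := ⟨_, rfl⟩
    have hM : 0 < M := by rw [hMdef]; positivity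
    have hM' : M ^ (1 / q) = Jr q * lam p Ω ^ (1 / p) / Jr p := by
      rw [hMdef, ← Real.rpow_mul (by positivity), mul_one_div_cancel hq0.ne', Real.rpow_one]
    have hs : M ^ (-(1 / q)) * Jr q = lam p Ω ^ (-(1 / p)) * Jr p := by
      rw [Real.rpow_neg hM.le, hM', Real.rpow_neg hΛ.le]
      have : 0 < lam p Ω ^ (1 / p) := Real.rpow_pos_of_pos hΛ _
      field_simp
    have hlt := lam_compare_strict hq hpq hd hΩ hcv hb hne hΛ hM le_rfl hs hJp hJq
    have hlt2 : M ^ (1 / q) < lam q Ω ^ (1 / q) :=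
      Real.rpow_lt_rpow hM.le hlt (by positivity)
    rw [hM'] at hlt2
    have hpos : 0 < lam q Ω ^ (1 / q) := Real.rpow_pos_of_pos (hM.trans hlt) _
    rw [div_lt_div_iff₀ hpos hJq]
    rw [div_lt_iff₀ hJp] at hlt2
    linarith

/-- thin boxes -/
theorem ratio_box {p q : ℝ} (hq : 1 < q) (hpq : q < p) {b : ℝ}
    (hb : ∀ L : ℝ, 0 < L →
      lam p (Pool.Agent.TH925.J54.box d L) ^ (1 / p) /
        lam q (Pool.Agent.TH925.J54.box d L) ^ (1 / q) ≤ b) : Jr p / Jr q ≤ b := by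
  have hp : 1 < p := hq.trans hpq
  have hp0 : 0 < p := by linarith
  have hq0 : 0 < q := by linarith
  have hJp := Jr_pos' hp
  have hJq := Jr_pos' hq
  have hlq : 0 < lam q (Ioo (0 : ℝ) 1) := by rw [lam_unit hq]; positivity
  have key : ∀ ε : ℝ, 0 < ε → 2 * Jr p / (lam q (Ioo (0 : ℝ) 1) + ε) ^ (1 / q) ≤ b := by
    intro ε hε
    obtain ⟨L, hL, hup⟩ := Pool.Agent.TH925.J54.box_upper (d := d) hq hε
    refine le_trans ?_ (hb L hL)
    have h1 : lam q (Ioo (0 : ℝ) 1) ≤ lam q (Pool.Agent.TH925.J54.box d L) :=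
      Pool.Agent.TH925.J54.box_lower hq hL
    have h2 : lam p (Ioo (0 : ℝ) 1) ≤ lam p (Pool.Agent.TH925.J54.box d L) :=
      Pool.Agent.TH925.J54.box_lower hp hL
    have hup' : lam q (Pool.Agent.TH925.J54.box d L) ≤ lam q (Ioo (0 : ℝ) 1) + ε := hup
    rw [← lam_unit_rpow hp]
    have h3 : 0 < lam q (Pool.Agent.TH925.J54.box d L) := hlq.trans_le h1
    have h4 : 0 < lam q (Pool.Agent.TH925.J54.box d L) ^ (1 / q) := Real.rpow_pos_of_pos h3 _
    have h5 : 0 ≤ lam p (Ioo (0 : ℝ) 1) := by rw [lam_unit hp]; positivity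
    have h6 : lam p (Ioo (0 : ℝ) 1) ^ (1 / p) ≤
        lam p (Pool.Agent.TH925.J54.box d L) ^ (1 / p) :=
      Real.rpow_le_rpow h5 h2 (by positivity)
    have h7 : lam q (Pool.Agent.TH925.J54.box d L) ^ (1 / q) ≤
        (lam q (Ioo (0 : ℝ) 1) + ε) ^ (1 / q) :=
      Real.rpow_le_rpow h3.le hup' (by positivity)
    exact div_le_div₀ (Real.rpow_nonneg (h5.trans h2) _) h6 h4 h7
  have hlim : Tendsto (fun ε : ℝ => 2 * Jr p / (lam q (Ioo (0 : ℝ) 1) + ε) ^ (1 / q)) (𝓝[>] 0)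
      (𝓝 (2 * Jr p / (lam q (Ioo (0 : ℝ) 1) + 0) ^ (1 / q))) := by
    apply Tendsto.mono_left _ nhdsWithin_le_nhds
    have : ContinuousAt (fun ε : ℝ => 2 * Jr p / (lam q (Ioo (0 : ℝ) 1) + ε) ^ (1 / q)) 0 := by
      refine ContinuousAt.div continuousAt_const
        (ContinuousAt.rpow_const (by fun_prop) (Or.inl (by rw [add_zero]; exact hlq.ne'))) ?_
      rw [add_zero]
      exact (Real.rpow_pos_of_pos hlq _).ne'
    exact this
  rw [add_zero, lam_unit_rpow hq, mul_div_mul_left _ _ two_ne_zero] at hlim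
  refine le_of_tendsto hlim ?_
  filter_upwards [self_mem_nhdsWithin] with ε hε
  exact key ε hε

end Pool.Agent.TH281.PC
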