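import Pool.Agent.TH281.PC.Op
import Pool.Agent.TH281.PC.Defs
import Pool.Agent.TH365.J149
import Pool.Agent.TH365.J158
import Pool.Agent.TH365.J194
import Pool.Agent.TH480.J151
import Pool.Agent.TH480.J153
import Pool.Agent.TH480.J155
import Pool.Agent.TH480.J162
import Pool.Agent.TH480.J166
import Pool.Agent.TH585.J152
import Pool.Agent.TH925.J150
import Pool.Agent.TH925.J160
import Pool.Agent.TH971.J164

/-!
# Collected lemmas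
-/

open MeasureTheory Set Metric Filter Topology
open scoped InnerProductSpace

namespace Pool.Agent.TH281.PC

variable {d : ℕ}

/-- sup-convolution of a concave coercive subsolution -/
theorem moreau {O : OpData d} {δ : ℝ} {P : Set (V d)} (hP : IsOpen P) (hne : P.Nonempty)
    {w : V d → ℝ} (hw : Cls O δ P w) (hδ : 0 ≤ δ) {κ : ℝ} (hκ : 0 < κ) :
    ∃ (W : V d → ℝ) (g : V d → V d), ConcaveOn ℝ univ W ∧ (∀ x, HasGradientAt W (g x) x) ∧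
      (∃ L : NNReal, LipschitzWith L g) ∧ Sub O δ univ W ∧ (∀ x ∈ P, w x ≤ W x) ∧
      (∀ x ∈ P, ∃ y ∈ P, W x ≤ w y ∧ ‖x - y‖ ^ 2 ≤ 2 * κ * (w y - w x)) :=
  Pool.Agent.TH365.J149.moreau hP hne hw hδ hκ

/-- local uniform convergence of sup-convolutions -/
theorem moreau_close {O : OpData d} {δ : ℝ} {P : Set (V d)} (hP : IsOpen P) (hne : P.Nonempty)
    {w : V d → ℝ} (hw : Cls O δ P w) {K : Set (V d)} (hK : IsCompact K) (hKP : K ⊆ P)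
    {η : ℝ} (hη : 0 < η) :
    ∃ κ : ℝ, 0 < κ ∧ ∀ x ∈ K, ∀ y ∈ P, ‖x - y‖ ^ 2 ≤ 2 * κ * (w y - w x) → w y ≤ w x + η :=
  Pool.Agent.TH365.J149.moreau_close hP hne hw hK hKP hη

/-- mollification of a concave subsolution with Lipschitz gradient -/
theorem mollify {O : OpData d} {δ : ℝ} {W : V d → ℝ} {g : V d → V d} {L : NNReal}
    (hW : ConcaveOn ℝ univ W) (hg : ∀ x, HasGradientAt W (g x) x) (hL : LipschitzWith L g)
    (hs : Sub O δ univ W) {K : Set (V d)} (hK : IsCompact K) {η : ℝ} (hη : 0 < η) :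
    ∃ (G : V d → ℝ) (q : V d → V d) (Q : V d → V d →L[ℝ] V d), Apx O δ K η W G q Q :=
  Pool.Agent.TH925.J150.mollify hW hg hL hs hK hη

/-- suprema of chains -/
theorem chain_sup {O : OpData d} {δ : ℝ} {P : Set (V d)} (hP : IsOpen P)
    {bar : V d → ℝ} (hbar : Coer P bar) {C : Set (V d → ℝ)} (hne : C.Nonempty)
    (hcls : ∀ w ∈ C, Cls O δ P w) (hle : ∀ w ∈ C, ∀ x ∈ P, w x ≤ bar x)
    (hchain : ∀ w₁ ∈ C, ∀ w₂ ∈ C, (∀ x ∈ P, w₁ x ≤ w₂ x) ∨ ∀ x ∈ P, w₂ x ≤ w₁ x) :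
    ∃ W, Cls O δ P W ∧ ∀ w ∈ C, ∀ x ∈ P, w x ≤ W x :=
  Pool.Agent.TH480.J151.chain_sup hP hbar hne hcls hle hchain

/-- a concave coercive subsolution that is a strict subsolution at a point can be increased -/
theorem bump {O : OpData d} {δ : ℝ} (hδ : 0 ≤ δ) {P : Set (V d)} (hP : IsOpen P)
    (hb : Bornology.IsBounded P) {v : V d → ℝ} (hv : Cls O δ P v)
    (happ : ∀ K : Set (V d), K ⊆ P → IsCompact K → ∀ η : ℝ, 0 < η →
      ∃ (G : V d → ℝ) (q : V d → V d) (Q : V d → V d →L[ℝ] V d), Apx O δ K η v G q Q)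
    {g : V d → V d} (hg : ∀ x ∈ P, HasGradientAt v (g x) x) {x₀ : V d} (hx₀ : x₀ ∈ P)
    {D : V d →L[ℝ] V d} (hD : HasFDerivAt g D x₀)
    (hpos : 0 < O.A (g x₀) D + O.b (g x₀) - δ * v x₀) :
    ∃ W, Cls O δ P W ∧ (∀ x ∈ P, v x ≤ W x) ∧ v x₀ < W x₀ :=
  Pool.Agent.TH585.J152.bump hδ hP hb hv happ hg hx₀ hD hpos

/-- logarithmic barrier at a supporting hyperplane -/
theorem compare {O : OpData d} {δ : ℝ} (hδ : 0 < δ) {P : Set (V d)} (hP : IsOpen P) {ν : V d}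
    {c : ℝ} (hpos : ∀ x ∈ P, 0 < ⟪ν, x⟫_ℝ + c) {C₀ : ℝ}
    (hC : ∀ t : ℝ, 0 < t → O.A (t • ν) ((-(2 * t ^ 2)) • (innerSL ℝ ν).smulRight ν) +
      O.b (t • ν) + (δ / 2) * Real.log (2 * t) ≤ δ * C₀)
    {w : V d → ℝ} (hw : Cls O δ P w) :
    ∀ x ∈ P, w x ≤ (1 / 2) * Real.log (⟪ν, x⟫_ℝ + c) + C₀ :=
  Pool.Agent.TH480.J153.compare hδ hP hpos hC hw

/-- the minimum of the barriers is coercive on a bounded polyhedron -/
theorem coer_barrier {n : ℕ} {ν : Fin (n + 1) → V d} {c : Fin (n + 1) → ℝ}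
    (hb : Bornology.IsBounded (poly ν c)) (C₀ : ℝ) :
    ∃ bar : V d → ℝ, Coer (poly ν c) bar ∧ ∀ w : V d → ℝ,
      (∀ i, ∀ x ∈ poly ν c, w x ≤ (1 / 2) * Real.log (⟪ν i, x⟫_ℝ + c i) + C₀) →
      ∀ x ∈ poly ν c, w x ≤ bar x :=
  Pool.Agent.TH480.J153.coer_barrier hb C₀

/-- the barrier inequality for the concrete operator -/
theorem barrier_const {p ε δ : ℝ} (hp : 1 < p) (hε : 0 < ε) (hδ : 0 < δ) :
    ∃ C₀ : ℝ, ∀ ν : V d, ‖ν‖ = 1 → ∀ t : ℝ, 0 < t →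
      opA p ε (t • ν) ((-(2 * t ^ 2)) • (innerSL ℝ ν).smulRight ν) +
        opb p ε (t • ν) + (δ / 2) * Real.log (2 * t) ≤ δ * C₀ :=
  Pool.Agent.TH480.J155.barrier_const hp hε hδ

/-- an explicit concave coercive subsolution on a bounded polyhedron -/
theorem exists_initial {p ε δ : ℝ} (hp : 1 < p) (hε : 0 < ε) (hδ : 0 < δ) {n : ℕ}
    {ν : Fin (n + 1) → V d} {c : Fin (n + 1) → ℝ} (hν : ∀ i, ‖ν i‖ = 1)
    (hb : Bornology.IsBounded (poly ν c)) (hne : (poly ν c).Nonempty) :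
    ∃ w, Cls (opD d p ε hp hε) δ (poly ν c) w :=
  Pool.Agent.TH480.J155.exists_initial hp hε hδ hν hb hne

/-- locally Lipschitz functions are differentiable almost everywhere -/
theorem LocLip.ae_differentiable {F : Type*} [NormedAddCommGroup F] [NormedSpace ℝ F]
    [FiniteDimensional ℝ F] {P : Set (V d)} (hP : IsOpen P) {X : V d → F} (hX : LocLip P X) :
    ∀ᵐ x, x ∈ P → DifferentiableAt ℝ X x :=
  Pool.Agent.TH365.J158.LocLip.ae_differentiable hP hX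

/-- integration by parts for locally Lipschitz vector fields -/
theorem ibp {P : Set (V d)} (hP : IsOpen P) {X : V d → V d} (hX : LocLip P X) {φ : V d → ℝ}
    {L : NNReal} (hφ : LipschitzWith L φ) (hc : HasCompactSupport φ) (hs : tsupport φ ⊆ P) :
    Integrable (fun x => φ x * trL d (fderiv ℝ X x)) ∧
      Integrable (fun x => fderiv ℝ φ x (X x)) ∧
      ∫ x, φ x * trL d (fderiv ℝ X x) = -∫ x, fderiv ℝ φ x (X x) :=
  Pool.Agent.TH365.J158.ibp hP hX hφ hc hs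

/-- a vector field gives a lower bound for the `q`-energy -/
theorem field_ineq {q : ℝ} (hq : 1 < q) {P : Set (V d)} (hP : IsOpen P) {F : V d → V d}
    (hF : LocLip P F) {φ : V d → ℝ} {L : NNReal} (hφ : LipschitzWith L φ)
    (hc : HasCompactSupport φ) (hs : tsupport φ ⊆ P) {G : V d → ℝ}
    (hint : Integrable (fun x => G x * |φ x| ^ q))
    (hG : ∀ᵐ x, x ∈ P → φ x ≠ 0 →
      G x ≤ -trL d (fderiv ℝ F x) - (q - 1) * ‖F x‖ ^ (q / (q - 1))) :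
    ∫ x, G x * |φ x| ^ q ≤ ∫ x, ‖fderiv ℝ φ x‖ ^ q :=
  Pool.Agent.TH365.J158.field_ineq hq hP hF hφ hc hs hint hG

/-- energy inequality: the multiplier of the regularised solution is almost at least `lam p P` -/
theorem energy {p ε δ : ℝ} (hp : 1 < p) (hε : 0 < ε) (hδ : 0 < δ) {P : Set (V d)}
    (hP : IsOpen P) (hb : Bornology.IsBounded P) {v : V d → ℝ} {g : V d → V d}
    (h : Soln p ε δ P v g) {x₀ : V d} (hx₀ : x₀ ∈ P) (hmax : ∀ x ∈ P, v x ≤ v x₀)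
    (hae : ∀ᵐ x, x ∈ P → DifferentiableAt ℝ (fun y => opS p ε (g y)) x ∧ DifferentiableAt ℝ g x)
    (hibp : ∀ (φ : V d → ℝ) (L : NNReal), LipschitzWith L φ → HasCompactSupport φ →
      tsupport φ ⊆ P →
      Integrable (fun x => φ x * trL d (fderiv ℝ (fun y => opS p ε (g y)) x)) ∧
      Integrable (fun x => fderiv ℝ φ x (opS p ε (g x))) ∧
      ∫ x, φ x * trL d (fderiv ℝ (fun y => opS p ε (g y)) x) =
        -∫ x, fderiv ℝ φ x (opS p ε (g x)))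
    (hlam : ∀ (φ : V d → ℝ) (L : NNReal), LipschitzWith L φ → HasCompactSupport φ →
      tsupport φ ⊆ P → lam p P * ∫ x, |φ x| ^ p ≤ ∫ x, ‖fderiv ℝ φ x‖ ^ p)
    (hent : ∫ x in P, |v x - v x₀| * Real.exp (p * (v x - v x₀)) ≤
      (d / p) * ∫ x in P, Real.exp (p * (v x - v x₀))) :
    lam p P ≤ -δ * v x₀ + δ * d / p :=
  Pool.Agent.TH925.J160.energy hp hε hδ hP hb h hx₀ hmax hae hibp hlam hent

theorem rho_bound {p Λ ρ : ℝ} (hp : 1 < p) (hΛ : 0 < Λ) (hρ : 0 < ρ) :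
    ∃ ε₀ : ℝ, 0 < ε₀ ∧ ∀ ε : ℝ, 0 < ε → ε < ε₀ → ∀ t : ℝ, 0 ≤ t →
      (1 - ρ) * ((p - 1) * (t * (ε ^ 2 + t ^ 2) ^ ((p - 2) / 2)) ^ (p / (p - 1))) - ρ * Λ ≤
        p * ((ε ^ 2 + t ^ 2) ^ ((p - 2) / 2) * t ^ 2) - t ^ p :=
  Pool.Agent.TH480.J162.rho_bound hp hΛ hρ

/-- interior `C^{1,1}` regularity -/
theorem regularity {O : OpData d} {δ : ℝ} {P : Set (V d)} (hP : IsOpen P) {v : V d → ℝ}
    (hv : ConcaveOn ℝ P v)
    (happ : ∀ K : Set (V d), K ⊆ P → IsCompact K → ∀ η : ℝ, 0 < η →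
      ∃ (G : V d → ℝ) (q : V d → V d) (Q : V d → V d →L[ℝ] V d), Apx O δ K η v G q Q) :
    ∃ g : V d → V d, (∀ x ∈ P, HasGradientAt v (g x) x) ∧ LocLip P g :=
  Pool.Agent.TH480.J166.regularity hP hv happ

end Pool.Agent.TH281.PC

namespace Pool.Agent.TH281.PC.T

variable {d : ℕ}

/-- tangential part of `-tr D` -/
noncomputable def tau (z : V d) (D : V d →L[ℝ] V d) : ℝ := (‖z‖ ^ 2)⁻¹ * ⟪D z, z⟫_ℝ - trL d D

/-- tangential field, orthogonal to `g y` -/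
noncomputable def tanF (k : ℝ → ℝ) (x₁ : V d) (g : V d → V d) (y : V d) : V d :=
  -(k (‖g y‖ ^ 2) • (‖g y‖ ^ 2 • (y - x₁) - ⟪g y, y - x₁⟫_ℝ • g y))

/-- divergence of the tangential field -/
theorem trL_tanF {k : ℝ → ℝ} {k' : ℝ} {x₁ x : V d} {g : V d → V d} {D : V d →L[ℝ] V d}
    (hg : HasFDerivAt g D x) (hsym : ∀ a b, ⟪D a, b⟫_ℝ = ⟪a, D b⟫_ℝ)
    (hk : HasDerivAt k k' (‖g x‖ ^ 2)) (hz : g x ≠ 0) :
    ∃ T : V d →L[ℝ] V d, HasFDerivAt (tanF k x₁ g) T x ∧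
      -trL d T = k (‖g x‖ ^ 2) * ‖g x‖ ^ 2 * ((d : ℝ) - 1) +
        (2 * k' * ‖g x‖ ^ 2 + k (‖g x‖ ^ 2)) *
          ⟪D (g x), (x - x₁) - (⟪g x, x - x₁⟫_ℝ / ‖g x‖ ^ 2) • g x⟫_ℝ +
        k (‖g x‖ ^ 2) * ⟪g x, x - x₁⟫_ℝ * tau (g x) D :=
  Pool.Agent.TH365.J194.trL_tanF hg hsym hk hz

/-- lower bound for the divergence of the tangential field, `k = χ ^ 2` -/
theorem tan_lower (hd : 2 ≤ d) {χ : ℝ → ℝ} {χ' : ℝ} {x₁ x : V d} {g : V d → V d}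
    {D : V d →L[ℝ] V d} (hg : HasFDerivAt g D x) (hsym : ∀ a b, ⟪D a, b⟫_ℝ = ⟪a, D b⟫_ℝ)
    (hD : ∀ x, ⟪D x, x⟫_ℝ ≤ 0) (hχ : HasDerivAt χ χ' (‖g x‖ ^ 2)) {r₁ r₂ C D₀ N : ℝ}
    (hr₁ : 0 < r₁) (h1 : r₁ ≤ ‖g x‖) (h2 : ‖g x‖ ≤ r₂)
    (hC : |4 * χ' * ‖g x‖ ^ 2 + χ (‖g x‖ ^ 2)| ≤ C) (hχ1 : |χ (‖g x‖ ^ 2)| ≤ 1)
    (hX : ‖x - x₁‖ ≤ D₀) (hN : -⟪D (g x), g x⟫_ℝ ≤ N) :
    ∃ T : V d →L[ℝ] V d, HasFDerivAt (tanF (fun u => χ u ^ 2) x₁ g) T x ∧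
      (1 / 2) * χ (‖g x‖ ^ 2) ^ 2 * ‖g x‖ ^ 2 -
        (C ^ 2 * D₀ ^ 2 * N / (2 * r₁ ^ 2) + r₂ * D₀) * tau (g x) D ≤ -trL d T :=
  Pool.Agent.TH365.J194.tan_lower hd hg hsym hD hχ hr₁ h1 h2 hC hχ1 hX hN

/-- the product of a locally Lipschitz function and a compactly supported Lipschitz function -/
theorem exists_lipschitz_mul {P : Set (V d)} (hP : IsOpen P) {a : V d → ℝ}
    (ha : LocLip P a) {φ : V d → ℝ} {L : NNReal} (hφ : LipschitzWith L φ)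
    (hc : HasCompactSupport φ) (hs : tsupport φ ⊆ P) :
    ∃ L' : NNReal, LipschitzWith L' (fun x => a x * φ x) :=
  Pool.Agent.TH365.J194.LocLip.exists_lipschitz_mul hP ha hφ hc hs

end Pool.Agent.TH281.PC.T
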