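import Pool.Agent.TH281.PC.Cert
import Pool.Agent.TH281.PC.Exist
import Pool.Agent.TH925.J54
import Pool.Agent.TH925.J55

/-!
# The comparison of principal eigenvalues
-/

open MeasureTheory Set Metric Filter Topology
open scoped InnerProductSpace

namespace Pool.Agent.TH281.PC

variable {d : ℕ}

theorem LocLip.comp {F F' : Type*} [NormedAddCommGroup F] [NormedAddCommGroup F'] {P : Set (V d)}
    {X : V d → F} (hX : LocLip P X) {Φ : F → F'} (hΦ : LocallyLipschitz Φ) :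
    LocLip P (fun x => Φ (X x)) := by
  intro K hKP hK
  obtain ⟨L, hL⟩ := hX K hKP hK
  have hKi : IsCompact (X '' K) := hK.image_of_continuousOn hL.continuousOn
  obtain ⟨L', hL'⟩ := (hΦ.locallyLipschitzOn (s := X '' K)).exists_lipschitzOnWith_of_compact hKi
  exact ⟨L' * L, hL'.comp hL (mapsTo_image X K)⟩

theorem contDiff_opS {p ε : ℝ} (hε : 0 < ε) : ContDiff ℝ 1 (opS p ε : V d → V d) := by
  have hpos : ∀ ξ : V d, ε ^ 2 + ‖ξ‖ ^ 2 ≠ 0 := fun ξ => by positivity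
  have h1 : ContDiff ℝ 1 fun ξ : V d => ε ^ 2 + ‖ξ‖ ^ 2 :=
    contDiff_const.add (contDiff_norm_sq ℝ)
  exact (h1.rpow_const_of_ne hpos).smul contDiff_id

/-- maxima exist -/
theorem Coer.exists_max {P : Set (V d)} (hP : IsOpen P) (hne : P.Nonempty) {v : V d → ℝ}
    (hv : ConcaveOn ℝ P v) (hc : Coer P v) : ∃ x₀ ∈ P, ∀ x ∈ P, v x ≤ v x₀ := by
  obtain ⟨x₁, hx₁⟩ := hne
  obtain ⟨K, hKP, hK, hmem⟩ := hc (-v x₁)
  have hcont : ContinuousOn v P := hv.continuousOn hP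
  obtain ⟨x₀, hx₀, hmax⟩ := hK.exists_isMaxOn ⟨x₁, hmem x₁ hx₁ (by simp)⟩ (hcont.mono hKP)
  refine ⟨x₀, hKP hx₀, fun x hx => ?_⟩
  rcases le_or_gt (v x₁) (v x) with h | h
  · exact hmax (hmem x hx (by simpa using h))
  · exact h.le.trans (hmax (hmem x₁ hx₁ (by simp)))

theorem lam_anti {p : ℝ} {P Ω : Set (V d)} (hP : IsOpen P) (hne : P.Nonempty) (h : P ⊆ Ω) :
    lam p Ω ≤ lam p P := by
  have h1 : (lamSet p P).Nonempty := Pool.Agent.TH925.J54.lamSet_nonempty p hP hne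
  refine le_csInf h1 ?_
  rintro r ⟨u, hu, hc, hs, h0, rfl⟩
  exact csInf_le (Pool.Agent.TH925.J54.lamSet_bdd p Ω) ⟨u, hu, hc, hs.trans h, h0, rfl⟩

theorem lam_nonneg {p : ℝ} {Ω : Set (V d)} : 0 ≤ lam p Ω :=
  Real.sInf_nonneg (by
    rintro r ⟨u, -, -, -, -, rfl⟩
    exact div_nonneg (integral_nonneg fun x => by positivity)
      (integral_nonneg fun x => by positivity))

/-- for small parameters, the zeroth order inequality needed for the certificate -/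
theorem setup {p Λ ρ : ℝ} (hp : 1 < p) (hΛ : 0 < Λ) (hρ : 0 < ρ) (hρ1 : ρ < 1) (d : ℕ) :
    ∃ ε δ : ℝ, 0 < ε ∧ ε ≤ 1 ∧ 0 < δ ∧ δ ≤ 1 ∧
      (∀ z : V d, (1 - ρ) * ((p - 1) * ‖opS p ε z‖ ^ (p / (p - 1))) - ρ * Λ ≤ opb p ε z) ∧
      ∀ P : Set (V d), IsOpen P →
      Bornology.IsBounded P → ∀ (v : V d → ℝ) (g : V d → V d), Soln p ε δ P v g →
      ∀ x₀ ∈ P, (∀ x ∈ P, v x ≤ v x₀) → Λ ≤ lam p P →
      ∀ z : V d, (1 - ρ) * (Λ + (p - 1) * ‖opS p ε z‖ ^ (p / (p - 1))) ≤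
        opb p ε z - δ * v x₀ := by
  obtain ⟨ε₀, hε₀, hε⟩ := rho_bound (ρ := ρ / 2) hp hΛ (by linarith)
  have hε1 : 0 < min 1 (ε₀ / 2) := lt_min one_pos (by linarith)
  set ε := min 1 (ε₀ / 2) with hεdef
  have hεlt : ε < ε₀ := (min_le_right _ _).trans_lt (by linarith)
  have hp0 : 0 < p := by linarith
  set δ := min 1 ((ρ / 2) * Λ * p / (d + 1)) with hδdef
  have hδ : 0 < δ := lt_min one_pos (by positivity)
  have hb0 : ∀ z : V d, (1 - ρ / 2) * ((p - 1) * ‖opS p ε z‖ ^ (p / (p - 1))) - ρ / 2 * Λ ≤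
      opb p ε z := by
    intro z
    have h3 := hε ε hε1 hεlt ‖z‖ (norm_nonneg z)
    rw [← norm_opS] at h3
    exact h3
  refine ⟨ε, δ, hε1, min_le_left _ _, hδ, min_le_left _ _, ?_, ?_⟩
  · intro z
    have h3 := hb0 z
    have h5 : 0 ≤ (p - 1) * ‖opS p ε z‖ ^ (p / (p - 1)) :=
      mul_nonneg (by linarith) (Real.rpow_nonneg (norm_nonneg _) _)
    nlinarith
  intro P hP hb v g h x₀ hx₀ hmax hlam z
  have hSlip : LocLip P (fun y => opS p ε (g y)) :=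
    h.lip.comp (contDiff_opS hε1).locallyLipschitz
  have hen := energy hp hε1 hδ hP hb h hx₀ hmax
    (by
      filter_upwards [hSlip.ae_differentiable hP, h.lip.ae_differentiable hP] with x h1 h2 hx
      exact ⟨h1 hx, h2 hx⟩)
    (fun φ L hφ hc hs => ibp hP hSlip hφ hc hs)
    (fun φ L hφ hc hs => Pool.Agent.TH925.J56.lam_le_lipschitz hp hP hφ hc hs)
    (by
      have := Pool.Agent.TH925.J56.entropy_bound (w := fun x => v x - v x₀) hp0 hP hb
        (h.conc.sub (convexOn_const (v x₀) h.conc.1)) hx₀ (by simp)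
        (fun x hx => by linarith [hmax x hx])
      exact this)
  have h1 : δ * d / p ≤ (ρ / 2) * Λ := by
    have h2 : δ ≤ (ρ / 2) * Λ * p / (d + 1) := min_le_right _ _
    have hd : (0:ℝ) < d + 1 := by positivity
    rw [le_div_iff₀ hd] at h2
    rw [div_le_iff₀ hp0]
    nlinarith
  have h3 := hb0 z
  have h5 : 0 ≤ (p - 1) * ‖opS p ε z‖ ^ (p / (p - 1)) :=
    mul_nonneg (by linarith) (Real.rpow_nonneg (norm_nonneg _) _)
  nlinarith

/-- lower bound for the `q`-energy on polyhedra -/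
theorem cert_bound {p q ε δ Λ M ρ : ℝ} (hq : 1 < q) (hp : 1 < p) (hε : 0 < ε) (hδ : 0 < δ)
    (hΛ : 0 < Λ) (hM : 0 < M) (hρ1 : ρ < 1) {f : ℝ → ℝ} (hf : Phase p q Λ M f)
    {P : Set (V d)} (hP : IsOpen P) {v : V d → ℝ} {g : V d → V d}
    (h : Soln p ε δ P v g) {x₀ : V d} (hmax : ∀ x ∈ P, v x ≤ v x₀)
    (hρ : ∀ z : V d, (1 - ρ) * (Λ + (p - 1) * ‖opS p ε z‖ ^ (p / (p - 1))) ≤
      opb p ε z - δ * v x₀) {φ : V d → ℝ} {L : NNReal} (hφ : LipschitzWith L φ)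
    (hc : HasCompactSupport φ) (hs : tsupport φ ⊆ P) :
    (1 - ρ) ^ q * M * ∫ x, |φ x| ^ q ≤ ∫ x, ‖fderiv ℝ φ x‖ ^ q := by
  have hq0 : 0 < q := by linarith
  have hlip : LocLip P (fun y => radF p ε f (g y)) := LocLip.radF hp hε hq hΛ hf h.lip
  have hlip2 := hlip.const_smul ((1 - ρ) ^ (q - 1))
  have hint : Integrable (fun x => (1 - ρ) ^ q * M * |φ x| ^ q) := by
    refine Integrable.const_mul ?_ _
    refine Continuous.integrable_of_hasCompactSupport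
      (hφ.continuous.abs.rpow_const fun x => Or.inr hq0.le) ?_
    exact hc.comp_left (g := fun t : ℝ => |t| ^ q) (by simp [Real.zero_rpow hq0.ne'])
  have key := field_ineq hq hP hlip2 hφ hc hs hint ?_
  · rwa [integral_const_mul] at key
  filter_upwards [h.lip.ae_differentiable hP] with x hxd hx _
  have hD := (hxd hx).hasFDerivAt
  have h1 := (flux_eq hp hε hf h hx hD).1
  have h2 := flux_ge hq hp hε hδ hΛ hM hf h hmax hρ hx hD
  have h3 : fderiv ℝ (fun y => (1 - ρ) ^ (q - 1) • radF p ε f (g y)) x =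
      (1 - ρ) ^ (q - 1) • ((radD p ε f (phD p q Λ M f) (g x)).comp (fderiv ℝ g x)) :=
    (h1.const_smul ((1 - ρ) ^ (q - 1))).fderiv
  have hr : 0 < 1 - ρ := by linarith
  rw [h3, map_smul, smul_eq_mul, norm_smul, Real.norm_eq_abs,
    abs_of_pos (Real.rpow_pos_of_pos hr _)]
  have h4 : 0 ≤ gam p q ε Λ M f (g x) * tau (g x) (fderiv ℝ g x) :=
    mul_nonneg (gam_nonneg hf _) (tau_nonneg (hess_nonpos hP h.conc h.grad hx hD))
  have h5 : ((1 - ρ) ^ (q - 1) * ‖radF p ε f (g x)‖) ^ (q / (q - 1)) =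
      (1 - ρ) ^ q * ‖radF p ε f (g x)‖ ^ (q / (q - 1)) := by
    rw [Real.mul_rpow (Real.rpow_pos_of_pos hr _).le (norm_nonneg _), ← Real.rpow_mul hr.le]
    congr 2
    have : q - 1 ≠ 0 := by linarith
    field_simp
  rw [h5]
  have h6 : (1 - ρ) ^ q = (1 - ρ) ^ (q - 1) * (1 - ρ) := by
    rw [← Real.rpow_add_one hr.ne']
    congr 1
    ring
  have h7 := mul_le_mul_of_nonneg_left ((le_add_of_nonneg_right h4).trans h2)
    (Real.rpow_pos_of_pos hr (q - 1)).le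
  rw [h6]
  nlinarith

/-- the phase constant -/
theorem lam_compare {p q : ℝ} (hq : 1 < q) (hpq : q < p) (hd : 1 ≤ d) {Ω : Set (V d)}
    (hΩ : IsOpen Ω) (hcv : Convex ℝ Ω) (hb : Bornology.IsBounded Ω) (hne : Ω.Nonempty)
    {Λ M : ℝ} (hΛ : 0 < Λ) (hM : 0 < M) (hΛle : Λ ≤ lam p Ω)
    (hs : M ^ (-(1 / q)) * Jr q = Λ ^ (-(1 / p)) * Jr p) :
    M ≤ lam q Ω := by
  have hp : 1 < p := hq.trans hpq
  obtain ⟨f, hf⟩ := exists_phase hq hpq hΛ hM hs
  -- it is enough to bound each Rayleigh quotient by `(1 - ρ) ^ q * M`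
  have key : ∀ ρ : ℝ, 0 < ρ → ρ < 1 → (1 - ρ) ^ q * M ≤ lam q Ω := by
    intro ρ hρ0 hρ1
    obtain ⟨ε, δ, hε, -, hδ, -, -, hset⟩ := setup hp hΛ hρ0 hρ1 d
    have h1 : (lamSet q Ω).Nonempty := Pool.Agent.TH925.J54.lamSet_nonempty q hΩ hne
    refine le_csInf h1 ?_
    rintro r ⟨u, hu, hc, hsu, h0, rfl⟩
    obtain ⟨n, ν, c, hν, hK, hPΩ, hPne⟩ :=
      Pool.Agent.TH925.J55.exists_polytope hd hΩ hcv hb hne hc hsu
    change tsupport u ⊆ poly ν c at hK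
    change poly ν c ⊆ Ω at hPΩ
    change (poly ν c).Nonempty at hPne
    have hP := isOpen_poly ν c
    have hPb := hb.subset hPΩ
    obtain ⟨v, g, hsol⟩ := exists_soln hp hε hδ hν hP hPb hPne
    obtain ⟨x₀, hx₀, hmax⟩ := hsol.coer.exists_max hP hPne hsol.conc
    have hρ' := hset _ hP hPb v g hsol x₀ hx₀ hmax (hΛle.trans (lam_anti hP hPne hPΩ))
    obtain ⟨L, hL⟩ := hu.lipschitzWith_of_hasCompactSupport hc one_ne_zero
    have h2 := cert_bound hq hp hε hδ hΛ hM hρ1 hf hP hsol hmax hρ' hL hc hK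
    have h3 : 0 < ∫ x, |u x| ^ q :=
      Pool.Agent.TH925.J54.integral_pos_of_ne_zero hu.continuous hc h0 (by linarith)
    rwa [le_div_iff₀ h3]
  -- let `ρ → 0`
  have hlim : Tendsto (fun ρ : ℝ => (1 - ρ) ^ q * M) (𝓝[>] 0) (𝓝 ((1 - 0) ^ q * M)) := by
    apply Tendsto.mono_left _ nhdsWithin_le_nhds
    have : ContinuousAt (fun ρ : ℝ => (1 - ρ) ^ q * M) 0 := by
      refine ContinuousAt.mul (ContinuousAt.rpow_const (by fun_prop) (Or.inl (by norm_num)))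
        continuousAt_const
    exact this
  rw [sub_zero, Real.one_rpow, one_mul] at hlim
  refine le_of_tendsto hlim ?_
  filter_upwards [Ioo_mem_nhdsGT one_pos] with ρ hρ
  exact key ρ hρ.1 hρ.2

end Pool.Agent.TH281.PC
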