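import Pool.Agent.TH281.PC.Core

/-!
# The regularised p-Laplacian operator in logarithmic form
-/

open MeasureTheory Set Metric Filter Topology
open scoped InnerProductSpace

namespace Pool.Agent.TH281.PC

variable {d : ℕ}

/-- the trace as a continuous linear functional -/
noncomputable def trL (d : ℕ) : (V d →L[ℝ] V d) →L[ℝ] ℝ :=
  LinearMap.toContinuousLinearMap
    ((LinearMap.trace ℝ (V d)) ∘ₗ (ContinuousLinearMap.coeLM ℝ : (V d →L[ℝ] V d) →ₗ[ℝ] _))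

theorem trL_eq_sum {ι : Type*} [Fintype ι] (B : OrthonormalBasis ι ℝ (V d))
    (H : V d →L[ℝ] V d) : trL d H = ∑ i, ⟪H (B i), B i⟫_ℝ := by
  classical
  have h1 : trL d H = LinearMap.trace ℝ (V d) (H : V d →ₗ[ℝ] V d) := rfl
  rw [h1, LinearMap.trace_eq_sum_inner _ B]
  refine Finset.sum_congr rfl fun i _ => ?_
  rw [real_inner_comm]
  rfl

theorem trL_nonneg {H : V d →L[ℝ] V d} (h : ∀ x, 0 ≤ ⟪H x, x⟫_ℝ) : 0 ≤ trL d H := by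
  rw [trL_eq_sum (stdOrthonormalBasis ℝ (V d))]
  exact Finset.sum_nonneg fun i _ => h _

theorem le_trL {H : V d →L[ℝ] V d} (h : ∀ x, 0 ≤ ⟪H x, x⟫_ℝ) {e : V d} (he : ‖e‖ = 1) :
    ⟪H e, e⟫_ℝ ≤ trL d H := by
  classical
  have h1 : Orthonormal ℝ ((↑) : ({e} : Set (V d)) → V d) := by
    rw [orthonormal_iff_ite]
    rintro ⟨a, ha⟩ ⟨b, hb⟩
    rw [mem_singleton_iff] at ha hb
    subst ha; subst hb
    simp [he]
  obtain ⟨u, b, hu, hb⟩ := h1.exists_orthonormalBasis_extension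
  have he' : e ∈ u := hu rfl
  rw [trL_eq_sum b]
  have h2 : ⟪H e, e⟫_ℝ = ⟪H (b ⟨e, he'⟩), b ⟨e, he'⟩⟫_ℝ := by
    rw [hb]
  rw [h2]
  exact Finset.single_le_sum (f := fun i => ⟪H (b i), b i⟫_ℝ) (fun i _ => h _) (Finset.mem_univ _)

theorem trL_le {H : V d →L[ℝ] V d} (h : ∀ x, ⟪H x, x⟫_ℝ ≤ 0) {e : V d} (he : ‖e‖ = 1) :
    trL d H ≤ ⟪H e, e⟫_ℝ := by
  have := le_trL (H := -H) (fun x => by simpa using h x) he
  simp only [map_neg, neg_apply, inner_neg_left] at this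
  linarith

/-- the matrix coefficient paired with `D²w` -/
noncomputable def opA (p ε : ℝ) (ξ : V d) : (V d →L[ℝ] V d) →L[ℝ] ℝ :=
  ((ε ^ 2 + ‖ξ‖ ^ 2) ^ ((p - 2) / 2)) • trL d +
    ((p - 2) * (ε ^ 2 + ‖ξ‖ ^ 2) ^ ((p - 4) / 2)) •
      ((innerSL ℝ ξ).comp (ContinuousLinearMap.apply ℝ (V d) ξ))

theorem opA_apply (p ε : ℝ) (ξ : V d) (H : V d →L[ℝ] V d) :
    opA p ε ξ H = (ε ^ 2 + ‖ξ‖ ^ 2) ^ ((p - 2) / 2) * trL d H +
      (p - 2) * (ε ^ 2 + ‖ξ‖ ^ 2) ^ ((p - 4) / 2) * ⟪H ξ, ξ⟫_ℝ := by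
  simp only [opA, add_apply, smul_apply, smul_eq_mul, ContinuousLinearMap.comp_apply,
    innerSL_apply_apply, ContinuousLinearMap.apply_apply]
  rw [real_inner_comm]

/-- the zeroth order term -/
noncomputable def opb (p ε : ℝ) (ξ : V d) : ℝ :=
  p * ((ε ^ 2 + ‖ξ‖ ^ 2) ^ ((p - 2) / 2) * ‖ξ‖ ^ 2) - ‖ξ‖ ^ p

theorem opA_le {p ε : ℝ} (hε : 0 < ε) (ξ : V d) {H : V d →L[ℝ] V d}
    (h : ∀ x, ⟪H x, x⟫_ℝ ≤ 0) :
    opA p ε ξ H ≤ min 1 (p - 1) * (ε ^ 2 + ‖ξ‖ ^ 2) ^ ((p - 2) / 2) * trL d H := by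
  rw [opA_apply]
  have hpos : 0 < ε ^ 2 + ‖ξ‖ ^ 2 := by positivity
  set α := (ε ^ 2 + ‖ξ‖ ^ 2) ^ ((p - 2) / 2) with hα
  have hα0 : 0 < α := Real.rpow_pos_of_pos hpos _
  have hβ : (ε ^ 2 + ‖ξ‖ ^ 2) ^ ((p - 4) / 2) = α / (ε ^ 2 + ‖ξ‖ ^ 2) := by
    rw [hα, eq_div_iff hpos.ne', ← Real.rpow_add_one hpos.ne']
    congr 1
    ring
  have htr : trL d H ≤ 0 := by
    have := trL_nonneg (H := -H) (fun x => by simpa using h x)
    simpa using this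
  have hξ : ⟪H ξ, ξ⟫_ℝ ≤ 0 := h ξ
  rw [hβ]
  rcases le_total 2 p with h2 | h2
  · rw [min_eq_left (by linarith)]
    have : (p - 2) * (α / (ε ^ 2 + ‖ξ‖ ^ 2)) * ⟪H ξ, ξ⟫_ℝ ≤ 0 :=
      mul_nonpos_of_nonneg_of_nonpos (by
        have : 0 ≤ α / (ε ^ 2 + ‖ξ‖ ^ 2) := by positivity
        exact mul_nonneg (by linarith) this) hξ
    linarith
  · rw [min_eq_right (by linarith)]
    -- `trL H * ‖ξ‖ ^ 2 ≤ ⟪H ξ, ξ⟫`
    have key : trL d H * ‖ξ‖ ^ 2 ≤ ⟪H ξ, ξ⟫_ℝ := by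
      rcases eq_or_ne ξ 0 with h0 | h0
      · simp [h0]
      · have hn : ‖ξ‖ ≠ 0 := norm_ne_zero_iff.2 h0
        have he : ‖(‖ξ‖⁻¹ • ξ)‖ = 1 := by
          rw [norm_smul, norm_inv, norm_norm, inv_mul_cancel₀ hn]
        have h3 := trL_le h he
        rw [map_smul, inner_smul_left, inner_smul_right, conj_trivial] at h3
        have h4 : 0 < ‖ξ‖ ^ 2 := by positivity
        calc trL d H * ‖ξ‖ ^ 2 ≤ (‖ξ‖⁻¹ * (‖ξ‖⁻¹ * ⟪H ξ, ξ⟫_ℝ)) * ‖ξ‖ ^ 2 := by gcongr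
          _ = ⟪H ξ, ξ⟫_ℝ := by field_simp
    have h5 : trL d H ≤ ⟪H ξ, ξ⟫_ℝ / (ε ^ 2 + ‖ξ‖ ^ 2) := by
      rw [le_div_iff₀ hpos]
      nlinarith [sq_nonneg ε]
    have h6 : (p - 2) * (α / (ε ^ 2 + ‖ξ‖ ^ 2)) * ⟪H ξ, ξ⟫_ℝ =
        -((2 - p) * α * (⟪H ξ, ξ⟫_ℝ / (ε ^ 2 + ‖ξ‖ ^ 2))) := by ring
    rw [h6]
    have h7 : 0 ≤ (2 - p) * α := mul_nonneg (by linarith) hα0.le
    have h8 := mul_le_mul_of_nonneg_left h5 h7
    nlinarith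

theorem continuous_opA {p ε : ℝ} (hε : 0 < ε) : Continuous (opA p ε : V d → _) := by
  have hpos : ∀ ξ : V d, ε ^ 2 + ‖ξ‖ ^ 2 ≠ 0 := fun ξ => by positivity
  have h1 : Continuous fun ξ : V d => (ε ^ 2 + ‖ξ‖ ^ 2) ^ ((p - 2) / 2) :=
    Continuous.rpow_const (by fun_prop) fun ξ => Or.inl (hpos ξ)
  have h2 : Continuous fun ξ : V d => (p - 2) * (ε ^ 2 + ‖ξ‖ ^ 2) ^ ((p - 4) / 2) :=
    Continuous.mul continuous_const
      (Continuous.rpow_const (by fun_prop) fun ξ => Or.inl (hpos ξ))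
  rw [continuous_clm_apply]
  intro H
  have e : (fun ξ : V d => opA p ε ξ H) = fun ξ => (ε ^ 2 + ‖ξ‖ ^ 2) ^ ((p - 2) / 2) * trL d H +
      (p - 2) * (ε ^ 2 + ‖ξ‖ ^ 2) ^ ((p - 4) / 2) * ⟪H ξ, ξ⟫_ℝ := by
    funext ξ
    rw [opA_apply]
  rw [e]
  exact (h1.mul continuous_const).add (h2.mul (by fun_prop))

theorem continuous_opb {p ε : ℝ} (hp : 1 < p) (hε : 0 < ε) :
    Continuous (opb p ε : V d → ℝ) := by
  have hpos : ∀ ξ : V d, ε ^ 2 + ‖ξ‖ ^ 2 ≠ 0 := fun ξ => by positivity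
  unfold opb
  refine Continuous.sub (Continuous.mul continuous_const (Continuous.mul ?_ (by fun_prop))) ?_
  · exact Continuous.rpow_const (by fun_prop) fun ξ => Or.inl (hpos ξ)
  · exact Continuous.rpow_const continuous_norm fun ξ => Or.inr (by linarith)

theorem opA_nonneg {p ε : ℝ} (hp : 1 < p) (hε : 0 < ε) (ξ : V d) {H : V d →L[ℝ] V d}
    (h : ∀ x, 0 ≤ ⟪H x, x⟫_ℝ) : 0 ≤ opA p ε ξ H := by
  have h1 := opA_le (p := p) hε ξ (H := -H) (fun x => by simpa using h x)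
  have h2 : 0 ≤ trL d H := trL_nonneg h
  have hpos : 0 < ε ^ 2 + ‖ξ‖ ^ 2 := by positivity
  have h3 : 0 ≤ min 1 (p - 1) * (ε ^ 2 + ‖ξ‖ ^ 2) ^ ((p - 2) / 2) * trL d H := by
    have : 0 ≤ min 1 (p - 1) := le_min zero_le_one (by linarith)
    positivity
  simp only [map_neg] at h1
  linarith

/-- the operator `w ↦ div S(∇w) + b(∇w)` -/
noncomputable def opD (d : ℕ) (p ε : ℝ) (hp : 1 < p) (hε : 0 < ε) : OpData d where
  A := opA p ε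
  b := opb p ε
  contA := continuous_opA hε
  contb := continuous_opb hp hε
  pos := fun ξ H h => opA_nonneg hp hε ξ h
  ell := by
    intro R
    -- lower bound for the weight on a ball
    have hcont : Continuous fun ξ : V d => (ε ^ 2 + ‖ξ‖ ^ 2) ^ ((p - 2) / 2) :=
      Continuous.rpow_const (by fun_prop) fun ξ => Or.inl (by positivity)
    have hcpt : IsCompact (closedBall (0 : V d) |R|) := isCompact_closedBall _ _
    have hne : (closedBall (0 : V d) |R|).Nonempty := ⟨0, by simp⟩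
    obtain ⟨ξ₀, _, hmin⟩ := hcpt.exists_isMinOn hne hcont.continuousOn
    have hm : 0 < (ε ^ 2 + ‖ξ₀‖ ^ 2) ^ ((p - 2) / 2) := Real.rpow_pos_of_pos (by positivity) _
    have hc : 0 < min 1 (p - 1) := lt_min one_pos (by linarith)
    refine ⟨min 1 (p - 1) * (ε ^ 2 + ‖ξ₀‖ ^ 2) ^ ((p - 2) / 2), by positivity, ?_⟩
    intro ξ hξ H hH e he
    have h1 := opA_le (p := p) hε ξ hH
    have h2 := trL_le hH he
    have h3 : (ε ^ 2 + ‖ξ₀‖ ^ 2) ^ ((p - 2) / 2) ≤ (ε ^ 2 + ‖ξ‖ ^ 2) ^ ((p - 2) / 2) :=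
      hmin (by rw [mem_closedBall, dist_zero_right]; exact hξ.trans (le_abs_self R))
    have h4 : ⟪H e, e⟫_ℝ ≤ 0 := hH e
    calc opA p ε ξ H ≤ min 1 (p - 1) * (ε ^ 2 + ‖ξ‖ ^ 2) ^ ((p - 2) / 2) * trL d H := h1
      _ ≤ min 1 (p - 1) * (ε ^ 2 + ‖ξ‖ ^ 2) ^ ((p - 2) / 2) * ⟪H e, e⟫_ℝ := by gcongr
      _ ≤ min 1 (p - 1) * (ε ^ 2 + ‖ξ₀‖ ^ 2) ^ ((p - 2) / 2) * ⟪H e, e⟫_ℝ := by
          apply mul_le_mul_of_nonpos_right _ h4
          gcongr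

/-- the flux -/
noncomputable def opS (p ε : ℝ) (ξ : V d) : V d := ((ε ^ 2 + ‖ξ‖ ^ 2) ^ ((p - 2) / 2)) • ξ

/-- derivative of the flux -/
noncomputable def opDS (p ε : ℝ) (ξ : V d) : V d →L[ℝ] V d :=
  ((ε ^ 2 + ‖ξ‖ ^ 2) ^ ((p - 2) / 2)) • ContinuousLinearMap.id ℝ (V d) +
    ((p - 2) * (ε ^ 2 + ‖ξ‖ ^ 2) ^ ((p - 4) / 2)) • (innerSL ℝ ξ).smulRight ξ

theorem hasFDerivAt_opS {p ε : ℝ} (hε : 0 < ε) (ξ : V d) :
    HasFDerivAt (opS p ε) (opDS p ε ξ) ξ := by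
  have hpos : 0 < ε ^ 2 + ‖ξ‖ ^ 2 := by positivity
  have h1 : HasFDerivAt (fun ξ : V d => ε ^ 2 + ‖ξ‖ ^ 2) ((2 : ℝ) • innerSL ℝ ξ) ξ := by
    have h0 := (hasStrictFDerivAt_norm_sq ξ).hasFDerivAt.const_add (ε ^ 2)
    refine h0.congr_fderiv ?_
    ext1 e
    simp [two_smul]
  have h2 := h1.rpow_const (p := (p - 2) / 2) (Or.inl hpos.ne')
  have h3 := h2.smul (hasFDerivAt_id ξ)
  refine h3.congr_fderiv ?_
  ext1 e
  simp only [opDS, add_apply, smul_apply, ContinuousLinearMap.smulRight_apply,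
    ContinuousLinearMap.id_apply, innerSL_apply_apply, id, smul_eq_mul]
  have e1 : (p - 2) / 2 - 1 = (p - 4) / 2 := by ring
  rw [e1]
  congr 1
  rw [smul_smul]
  congr 1
  ring

theorem trL_comp_opDS {p ε : ℝ} (ξ : V d) (D : V d →L[ℝ] V d) :
    trL d ((opDS p ε ξ).comp D) = opA p ε ξ D := by
  have B := stdOrthonormalBasis ℝ (V d)
  have key : ∑ i, ⟪ξ, D (B i)⟫_ℝ * ⟪ξ, B i⟫_ℝ = ⟪D ξ, ξ⟫_ℝ := by
    have h := B.sum_inner_mul_inner (ContinuousLinearMap.adjoint D ξ) ξ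
    simp only [ContinuousLinearMap.adjoint_inner_left] at h
    rw [real_inner_comm ξ (D ξ), ← h]
    refine Finset.sum_congr rfl fun i _ => ?_
    rw [real_inner_comm ξ (B i)]
  rw [opA_apply, trL_eq_sum B, trL_eq_sum B]
  simp only [opDS, ContinuousLinearMap.comp_apply, add_apply, smul_apply,
    ContinuousLinearMap.smulRight_apply, ContinuousLinearMap.id_apply, innerSL_apply_apply,
    inner_add_left, inner_smul_left, conj_trivial, Finset.sum_add_distrib, ← Finset.mul_sum]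
  rw [key]

theorem norm_opS (p ε : ℝ) (ξ : V d) :
    ‖opS p ε ξ‖ = ‖ξ‖ * (ε ^ 2 + ‖ξ‖ ^ 2) ^ ((p - 2) / 2) := by
  have hpos : 0 ≤ ε ^ 2 + ‖ξ‖ ^ 2 := by positivity
  rw [opS, norm_smul, Real.norm_eq_abs, abs_of_nonneg (Real.rpow_nonneg hpos _), mul_comm]

theorem opb_eq (p ε : ℝ) (ξ : V d) : opb p ε ξ = p * ⟪opS p ε ξ, ξ⟫_ℝ - ‖ξ‖ ^ p := by
  rw [opb, opS, inner_smul_left, conj_trivial, real_inner_self_eq_norm_sq]

/-- a concave coercive solution of the regularised equation on `P`, with its gradient -/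
structure Soln (p ε δ : ℝ) (P : Set (V d)) (v : V d → ℝ) (g : V d → V d) : Prop where
  conc : ConcaveOn ℝ P v
  coer : Coer P v
  grad : ∀ x ∈ P, HasGradientAt v (g x) x
  lip : LocLip P g
  eq : ∀ x ∈ P, ∀ D, HasFDerivAt g D x →
    opA p ε (g x) D + opb p ε (g x) - δ * v x = 0

end Pool.Agent.TH281.PC
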