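import Pool.Agent.TH281.PC.Main

/-!
# Strictness: uniform constants
-/

open MeasureTheory Set Metric Filter Topology
open scoped InnerProductSpace

namespace Pool.Agent.TH281.PC

variable {d : ℕ}

/-- supergradient inequality -/
theorem supergrad {P : Set (V d)} {v : V d → ℝ} (hv : ConcaveOn ℝ P v) {y z g : V d}
    (hg : HasGradientAt v g y) (hy : y ∈ P) (hz : z ∈ P) : v z ≤ v y + ⟪g, z - y⟫_ℝ := by
  have hline : HasDerivWithinAt (fun t : ℝ => v (y + t • (z - y))) (⟪g, z - y⟫_ℝ)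
      (Ioi 0) 0 := by
    have h2 : HasDerivAt (fun s : ℝ => y + s • (z - y)) (z - y) 0 := by
      simpa using ((hasDerivAt_id (0:ℝ)).smul_const (z - y)).const_add y
    have h3 : HasGradientAt v g (y + (0:ℝ) • (z - y)) := by simpa using hg
    have h4 := h3.hasFDerivAt.comp_hasDerivAt (0:ℝ) h2
    refine (h4.congr_deriv ?_).hasDerivWithinAt
    simp
  have h5 := (hasDerivWithinAt_iff_tendsto_slope' (by simp)).1 hline
  have hge : ∀ᶠ t in 𝓝[>] (0:ℝ), v z - v y ≤ slope (fun t : ℝ => v (y + t • (z - y))) 0 t := by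
    have : Ioo (0:ℝ) 1 ∈ 𝓝[>] (0:ℝ) := Ioo_mem_nhdsGT one_pos
    filter_upwards [this] with t ht
    have h6 := hv.2 hy hz (by linarith [ht.2] : (0:ℝ) ≤ 1 - t) ht.1.le (by ring)
    have e1 : (1 - t) • y + t • z = y + t • (z - y) := by
      rw [sub_smul, one_smul, smul_sub]; abel
    rw [e1] at h6
    simp only [smul_eq_mul] at h6
    rw [slope_def_field, sub_zero, zero_smul, add_zero, le_div_iff₀ ht.1]
    nlinarith
  have h7 := ge_of_tendsto h5 hge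
  linarith

/-- symmetry of the Hessian -/
theorem hess_symm {P : Set (V d)} (hP : IsOpen P) {v : V d → ℝ} {g : V d → V d}
    (hg : ∀ x ∈ P, HasGradientAt v (g x) x) {x : V d} (hx : x ∈ P) {D : V d →L[ℝ] V d}
    (hD : HasFDerivAt g D x) (a b : V d) : ⟪D a, b⟫_ℝ = ⟪a, D b⟫_ℝ := by
  have h1 : ∀ᶠ y in 𝓝 x, HasFDerivAt v (innerSL ℝ (g y)) y := by
    filter_upwards [hP.mem_nhds hx] with y hy
    exact (hg y hy).hasFDerivAt
  have h2 : HasFDerivAt (fun y => innerSL ℝ (g y)) ((innerSL ℝ).comp D) x :=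
    (innerSL ℝ (E := V d)).hasFDerivAt.comp x hD
  have h3 := second_derivative_symmetric_of_eventually h1 h2 a b
  simp only [ContinuousLinearMap.comp_apply, innerSL_apply_apply] at h3
  rw [h3, real_inner_comm]

/-- norm of a nonpositive symmetric map is at most the trace of its negative -/
theorem norm_apply_le_trL {D : V d →L[ℝ] V d} (hsym : ∀ a b, ⟪D a, b⟫_ℝ = ⟪a, D b⟫_ℝ)
    (hD : ∀ x, ⟪D x, x⟫_ℝ ≤ 0) (e : V d) : ‖D e‖ ≤ -trL d D * ‖e‖ := by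
  have hq : ∀ y : V d, -⟪D y, y⟫_ℝ ≤ -trL d D * ‖y‖ ^ 2 := by
    intro y
    rcases eq_or_ne y 0 with h0 | h0
    · simp [h0]
    · have hn : ‖y‖ ≠ 0 := norm_ne_zero_iff.2 h0
      have he : ‖(‖y‖⁻¹ • y)‖ = 1 := by
        rw [norm_smul, norm_inv, norm_norm, inv_mul_cancel₀ hn]
      have h3 := trL_le hD he
      rw [map_smul, inner_smul_left, inner_smul_right, conj_trivial] at h3
      have h4 : 0 < ‖y‖ ^ 2 := by positivity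
      have h5 := mul_le_mul_of_nonneg_right h3 h4.le
      have e1 : (‖y‖⁻¹ * (‖y‖⁻¹ * ⟪D y, y⟫_ℝ)) * ‖y‖ ^ 2 = ⟪D y, y⟫_ℝ := by field_simp
      rw [e1] at h5
      linarith
  have htr : 0 ≤ -trL d D := by
    have := trL_nonneg (H := -D) (fun x => by simpa using hD x)
    simpa using this
  -- Cauchy-Schwarz for the form
  have hcs : ∀ a b : V d, ⟪D a, b⟫_ℝ ^ 2 ≤ (-⟪D a, a⟫_ℝ) * (-⟪D b, b⟫_ℝ) := by
    intro a b
    have hquad : ∀ t : ℝ, 0 ≤ (-⟪D b, b⟫_ℝ) * (t * t) + (-2 * ⟪D a, b⟫_ℝ) * t + (-⟪D a, a⟫_ℝ) := by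
      intro t
      have h := hD (a + t • b)
      simp only [map_add, map_smul, inner_add_left, inner_add_right, inner_smul_left,
        inner_smul_right, conj_trivial] at h
      have h2 : ⟪D b, a⟫_ℝ = ⟪D a, b⟫_ℝ := by rw [hsym, real_inner_comm]
      rw [h2] at h
      nlinarith
    have := discrim_le_zero hquad
    rw [discrim] at this
    nlinarith
  have h1 := hcs e (D e)
  have h2 := hq e
  have h3 := hq (D e)
  rw [real_inner_self_eq_norm_sq] at h1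
  have h4 : (‖D e‖ ^ 2) ^ 2 ≤ (-trL d D * ‖e‖ ^ 2) * (-trL d D * ‖D e‖ ^ 2) := by
    refine h1.trans (mul_le_mul h2 h3 ?_ (by positivity))
    linarith [hD (D e)]
  rcases eq_or_ne (D e) 0 with h0 | h0
  · rw [h0, norm_zero]; positivity
  · have hn : 0 < ‖D e‖ := norm_pos_iff.2 h0
    have h5 : ‖D e‖ ^ 2 ≤ (-trL d D * ‖e‖) ^ 2 := by
      have h6 : 0 < ‖D e‖ ^ 2 := by positivity
      have h7 : ‖D e‖ ^ 2 * ‖D e‖ ^ 2 ≤ (-trL d D * ‖e‖) ^ 2 * ‖D e‖ ^ 2 := by nlinarith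
      exact le_of_mul_le_mul_right h7 h6
    exact le_of_sq_le_sq h5 (by positivity)

/-- uniform constants on an annulus -/
theorem annulus_const {p q Λ M : ℝ} (hq : 1 < q) (hp : 1 < p) (hΛ : 0 < Λ) {f : ℝ → ℝ}
    (hf : Phase p q Λ M f) {r₁ r₂ : ℝ} (hr₁ : 0 < r₁) (hr : r₁ < r₂) :
    ∃ α₀ γ₀ B₀ a₀ a₁ : ℝ, 0 < α₀ ∧ 0 < γ₀ ∧ 0 < a₀ ∧ 0 < a₁ ∧ 0 ≤ B₀ ∧
      ∀ ε : ℝ, 0 < ε → ε ≤ 1 → ∀ z : V d, r₁ ≤ ‖z‖ → ‖z‖ ≤ r₂ →
        α₀ ≤ (ε ^ 2 + ‖z‖ ^ 2) ^ ((p - 2) / 2) ∧ γ₀ ≤ gam p q ε Λ M f z ∧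
        opb p ε z ≤ B₀ ∧ a₀ ≤ f ‖opS p ε z‖ ∧ f ‖opS p ε z‖ ≤ a₁ := by
  set K : Set (ℝ × ℝ) := Icc (0:ℝ) 1 ×ˢ Icc r₁ r₂ with hK
  have hKc : IsCompact K := isCompact_Icc.prod isCompact_Icc
  have hKne : K.Nonempty := ⟨(0, r₁), ⟨by simp, by simp [hr.le]⟩⟩
  have hpos : ∀ x ∈ K, 0 < x.1 ^ 2 + x.2 ^ 2 := by
    intro x hx
    have : 0 < x.2 := hr₁.trans_le hx.2.1
    positivity
  have hα : ContinuousOn (fun x : ℝ × ℝ => (x.1 ^ 2 + x.2 ^ 2) ^ ((p - 2) / 2)) K :=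
    ContinuousOn.rpow_const (by fun_prop) fun x hx => Or.inl (hpos x hx).ne'
  have hs : ContinuousOn (fun x : ℝ × ℝ => x.2 * (x.1 ^ 2 + x.2 ^ 2) ^ ((p - 2) / 2)) K :=
    (continuous_snd.continuousOn).mul hα
  have hspos : ∀ x ∈ K, 0 < x.2 * (x.1 ^ 2 + x.2 ^ 2) ^ ((p - 2) / 2) := fun x hx =>
    mul_pos (hr₁.trans_le hx.2.1) (Real.rpow_pos_of_pos (hpos x hx) _)
  have hmaps : MapsTo (fun x : ℝ × ℝ => x.2 * (x.1 ^ 2 + x.2 ^ 2) ^ ((p - 2) / 2)) K (Ici 0) :=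
    fun x hx => (hspos x hx).le
  have hfs : ContinuousOn (fun x : ℝ × ℝ => f (x.2 * (x.1 ^ 2 + x.2 ^ 2) ^ ((p - 2) / 2))) K :=
    hf.continuousOn.comp hs hmaps
  have hps : ContinuousOn (fun x : ℝ × ℝ =>
      phD p q Λ M f (x.2 * (x.1 ^ 2 + x.2 ^ 2) ^ ((p - 2) / 2))) K :=
    (hf.continuousOn_phD hq hp hΛ).comp hs hmaps
  have hγ : ContinuousOn (fun x : ℝ × ℝ =>
      (f (x.2 * (x.1 ^ 2 + x.2 ^ 2) ^ ((p - 2) / 2)) -
        (x.2 * (x.1 ^ 2 + x.2 ^ 2) ^ ((p - 2) / 2)) *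
          phD p q Λ M f (x.2 * (x.1 ^ 2 + x.2 ^ 2) ^ ((p - 2) / 2))) / x.2) K :=
    (hfs.sub (hs.mul hps)).div continuous_snd.continuousOn
      fun x hx => (hr₁.trans_le hx.2.1).ne'
  have hb : ContinuousOn (fun x : ℝ × ℝ =>
      p * ((x.1 ^ 2 + x.2 ^ 2) ^ ((p - 2) / 2) * x.2 ^ 2) - x.2 ^ p) K := by
    refine (continuousOn_const.mul (hα.mul (by fun_prop))).sub ?_
    exact continuous_snd.continuousOn.rpow_const fun x hx => Or.inr (by linarith)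
  obtain ⟨x₁, hx₁, hm₁⟩ := hKc.exists_isMinOn hKne hα
  obtain ⟨x₂, hx₂, hm₂⟩ := hKc.exists_isMinOn hKne hγ
  obtain ⟨x₃, hx₃, hm₃⟩ := hKc.exists_isMaxOn hKne hb
  obtain ⟨x₄, hx₄, hm₄⟩ := hKc.exists_isMinOn hKne hfs
  obtain ⟨x₅, hx₅, hm₅⟩ := hKc.exists_isMaxOn hKne hfs
  refine ⟨_, _, max 0 (p * ((x₃.1 ^ 2 + x₃.2 ^ 2) ^ ((p - 2) / 2) * x₃.2 ^ 2) - x₃.2 ^ p), _, _,
    Real.rpow_pos_of_pos (hpos x₁ hx₁) ((p - 2) / 2),
    div_pos (sub_pos.2 (hf.conc _ (hspos x₂ hx₂))) (hr₁.trans_le hx₂.2.1),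
    hf.pos _ (hspos x₄ hx₄), hf.pos _ (hspos x₅ hx₅), le_max_left _ _, ?_⟩
  intro ε hε0 hε1 z hz1 hz2
  have hmem : (ε, ‖z‖) ∈ K := ⟨⟨hε0.le, hε1⟩, ⟨hz1, hz2⟩⟩
  have e1 := norm_opS p ε z
  refine ⟨hm₁ hmem, ?_, ?_, ?_, ?_⟩
  · rw [gam, e1]; exact hm₂ hmem
  · exact (show opb p ε z ≤ _ from hm₃ hmem).trans (le_max_right _ _)
  · rw [e1]; exact hm₄ hmem
  · rw [e1]; exact hm₅ hmem

/-- upper bound for minus the Laplacian where the gradient is in an annulus -/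
theorem trace_bound {p ε δ : ℝ} (hp : 1 < p) (hε : 0 < ε) (hδ : 0 < δ) (hδ1 : δ ≤ 1)
    {P : Set (V d)} (hP : IsOpen P) {v : V d → ℝ} {g : V d → V d}
    (h : Soln p ε δ P v g) {x₀ : V d} (hx₀ : x₀ ∈ P) {D₀ Λm α₀ B₀ r₂ : ℝ}
    (hD₀ : ∀ x ∈ P, ∀ y ∈ P, ‖x - y‖ ≤ D₀) (hΛm : -δ * v x₀ ≤ Λm) {x : V d} (hx : x ∈ P)
    {D : V d →L[ℝ] V d} (hD : HasFDerivAt g D x) (hr : ‖g x‖ ≤ r₂) (hα₀ : 0 < α₀)
    (hα : α₀ ≤ (ε ^ 2 + ‖g x‖ ^ 2) ^ ((p - 2) / 2)) (hB : opb p ε (g x) ≤ B₀) :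
    -trL d D ≤ (B₀ + Λm + r₂ * D₀) / (min 1 (p - 1) * α₀) := by
  have hDn := hess_nonpos hP h.conc h.grad hx hD
  have h1 := opA_le (p := p) hε (g x) hDn
  have h2 := h.eq x hx D hD
  have h3 := supergrad h.conc (h.grad x hx) hx hx₀
  have h4 : ⟪g x, x₀ - x⟫_ℝ ≤ r₂ * D₀ := by
    refine (real_inner_le_norm _ _).trans ?_
    refine mul_le_mul hr (hD₀ x₀ hx₀ x hx) (norm_nonneg _) ((norm_nonneg _).trans hr)
  have h5 : 0 ≤ r₂ * D₀ := mul_nonneg ((norm_nonneg _).trans hr)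
    ((norm_nonneg _).trans (hD₀ x hx x hx))
  have hm : 0 < min 1 (p - 1) := lt_min one_pos (by linarith)
  have htr : 0 ≤ -trL d D := by
    have := trL_nonneg (H := -D) (fun x => by simpa using hDn x)
    simpa using this
  rw [le_div_iff₀ (mul_pos hm hα₀)]
  have h6 : -trL d D * (min 1 (p - 1) * α₀) ≤
      -trL d D * (min 1 (p - 1) * (ε ^ 2 + ‖g x‖ ^ 2) ^ ((p - 2) / 2)) := by gcongr
  have h7 : -δ * v x ≤ Λm + r₂ * D₀ := by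
    have : δ * (v x₀ - v x) ≤ 1 * (r₂ * D₀) :=
      (mul_le_mul_of_nonneg_left (by linarith) hδ.le).trans
        (mul_le_mul_of_nonneg_right hδ1 h5)
    nlinarith
  nlinarith

end Pool.Agent.TH281.PC
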