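import Pool.Agent.TH281.PC.Strict1

/-!
# Strictness: gain from the tangential field
-/

open MeasureTheory Set Metric Filter Topology
open scoped InnerProductSpace

namespace Pool.Agent.TH281.PC

variable {d : ℕ}

/-- field inequality with piecewise constant lower bound -/
theorem field_const {q : ℝ} (hq : 1 < q) {P : Set (V d)} (hP : IsOpen P) {F : V d → V d}
    (hF : LocLip P F) {φ : V d → ℝ} {L : NNReal} (hφ : LipschitzWith L φ)
    (hc : HasCompactSupport φ) (hs : tsupport φ ⊆ P) {A : Set (V d)} (hA : MeasurableSet A)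
    {a b : ℝ}
    (hG : ∀ᵐ x, x ∈ P → φ x ≠ 0 →
      a + A.indicator (fun _ => b) x ≤
        -trL d (fderiv ℝ F x) - (q - 1) * ‖F x‖ ^ (q / (q - 1))) :
    a * (∫ x, |φ x| ^ q) + b * (∫ x in A, |φ x| ^ q) ≤ ∫ x, ‖fderiv ℝ φ x‖ ^ q := by
  have hq0 : 0 < q := by linarith
  have hint0 : Integrable (fun x => |φ x| ^ q) := by
    refine Continuous.integrable_of_hasCompactSupport
      (hφ.continuous.abs.rpow_const fun x => Or.inr hq0.le) ?_
    exact hc.comp_left (g := fun t : ℝ => |t| ^ q) (by simp [Real.zero_rpow hq0.ne'])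
  have e1 : (fun x => (a + A.indicator (fun _ => b) x) * |φ x| ^ q) =
      fun x => a * |φ x| ^ q + A.indicator (fun x => b * |φ x| ^ q) x := by
    funext x
    by_cases hx : x ∈ A
    · simp only [indicator_of_mem hx]; ring
    · simp only [indicator_of_notMem hx]; ring
  have hi1 : Integrable (fun x => a * |φ x| ^ q) := hint0.const_mul a
  have hi2 : Integrable (A.indicator (fun x => b * |φ x| ^ q)) :=
    (hint0.const_mul b).indicator hA
  have key := field_ineq hq hP hF hφ hc hs (G := fun x => a + A.indicator (fun _ => b) x)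
    (by rw [e1]; exact hi1.add hi2) hG
  rw [e1, integral_add hi1 hi2, integral_indicator hA, integral_const_mul,
    integral_const_mul] at key
  exact key

/-- a smooth cutoff in the variable `‖z‖ ^ 2` -/
theorem exists_cutoff {u₁ u₂ : ℝ} (h1 : 0 < u₁) (h2 : u₁ < u₂) :
    ∃ χ χ' : ℝ → ℝ, (∀ u, HasDerivAt χ (χ' u) u) ∧ Continuous χ' ∧ (∀ u, 0 ≤ χ u) ∧
      (∀ u, χ u ≤ 1) ∧ (∀ u, u₁ ≤ u → u ≤ u₂ → χ u = 1) ∧
      (∀ u, χ u ≠ 0 → u₁ / 2 < u ∧ u < u₂ + u₁ / 2) ∧ ContDiff ℝ 1 χ := by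
  let ρ : ContDiffBump ((u₁ + u₂) / 2 : ℝ) :=
    { rIn := (u₂ - u₁) / 2
      rOut := (u₂ - u₁) / 2 + u₁ / 2
      rIn_pos := by linarith
      rIn_lt_rOut := by linarith }
  have hsm : ContDiff ℝ 1 ρ := ρ.contDiff
  refine ⟨ρ, deriv ρ, fun u => (hsm.differentiable one_ne_zero u).hasDerivAt,
    hsm.continuous_deriv le_rfl, fun u => ρ.nonneg, fun u => ρ.le_one, fun u hu1 hu2 => ?_,
    fun u hu => ?_, hsm⟩
  · apply ρ.one_of_mem_closedBall
    rw [mem_closedBall, Real.dist_eq, abs_le]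
    show -((u₂ - u₁) / 2) ≤ _ ∧ _ ≤ (u₂ - u₁) / 2
    constructor <;> linarith
  · have h3 : u ∈ Function.support ρ := hu
    rw [ρ.support_eq, mem_ball, Real.dist_eq, abs_lt] at h3
    have h4 : ρ.rOut = (u₂ - u₁) / 2 + u₁ / 2 := rfl
    rw [h4] at h3
    constructor <;> linarith [h3.1, h3.2]

/-- quantitative convexity -/
theorem rpow_add_sq {r A₀ A₁ : ℝ} (hA₀ : 0 < A₀) :
    ∃ C : ℝ, 0 < C ∧ ∀ a e : ℝ, A₀ ≤ a → a ≤ A₁ → 0 ≤ e → e ≤ 1 →
      (a ^ 2 + e ^ 2) ^ (r / 2) ≤ a ^ r + C * e ^ 2 := by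
  have hcd : ContDiffOn ℝ 1 (fun u : ℝ => u ^ (r / 2)) (Icc (A₀ ^ 2) (A₁ ^ 2 + 1)) := by
    intro u hu
    have : 0 < u := lt_of_lt_of_le (by positivity) hu.1
    exact (contDiffAt_id.rpow_const_of_ne this.ne').contDiffWithinAt
  obtain ⟨L, hL⟩ := hcd.exists_lipschitzOnWith one_ne_zero (convex_Icc _ _) isCompact_Icc
  refine ⟨L + 1, by positivity, fun a e ha1 ha2 he0 he1 => ?_⟩
  have ha0 : 0 < a := hA₀.trans_le ha1
  have hm1 : a ^ 2 ∈ Icc (A₀ ^ 2) (A₁ ^ 2 + 1) := by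
    constructor
    · gcongr
    · have : a ^ 2 ≤ A₁ ^ 2 := by gcongr
      linarith
  have hm2 : a ^ 2 + e ^ 2 ∈ Icc (A₀ ^ 2) (A₁ ^ 2 + 1) := by
    constructor
    · have : A₀ ^ 2 ≤ a ^ 2 := by gcongr
      nlinarith [sq_nonneg e]
    · have : a ^ 2 ≤ A₁ ^ 2 := by gcongr
      have : e ^ 2 ≤ 1 := by nlinarith
      linarith
  have h1 := hL.dist_le_mul _ hm2 _ hm1
  rw [Real.dist_eq, Real.dist_eq, add_sub_cancel_left, abs_of_nonneg (sq_nonneg e)] at h1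
  have h2 := (abs_le.1 h1).2
  have h3 : (a ^ 2) ^ (r / 2) = a ^ r := by
    rw [← Real.rpow_natCast a 2, ← Real.rpow_mul ha0.le]
    congr 1
    push_cast
    ring
  rw [h3] at h2
  nlinarith [sq_nonneg e]

theorem LocLip.add {F : Type*} [NormedAddCommGroup F] {P : Set (V d)} {X Y : V d → F}
    (hX : LocLip P X) (hY : LocLip P Y) : LocLip P (fun x => X x + Y x) := by
  intro K hKP hK
  obtain ⟨L, hL⟩ := hX K hKP hK
  obtain ⟨L', hL'⟩ := hY K hKP hK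
  exact ⟨L + L', hL.add hL'⟩

theorem LocLip.prodMk_id {F : Type*} [NormedAddCommGroup F] {P : Set (V d)} {X : V d → F}
    (hX : LocLip P X) : LocLip P (fun x => (X x, x)) := by
  intro K hKP hK
  obtain ⟨L, hL⟩ := hX K hKP hK
  exact ⟨max L 1, hL.prodMk (LipschitzWith.id.lipschitzOnWith)⟩

theorem LocLip.tanF {P : Set (V d)} {g : V d → V d} (hg : LocLip P g) {k : ℝ → ℝ}
    (hk : ContDiff ℝ 1 k) (x₁ : V d) : LocLip P (T.tanF k x₁ g) := by
  have h1 : ContDiff ℝ 1 (fun z : V d × V d =>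
      -(k (‖z.1‖ ^ 2) • (‖z.1‖ ^ 2 • (z.2 - x₁) - ⟪z.1, z.2 - x₁⟫_ℝ • z.1))) := by
    have hn : ContDiff ℝ 1 (fun z : V d × V d => ‖z.1‖ ^ 2) := contDiff_fst.norm_sq ℝ
    have hs : ContDiff ℝ 1 (fun z : V d × V d => z.2 - x₁) := contDiff_snd.sub contDiff_const
    exact ((hk.comp hn).smul ((hn.smul hs).sub ((contDiff_fst.inner ℝ hs).smul contDiff_fst))).neg
  exact hg.prodMk_id.comp h1.locallyLipschitz

theorem inner_tanF (k : ℝ → ℝ) (x₁ : V d) (g : V d → V d) (y : V d) :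
    ⟪g y, T.tanF k x₁ g y⟫_ℝ = 0 := by
  simp only [T.tanF, inner_neg_right, inner_smul_right, inner_sub_right,
    real_inner_self_eq_norm_sq]
  ring

theorem norm_tanF_le (k : ℝ → ℝ) (x₁ : V d) (g : V d → V d) (y : V d) :
    ‖T.tanF k x₁ g y‖ ≤ |k (‖g y‖ ^ 2)| * (2 * ‖g y‖ ^ 2 * ‖y - x₁‖) := by
  rw [T.tanF, norm_neg, norm_smul, Real.norm_eq_abs]
  gcongr
  refine (norm_sub_le _ _).trans ?_
  rw [norm_smul, norm_smul, Real.norm_eq_abs, Real.norm_eq_abs, abs_of_nonneg (sq_nonneg _)]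
  have h1 := abs_real_inner_le_norm (g y) (y - x₁)
  nlinarith [mul_le_mul_of_nonneg_right h1 (norm_nonneg (g y))]

/-- at points where the cutoff vanishes the tangential field has zero divergence -/
theorem tanF_zero {χ χ' : ℝ → ℝ} (hχ : ∀ u, HasDerivAt χ (χ' u) u) {u₁ : ℝ} (hu₁ : 0 < u₁)
    (hsupp : ∀ u, χ u ≠ 0 → u₁ < u) {x₁ x : V d} {g : V d → V d} {D : V d →L[ℝ] V d}
    (hg : HasFDerivAt g D x) (hsym : ∀ a b, ⟪D a, b⟫_ℝ = ⟪a, D b⟫_ℝ)
    (hz : χ (‖g x‖ ^ 2) = 0) :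
    ∃ S : V d →L[ℝ] V d, HasFDerivAt (T.tanF (fun u => χ u ^ 2) x₁ g) S x ∧ trL d S = 0 := by
  rcases eq_or_ne (g x) 0 with h0 | h0
  · refine ⟨0, ?_, map_zero _⟩
    have hev : ∀ᶠ y in 𝓝 x, T.tanF (fun u => χ u ^ 2) x₁ g y = 0 := by
      have hc : Tendsto (fun y => ‖g y‖ ^ 2) (𝓝 x) (𝓝 (‖g x‖ ^ 2)) :=
        (hg.continuousAt.norm.pow 2)
      rw [h0, norm_zero] at hc
      have h1 : (0:ℝ) ^ 2 < u₁ := by simpa using hu₁
      filter_upwards [hc.eventually (gt_mem_nhds h1)] with y hy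
      have h2 : χ (‖g y‖ ^ 2) = 0 := by
        by_contra hcon
        exact absurd (hsupp _ hcon) (not_lt.2 hy.le)
      simp [T.tanF, h2]
    exact (hasFDerivAt_const (0 : V d) x).congr_of_eventuallyEq hev
  · have hk : HasDerivAt (fun u => χ u ^ 2) 0 (‖g x‖ ^ 2) := by
      have h1 := (hχ (‖g x‖ ^ 2)).pow 2
      refine h1.congr_deriv ?_
      rw [hz]
      simp
    obtain ⟨S, hS, htr⟩ := T.trL_tanF (x₁ := x₁) hg hsym hk h0
    refine ⟨S, hS, ?_⟩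
    simp only [hz] at htr
    simp at htr
    exact htr

end Pool.Agent.TH281.PC
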