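import Pool.Agent.TH281.PC.Strict2

/-!
# Strictness: the gain inequality
-/

open MeasureTheory Set Metric Filter Topology
open scoped InnerProductSpace

namespace Pool.Agent.TH281.PC

variable {d : ℕ}

/-- the annular region is measurable -/
theorem measurable_annulus {P : Set (V d)} (hP : IsOpen P) {g : V d → V d} (hg : ContinuousOn g P)
    (ra rb : ℝ) : MeasurableSet (P ∩ {x | ra ≤ ‖g x‖ ∧ ‖g x‖ ≤ rb}) := by
  have h1 : ContinuousOn (fun x => ‖g x‖) P := hg.norm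
  obtain ⟨u, hu, hu2⟩ := (continuousOn_iff_isClosed.1 h1) (Icc ra rb) isClosed_Icc
  have e : P ∩ {x | ra ≤ ‖g x‖ ∧ ‖g x‖ ≤ rb} = u ∩ P := by
    rw [← hu2, inter_comm]
    rfl
  rw [e]
  exact hu.measurableSet.inter hP.measurableSet

theorem LocLip.continuousOn {F : Type*} [NormedAddCommGroup F] {P : Set (V d)} (hP : IsOpen P)
    {X : V d → F} (hX : LocLip P X) : ContinuousOn X P := by
  intro x hx
  obtain ⟨r, hr, hsub⟩ := Metric.nhds_basis_closedBall.mem_iff.1 (hP.mem_nhds hx)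
  obtain ⟨L, hL⟩ := hX _ hsub (isCompact_closedBall x r)
  exact (hL.continuousOn.continuousAt (closedBall_mem_nhds x hr)).continuousWithinAt

theorem gain {p q Λ M : ℝ} (hq : 1 < q) (hp : 1 < p) (hd : 2 ≤ d) (hΛ : 0 < Λ) (hM : 0 < M)
    {f : ℝ → ℝ} (hf : Phase p q Λ M f) {ra rb D₀ Λm : ℝ} (hra : 0 < ra) (hrb : ra < rb)
    (hD₀ : 0 ≤ D₀) (hΛm : 0 ≤ Λm) :
    ∃ c₁ : ℝ, 0 < c₁ ∧ ∀ ε δ ρ : ℝ, 0 < ε → ε ≤ 1 → 0 < δ → δ ≤ 1 → 0 ≤ ρ → ρ ≤ 1 / 2 →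
      ∀ P : Set (V d), IsOpen P → (∀ x ∈ P, ∀ y ∈ P, ‖x - y‖ ≤ D₀) →
      ∀ (v : V d → ℝ) (g : V d → V d), Soln p ε δ P v g →
      ∀ x₀ ∈ P, (∀ x ∈ P, v x ≤ v x₀) → -δ * v x₀ ≤ Λm →
      (∀ z : V d, (1 - ρ) * (Λ + (p - 1) * ‖opS p ε z‖ ^ (p / (p - 1))) ≤
        opb p ε z - δ * v x₀) →
      ∀ (φ : V d → ℝ) (L : NNReal), LipschitzWith L φ → HasCompactSupport φ → tsupport φ ⊆ P →
      (1 - ρ) ^ q * M * (∫ x, |φ x| ^ q) +
        c₁ * (∫ x in P ∩ {x | ra ≤ ‖g x‖ ∧ ‖g x‖ ≤ rb}, |φ x| ^ q) ≤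
        ∫ x, ‖fderiv ℝ φ x‖ ^ q := by
  have hq1 : 0 < q - 1 := by linarith
  -- radii
  obtain ⟨r₁, hr₁def⟩ : ∃ r₁, r₁ = ra / 2 := ⟨_, rfl⟩
  obtain ⟨r₂, hr₂def⟩ : ∃ r₂, r₂ = 2 * rb := ⟨_, rfl⟩
  have hr₁ : 0 < r₁ := by rw [hr₁def]; linarith
  have hr₂ : 0 < r₂ := by rw [hr₂def]; linarith
  have hr₁₂ : r₁ < r₂ := by rw [hr₁def, hr₂def]; linarith
  -- constants
  obtain ⟨α₀, γ₀, B₀, a₀, a₁, hα₀, hγ₀, ha₀, ha₁, hB₀, hann⟩ :=
    annulus_const (d := d) hq hp hΛ hf hr₁ hr₁₂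
  obtain ⟨χ, χ', hχ, hχ'c, hχ0, hχ1, hχeq, hχsupp, hχsm⟩ :=
    exists_cutoff (u₁ := ra ^ 2) (u₂ := rb ^ 2) (by positivity) (by gcongr)
  have hχc : Continuous χ := hχsm.continuous
  obtain ⟨Cχ, hCχ⟩ := (isCompact_Icc (a := (0:ℝ)) (b := r₂ ^ 2)).exists_bound_of_continuousOn
    (f := fun u => 4 * χ' u * u + χ u) (by fun_prop)
  have hm : 0 < min 1 (p - 1) := lt_min one_pos (by linarith)
  obtain ⟨CB, hCBdef⟩ : ∃ CB, CB = (B₀ + Λm + r₂ * D₀) / (min 1 (p - 1) * α₀) := ⟨_, rfl⟩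
  have hCB : 0 ≤ CB := by rw [hCBdef]; positivity
  obtain ⟨CT, hCTdef⟩ : ∃ CT, CT = Cχ ^ 2 * D₀ ^ 2 * (r₂ ^ 2 * CB) / (2 * r₁ ^ 2) + r₂ * D₀ :=
    ⟨_, rfl⟩
  have hCT : 0 ≤ CT := by rw [hCTdef]; positivity
  have hhalf : 0 < (1 / 2 : ℝ) ^ (q - 1) := Real.rpow_pos_of_pos (by norm_num) _
  obtain ⟨C₇, hC₇, hC₇'⟩ := rpow_add_sq (r := q / (q - 1)) (A₀ := (1 / 2 : ℝ) ^ (q - 1) * a₀)
    (A₁ := a₁) (by positivity)
  obtain ⟨E₀, hE₀def⟩ : ∃ E₀, E₀ = 2 * r₂ ^ 2 * D₀ := ⟨_, rfl⟩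
  have hE₀ : 0 ≤ E₀ := by rw [hE₀def]; positivity
  obtain ⟨τ, hτdef⟩ : ∃ τ, τ = min (1 / (E₀ + 1)) (min ((1 / 2 : ℝ) ^ (q - 1) * γ₀ / (CT + 1))
    (r₁ ^ 2 / (4 * ((q - 1) * C₇ * E₀ ^ 2 + 1)))) := ⟨_, rfl⟩
  have hτ : 0 < τ := by
    rw [hτdef]
    refine lt_min (by positivity) (lt_min (by positivity) (by positivity))
  have hτ1 : τ * E₀ ≤ 1 := by
    have h1 : τ ≤ 1 / (E₀ + 1) := by rw [hτdef]; exact min_le_left _ _
    have h2 : τ * (E₀ + 1) ≤ 1 := by rwa [le_div_iff₀ (by positivity)] at h1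
    have h3 : τ * (E₀ + 1) = τ * E₀ + τ := by ring
    linarith
  have hτ2 : τ * CT ≤ (1 / 2 : ℝ) ^ (q - 1) * γ₀ := by
    have h1 : τ ≤ (1 / 2 : ℝ) ^ (q - 1) * γ₀ / (CT + 1) := by
      rw [hτdef]; exact (min_le_right _ _).trans (min_le_left _ _)
    have h2 : τ * (CT + 1) ≤ (1 / 2 : ℝ) ^ (q - 1) * γ₀ := by
      rwa [le_div_iff₀ (by positivity)] at h1
    have h3 : τ * (CT + 1) = τ * CT + τ := by ring
    linarith
  have hτ3 : (q - 1) * C₇ * E₀ ^ 2 * τ ≤ r₁ ^ 2 / 4 := by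
    have h1 : τ ≤ r₁ ^ 2 / (4 * ((q - 1) * C₇ * E₀ ^ 2 + 1)) := by
      rw [hτdef]; exact (min_le_right _ _).trans (min_le_right _ _)
    have h2 : τ * (4 * ((q - 1) * C₇ * E₀ ^ 2 + 1)) ≤ r₁ ^ 2 := by
      rwa [le_div_iff₀ (by positivity)] at h1
    have h3 : τ * (4 * ((q - 1) * C₇ * E₀ ^ 2 + 1)) =
      4 * ((q - 1) * C₇ * E₀ ^ 2 * τ) + 4 * τ := by ring
    linarith
  refine ⟨τ * r₁ ^ 2 / 4, by positivity, ?_⟩
  intro ε δ ρ hε hε1 hδ hδ1 hρ0 hρ1 P hP hdiam v g h x₀ hx₀ hmax hΛm' hρ φ L hφ hc hs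
  have hr : 0 < 1 - ρ := by linarith
  obtain ⟨c, hcdef⟩ : ∃ c, c = (1 - ρ) ^ (q - 1) := ⟨_, rfl⟩
  have hc0 : 0 < c := by rw [hcdef]; exact Real.rpow_pos_of_pos hr _
  have hc1 : c ≤ 1 := by rw [hcdef]; exact Real.rpow_le_one hr.le (by linarith) hq1.le
  have hc2 : (1 / 2 : ℝ) ^ (q - 1) ≤ c := by
    rw [hcdef]
    exact Real.rpow_le_rpow (by norm_num) (by linarith) hq1.le
  have hcq : (1 - ρ) ^ q = c * (1 - ρ) := by
    rw [hcdef, ← Real.rpow_add_one hr.ne']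
    congr 1
    ring
  have hcpow : ∀ a : ℝ, 0 ≤ a → (c * a) ^ (q / (q - 1)) = (1 - ρ) ^ q * a ^ (q / (q - 1)) := by
    intro a ha
    rw [Real.mul_rpow hc0.le ha, hcdef, ← Real.rpow_mul hr.le]
    congr 2
    field_simp
  -- the field
  have hlip : LocLip P (fun y => c • radF p ε f (g y) +
      τ • T.tanF (fun u => χ u ^ 2) x₀ g y) :=
    ((LocLip.radF hp hε hq hΛ hf h.lip).const_smul c).add
      ((h.lip.tanF (hχsm.pow 2) x₀).const_smul τ)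
  refine field_const hq hP hlip hφ hc hs
    (measurable_annulus hP (h.lip.continuousOn hP) ra rb) ?_
  filter_upwards [h.lip.ae_differentiable hP] with x hxd hx _
  have hD := (hxd hx).hasFDerivAt
  obtain ⟨D, hDdef⟩ : ∃ D, D = fderiv ℝ g x := ⟨_, rfl⟩
  rw [← hDdef] at hD
  have hDn := hess_nonpos hP h.conc h.grad hx hD
  have hsym := hess_symm hP h.grad hx hD
  have htau := tau_nonneg (z := g x) hDn
  have h1 := (flux_eq hp hε hf h hx hD).1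
  have h2 := flux_ge hq hp hε hδ hΛ hM hf h hmax hρ hx hD
  obtain ⟨R, hRdef⟩ : ∃ R, R = (radD p ε f (phD p q Λ M f) (g x)).comp D := ⟨_, rfl⟩
  rw [← hRdef] at h1 h2
  have hnR : ‖radF p ε f (g x)‖ = f ‖opS p ε (g x)‖ := norm_radF hf.zero hf.pos (g x)
  obtain ⟨s, hsdef⟩ : ∃ s, s = f ‖opS p ε (g x)‖ := ⟨_, rfl⟩
  have hs0 : 0 ≤ s := by rw [hsdef]; exact hf.nonneg (norm_nonneg _)
  rw [hnR, ← hsdef] at h2
  have hgam := gam_nonneg (ε := ε) hf (g x)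
  -- common part
  have hmain : (1 - ρ) ^ q * M + (q - 1) * (c * s) ^ (q / (q - 1)) +
      c * (gam p q ε Λ M f (g x) * tau (g x) D) ≤ c * -trL d R := by
    rw [hcpow s hs0, hcq]
    have := mul_le_mul_of_nonneg_left h2 hc0.le
    linarith
  by_cases hχz : χ (‖g x‖ ^ 2) = 0
  · -- outside the support of the cutoff
    obtain ⟨S, hS, htr⟩ := tanF_zero hχ (u₁ := ra ^ 2 / 2) (by positivity)
      (fun u hu => (hχsupp u hu).1) (x₁ := x₀) hD hsym hχz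
    have hF := (h1.const_smul c).add (hS.const_smul τ)
    have hFd : fderiv ℝ (fun y => c • radF p ε f (g y) +
      τ • T.tanF (fun u => χ u ^ 2) x₀ g y) x = c • R + τ • S := hF.fderiv
    have hind : (P ∩ {x | ra ≤ ‖g x‖ ∧ ‖g x‖ ≤ rb}).indicator
        (fun _ => τ * r₁ ^ 2 / 4) x = 0 := by
      apply indicator_of_notMem
      rintro ⟨-, hx1, hx2⟩
      have := hχeq (‖g x‖ ^ 2) (by gcongr) (by gcongr)
      rw [hχz] at this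
      exact zero_ne_one this
    have htz : T.tanF (fun u => χ u ^ 2) x₀ g x = 0 := by simp [T.tanF, hχz]
    rw [hind, hFd, map_add, map_smul, map_smul, htr, htz, smul_zero, add_zero, smul_zero,
      add_zero, add_zero, norm_smul, Real.norm_eq_abs, abs_of_pos hc0, hnR, ← hsdef,
      smul_eq_mul]
    have : 0 ≤ c * (gam p q ε Λ M f (g x) * tau (g x) D) := by positivity
    linarith
  · -- inside the support
    have hu := hχsupp _ hχz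
    have hz1 : r₁ ≤ ‖g x‖ := by
      by_contra hcon
      rw [not_le] at hcon
      have h3 : ‖g x‖ ^ 2 < r₁ ^ 2 := by gcongr
      rw [hr₁def] at h3
      have h4 : (ra / 2) ^ 2 = ra ^ 2 / 4 := by ring
      have h5 := sq_nonneg ra
      linarith [hu.1]
    have hz2 : ‖g x‖ ≤ r₂ := by
      by_contra hcon
      rw [not_le] at hcon
      have h3 : r₂ ^ 2 < ‖g x‖ ^ 2 := by gcongr
      rw [hr₂def] at h3
      have h4 : (2 * rb) ^ 2 = 4 * rb ^ 2 := by ring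
      have h5 : ra ^ 2 ≤ rb ^ 2 := by gcongr
      have h6 := sq_nonneg rb
      linarith [hu.2]
    obtain ⟨hα, hγ, hB, hfa, hfb⟩ := hann ε hε hε1 (g x) hz1 hz2
    rw [← hsdef] at hfa hfb
    have htrace := trace_bound hp hε hδ hδ1 hP h hx₀ hdiam hΛm' hx hD hz2 hα₀ hα hB
    rw [← hCBdef] at htrace
    have hN : -⟪D (g x), g x⟫_ℝ ≤ r₂ ^ 2 * CB := by
      have h3 := norm_apply_le_trL hsym hDn (g x)
      have h4 : -⟪D (g x), g x⟫_ℝ ≤ ‖D (g x)‖ * ‖g x‖ :=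
        (neg_le_abs _).trans (abs_real_inner_le_norm _ _)
      calc -⟪D (g x), g x⟫_ℝ ≤ ‖D (g x)‖ * ‖g x‖ := h4
        _ ≤ (-trL d D * ‖g x‖) * ‖g x‖ := by gcongr
        _ ≤ (CB * r₂) * r₂ := by gcongr
        _ = r₂ ^ 2 * CB := by ring
    have hCx : |4 * χ' (‖g x‖ ^ 2) * ‖g x‖ ^ 2 + χ (‖g x‖ ^ 2)| ≤ Cχ := by
      have := hCχ (‖g x‖ ^ 2) ⟨by positivity, by gcongr⟩
      rwa [Real.norm_eq_abs] at this
    obtain ⟨S, hS, htr⟩ := T.tan_lower hd (χ := χ) (x₁ := x₀) hD hsym hDn (hχ _) hr₁ hz1 hz2 hCx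
      (by rw [abs_of_nonneg (hχ0 _)]; exact hχ1 _) (hdiam x hx x₀ hx₀) hN
    rw [← hCTdef] at htr
    have htau' : T.tau (g x) D = tau (g x) D := rfl
    rw [htau'] at htr
    have hF := (h1.const_smul c).add (hS.const_smul τ)
    have hFd : fderiv ℝ (fun y => c • radF p ε f (g y) +
      τ • T.tanF (fun u => χ u ^ 2) x₀ g y) x = c • R + τ • S := hF.fderiv
    -- the norm of the field
    obtain ⟨k, hkdef⟩ : ∃ k, k = χ (‖g x‖ ^ 2) := ⟨_, rfl⟩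
    have hk0 : 0 ≤ k := by rw [hkdef]; exact hχ0 _
    have hk1 : k ≤ 1 := by rw [hkdef]; exact hχ1 _
    obtain ⟨e, hedef⟩ : ∃ e, e = ‖τ • T.tanF (fun u => χ u ^ 2) x₀ g x‖ := ⟨_, rfl⟩
    have he0 : 0 ≤ e := by rw [hedef]; exact norm_nonneg _
    have he1 : e ≤ τ * (k ^ 2 * E₀) := by
      rw [hedef, norm_smul, Real.norm_eq_abs, abs_of_pos hτ]
      have h3 := norm_tanF_le (fun u => χ u ^ 2) x₀ g x
      simp only [← hkdef] at h3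
      rw [abs_of_nonneg (sq_nonneg k)] at h3
      have h4 : 2 * ‖g x‖ ^ 2 * ‖x - x₀‖ ≤ E₀ := by
        rw [hE₀def]
        have := hdiam x hx x₀ hx₀
        gcongr
      have h5 : k ^ 2 * (2 * ‖g x‖ ^ 2 * ‖x - x₀‖) ≤ k ^ 2 * E₀ := by gcongr
      exact mul_le_mul_of_nonneg_left (h3.trans h5) hτ.le
    have hk2 : k ^ 2 ≤ 1 := pow_le_one₀ hk0 hk1
    have he2 : e ≤ 1 := by
      refine he1.trans ?_
      have h3 : τ * (k ^ 2 * E₀) ≤ τ * (1 * E₀) := by gcongr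
      rw [one_mul] at h3
      linarith
    have he3 : e ^ 2 ≤ τ ^ 2 * k ^ 2 * E₀ ^ 2 := by
      have h3 : e ^ 2 ≤ (τ * (k ^ 2 * E₀)) ^ 2 := by gcongr
      have h4 : (τ * (k ^ 2 * E₀)) ^ 2 = τ ^ 2 * E₀ ^ 2 * k ^ 2 * k ^ 2 := by ring
      have h5 : τ ^ 2 * E₀ ^ 2 * k ^ 2 * k ^ 2 ≤ τ ^ 2 * E₀ ^ 2 * k ^ 2 * 1 := by gcongr
      have h6 : τ ^ 2 * E₀ ^ 2 * k ^ 2 * 1 = τ ^ 2 * k ^ 2 * E₀ ^ 2 := by ring
      linarith
    have hnorm : ‖c • radF p ε f (g x) + τ • T.tanF (fun u => χ u ^ 2) x₀ g x‖ ^ (q / (q - 1)) ≤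
        (c * s) ^ (q / (q - 1)) + C₇ * e ^ 2 := by
      have horth : ⟪c • radF p ε f (g x), τ • T.tanF (fun u => χ u ^ 2) x₀ g x⟫_ℝ = 0 := by
        rw [radF, smul_smul, inner_smul_left, inner_smul_right, inner_tanF]
        simp
      have hsq : ‖c • radF p ε f (g x) + τ • T.tanF (fun u => χ u ^ 2) x₀ g x‖ ^ 2 =
          (c * s) ^ 2 + e ^ 2 := by
        rw [norm_add_sq_real, horth, norm_smul, Real.norm_eq_abs, abs_of_pos hc0, hnR, ← hsdef,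
          ← hedef]
        ring
      have h3 := hC₇' (c * s) e (by gcongr) ((mul_le_of_le_one_left hs0 hc1).trans hfb) he0 he2
      rw [← hsq] at h3
      refine le_trans (le_of_eq ?_) h3
      rw [← Real.rpow_natCast _ 2, ← Real.rpow_mul (norm_nonneg _)]
      congr 1
      push_cast
      ring
    have hind : (P ∩ {x | ra ≤ ‖g x‖ ∧ ‖g x‖ ≤ rb}).indicator
        (fun _ => τ * r₁ ^ 2 / 4) x ≤ τ * r₁ ^ 2 / 4 * k ^ 2 := by
      by_cases hxA : x ∈ P ∩ {x | ra ≤ ‖g x‖ ∧ ‖g x‖ ≤ rb}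
      · rw [indicator_of_mem hxA]
        have := hχeq (‖g x‖ ^ 2) (by gcongr; exact hxA.2.1) (by gcongr; exact hxA.2.2)
        rw [← hkdef] at this
        rw [this]
        simp
      · rw [indicator_of_notMem hxA]
        positivity
    rw [hFd, map_add, map_smul, map_smul, smul_eq_mul, smul_eq_mul]
    rw [← hkdef] at htr
    -- assemble
    have g1 : τ * ((1 / 2) * k ^ 2 * ‖g x‖ ^ 2 - CT * tau (g x) D) ≤ τ * -trL d S :=
      mul_le_mul_of_nonneg_left htr hτ.le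
    have g2 : τ * CT * tau (g x) D ≤ c * (gam p q ε Λ M f (g x) * tau (g x) D) := by
      have : τ * CT ≤ c * gam p q ε Λ M f (g x) :=
        hτ2.trans (mul_le_mul hc2 hγ hγ₀.le hc0.le)
      calc τ * CT * tau (g x) D ≤ (c * gam p q ε Λ M f (g x)) * tau (g x) D := by gcongr
        _ = _ := by ring
    have g3 : r₁ ^ 2 ≤ ‖g x‖ ^ 2 := by gcongr
    have g4 : (q - 1) * (C₇ * e ^ 2) ≤ τ * k ^ 2 * (r₁ ^ 2 / 4) := by
      calc (q - 1) * (C₇ * e ^ 2) ≤ (q - 1) * (C₇ * (τ ^ 2 * k ^ 2 * E₀ ^ 2)) := by gcongr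
        _ = (τ * k ^ 2) * ((q - 1) * C₇ * E₀ ^ 2 * τ) := by ring
        _ ≤ (τ * k ^ 2) * (r₁ ^ 2 / 4) := by gcongr
    have g5 : τ * (1 / 2) * k ^ 2 * r₁ ^ 2 ≤ τ * (1 / 2) * k ^ 2 * ‖g x‖ ^ 2 := by gcongr
    have g6 := mul_le_mul_of_nonneg_left hnorm hq1.le
    linarith

end Pool.Agent.TH281.PC
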