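import Pool.Agent.TH281.PC.Strict3

/-!
# Strictness: large and small gradients
-/

open MeasureTheory Set Metric Filter Topology
open scoped InnerProductSpace

namespace Pool.Agent.TH281.PC

variable {d : ℕ}

/-- the region where the gradient is large gives large values of the field -/
theorem exists_large {p q Λ M : ℝ} (hq : 1 < q) (hp : 1 < p) {f : ℝ → ℝ}
    (hf : Phase p q Λ M f) (K : ℝ) :
    ∃ rb : ℝ, 1 ≤ rb ∧ ∀ ε : ℝ, 0 < ε → ε ≤ 1 → ∀ z : V d, rb ≤ ‖z‖ →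
      K ≤ f ‖opS p ε z‖ ^ (q / (q - 1)) := by
  have hq' : 0 < q / (q - 1) := div_pos (by linarith) (by linarith)
  have h1 : Tendsto (fun s => f s ^ (q / (q - 1))) atTop atTop :=
    (tendsto_rpow_atTop hq').comp hf.top
  obtain ⟨s₀, hs₀⟩ := (h1.eventually (eventually_ge_atTop K)).exists_forall_of_atTop
  -- lower bound for the norm of the flux
  obtain ⟨c, hc⟩ : ∃ c : ℝ, c = min 1 ((2:ℝ) ^ ((p - 2) / 2)) := ⟨_, rfl⟩
  have hc0 : 0 < c := by rw [hc]; exact lt_min one_pos (Real.rpow_pos_of_pos two_pos _)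
  have h2 : Tendsto (fun t : ℝ => c * t ^ (p - 1)) atTop atTop :=
    (tendsto_rpow_atTop (by linarith)).const_mul_atTop hc0
  obtain ⟨t₀, ht₀⟩ := (h2.eventually (eventually_ge_atTop s₀)).exists_forall_of_atTop
  refine ⟨max 1 t₀, le_max_left _ _, fun ε hε hε1 z hz => ?_⟩
  apply hs₀
  refine (ht₀ ‖z‖ ((le_max_right _ _).trans hz)).trans ?_
  rw [norm_opS]
  have ht1 : 1 ≤ ‖z‖ := (le_max_left _ _).trans hz
  obtain ⟨t, ht⟩ : ∃ t, t = ‖z‖ := ⟨_, rfl⟩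
  rw [← ht] at ht1 ⊢
  have ht0 : 0 < t := by linarith
  have e1 : t ^ (p - 1) = t * t ^ (p - 2) := by
    rw [← Real.rpow_one_add' ht0.le (by linarith)]
    congr 1
    ring
  have e2 : t ^ (p - 2) = (t ^ 2) ^ ((p - 2) / 2) := by
    rw [← Real.rpow_natCast t 2, ← Real.rpow_mul ht0.le]
    congr 1
    push_cast
    ring
  have key : c * t ^ (p - 2) ≤ (ε ^ 2 + t ^ 2) ^ ((p - 2) / 2) := by
    rcases le_total 2 p with h | h
    · have h3 : (t ^ 2) ^ ((p - 2) / 2) ≤ (ε ^ 2 + t ^ 2) ^ ((p - 2) / 2) :=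
        Real.rpow_le_rpow (by positivity) (by nlinarith) (by linarith)
      rw [e2]
      have h4 : c ≤ 1 := by rw [hc]; exact min_le_left _ _
      have h5 : 0 ≤ (t ^ 2) ^ ((p - 2) / 2) := by positivity
      nlinarith
    · have h3 : (2 * t ^ 2) ^ ((p - 2) / 2) ≤ (ε ^ 2 + t ^ 2) ^ ((p - 2) / 2) := by
        refine Real.rpow_le_rpow_of_nonpos (by positivity) ?_ (by linarith)
        have : ε ^ 2 ≤ 1 := by nlinarith
        nlinarith
      rw [Real.mul_rpow two_pos.le (by positivity), ← e2] at h3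
      have h4 : c ≤ (2:ℝ) ^ ((p - 2) / 2) := by rw [hc]; exact min_le_right _ _
      refine le_trans ?_ h3
      gcongr
  calc c * t ^ (p - 1) = t * (c * t ^ (p - 2)) := by rw [e1]; ring
    _ ≤ t * (ε ^ 2 + t ^ 2) ^ ((p - 2) / 2) := by gcongr

/-- the region where the gradient is small gives small values of the field -/
theorem exists_small {p q Λ M : ℝ} (hp : 1 < p) {f : ℝ → ℝ}
    (hf : Phase p q Λ M f) {θ : ℝ} (hθ : 0 < θ) :
    ∃ r : ℝ, 0 < r ∧ r ≤ 1 ∧ ∀ ε : ℝ, 0 < ε → ε ≤ 1 → ∀ z : V d, ‖z‖ ≤ r →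
      f ‖opS p ε z‖ ≤ θ := by
  have hcont : ContinuousAt f 0 := (hf.der 0 le_rfl).continuousAt
  have h1 : ∀ᶠ s in 𝓝 (0:ℝ), f s < θ := by
    have : Tendsto f (𝓝 0) (𝓝 (f 0)) := hcont
    rw [hf.zero] at this
    exact this.eventually (gt_mem_nhds hθ)
  obtain ⟨s₀, hs₀, hball⟩ := Metric.eventually_nhds_iff_ball.1 h1
  -- upper bound for the norm of the flux
  have h2 : Tendsto (fun t : ℝ => t * (2:ℝ) ^ ((p - 2) / 2) + t ^ (p - 1)) (𝓝 0)
      (𝓝 (0 * (2:ℝ) ^ ((p - 2) / 2) + 0 ^ (p - 1))) := by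
    have h3 : ContinuousAt (fun t : ℝ => t * (2:ℝ) ^ ((p - 2) / 2) + t ^ (p - 1)) 0 :=
      (continuousAt_id.mul continuousAt_const).add
        (continuousAt_id.rpow_const (Or.inr (by linarith)))
    exact h3
  rw [zero_mul, Real.zero_rpow (by linarith), add_zero] at h2
  obtain ⟨r₀, hr₀, hr⟩ := Metric.eventually_nhds_iff_ball.1 (h2.eventually (gt_mem_nhds hs₀))
  refine ⟨min 1 (r₀ / 2), lt_min one_pos (by linarith), min_le_left _ _,
    fun ε hε hε1 z hz => ?_⟩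
  refine (hball _ ?_).le
  rw [mem_ball, dist_zero_right, norm_norm, norm_opS]
  obtain ⟨t, ht⟩ : ∃ t, t = ‖z‖ := ⟨_, rfl⟩
  have ht0 : 0 ≤ t := by rw [ht]; exact norm_nonneg _
  rw [← ht] at hz ⊢
  have ht1 : t ≤ 1 := hz.trans (min_le_left _ _)
  have ht2 : t < r₀ := (hz.trans (min_le_right _ _)).trans_lt (by linarith)
  have h3 := hr t (by rw [mem_ball, dist_zero_right, Real.norm_eq_abs, abs_of_nonneg ht0]; exact ht2)
  refine lt_of_le_of_lt ?_ h3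
  rcases ht0.eq_or_lt with h0 | h0
  · rw [← h0, zero_mul, zero_mul, Real.zero_rpow (by linarith), add_zero]
  rcases le_total 2 p with h | h
  · have h4 : (ε ^ 2 + t ^ 2) ^ ((p - 2) / 2) ≤ (2:ℝ) ^ ((p - 2) / 2) :=
      Real.rpow_le_rpow (by positivity) (by nlinarith) (by linarith)
    have h5 : 0 ≤ t ^ (p - 1) := by positivity
    have h6 : t * (ε ^ 2 + t ^ 2) ^ ((p - 2) / 2) ≤ t * (2:ℝ) ^ ((p - 2) / 2) := by gcongr
    linarith
  · have e2 : t ^ (p - 2) = (t ^ 2) ^ ((p - 2) / 2) := by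
      rw [← Real.rpow_natCast t 2, ← Real.rpow_mul ht0]
      congr 1
      push_cast
      ring
    have e1 : t ^ (p - 1) = t * t ^ (p - 2) := by
      rw [← Real.rpow_one_add' ht0 (by linarith)]
      congr 1
      ring
    have h4 : (ε ^ 2 + t ^ 2) ^ ((p - 2) / 2) ≤ (t ^ 2) ^ ((p - 2) / 2) :=
      Real.rpow_le_rpow_of_nonpos (by positivity) (by nlinarith) (by linarith)
    rw [e1, e2]
    have h5 : 0 ≤ t * (2:ℝ) ^ ((p - 2) / 2) := by positivity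
    have h6 : t * (ε ^ 2 + t ^ 2) ^ ((p - 2) / 2) ≤ t * (t ^ 2) ^ ((p - 2) / 2) := by gcongr
    linarith

/-- pointwise flux inequality for multiples of the field -/
theorem flux_smul {p q ε δ Λ M : ℝ} {f : ℝ → ℝ} {P : Set (V d)} {v : V d → ℝ} {g : V d → V d}
    (hq : 1 < q) (hp : 1 < p) (hε : 0 < ε) (hδ : 0 < δ) (hΛ : 0 < Λ) (hM : 0 < M)
    (hf : Phase p q Λ M f) (hP : IsOpen P) (h : Soln p ε δ P v g) {x₀ : V d}
    (hmax : ∀ x ∈ P, v x ≤ v x₀) {ρ : ℝ}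
    (hρ : ∀ z : V d, (1 - ρ) * (Λ + (p - 1) * ‖opS p ε z‖ ^ (p / (p - 1))) ≤
      opb p ε z - δ * v x₀) {t : ℝ} (ht : 0 < t) {x : V d} (hx : x ∈ P)
    (hxd : DifferentiableAt ℝ g x) :
    t * ((1 - ρ) * (M + (q - 1) * f ‖opS p ε (g x)‖ ^ (q / (q - 1)))) -
      (q - 1) * (t ^ (q / (q - 1)) * f ‖opS p ε (g x)‖ ^ (q / (q - 1))) ≤
      -trL d (fderiv ℝ (fun y => t • radF p ε f (g y)) x) -
        (q - 1) * ‖t • radF p ε f (g x)‖ ^ (q / (q - 1)) := by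
  have hD := hxd.hasFDerivAt
  have h1 := (flux_eq hp hε hf h hx hD).1
  have h2 := flux_ge hq hp hε hδ hΛ hM hf h hmax hρ hx hD
  have h3 : fderiv ℝ (fun y => t • radF p ε f (g y)) x =
      t • ((radD p ε f (phD p q Λ M f) (g x)).comp (fderiv ℝ g x)) := (h1.const_smul t).fderiv
  have h4 : 0 ≤ gam p q ε Λ M f (g x) * tau (g x) (fderiv ℝ g x) :=
    mul_nonneg (gam_nonneg hf _) (tau_nonneg (hess_nonpos hP h.conc h.grad hx hD))
  have hn : ‖radF p ε f (g x)‖ = f ‖opS p ε (g x)‖ := norm_radF hf.zero hf.pos (g x)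
  rw [h3, map_smul, smul_eq_mul, norm_smul, Real.norm_eq_abs, abs_of_pos ht,
    Real.mul_rpow ht.le (norm_nonneg _), hn]
  rw [hn] at h2
  have h5 := mul_le_mul_of_nonneg_left ((le_add_of_nonneg_right h4).trans h2) ht.le
  linarith

/-- energy controls the mass where the gradient is large -/
theorem large_bound {p q ε δ Λ M : ℝ} {f : ℝ → ℝ} {P : Set (V d)} {v : V d → ℝ} {g : V d → V d}
    (hq : 1 < q) (hp : 1 < p) (hε : 0 < ε) (hδ : 0 < δ) (hΛ : 0 < Λ) (hM : 0 < M)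
    (hf : Phase p q Λ M f) (hP : IsOpen P) (h : Soln p ε δ P v g) {x₀ : V d}
    (hmax : ∀ x ∈ P, v x ≤ v x₀) {ρ : ℝ} (hρ1 : ρ ≤ 1 / 2)
    (hρ : ∀ z : V d, (1 - ρ) * (Λ + (p - 1) * ‖opS p ε z‖ ^ (p / (p - 1))) ≤
      opb p ε z - δ * v x₀) {K rb rc : ℝ}
    (hrb : ∀ z : V d, rb ≤ ‖z‖ → K ≤ f ‖opS p ε z‖ ^ (q / (q - 1)))
    {φ : V d → ℝ} {L : NNReal} (hφ : LipschitzWith L φ)
    (hc : HasCompactSupport φ) (hs : tsupport φ ⊆ P) :
    (1 / 4) ^ (q - 1) * (q - 1) / 4 * K *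
      (∫ x in P ∩ {x | rb ≤ ‖g x‖ ∧ ‖g x‖ ≤ rc}, |φ x| ^ q) ≤ ∫ x, ‖fderiv ℝ φ x‖ ^ q := by
  have hq1 : 0 < q - 1 := by linarith
  obtain ⟨t, ht⟩ : ∃ t : ℝ, t = (1 / 4) ^ (q - 1) := ⟨_, rfl⟩
  have ht0 : 0 < t := by rw [ht]; exact Real.rpow_pos_of_pos (by norm_num) _
  have ht1 : t ^ (q / (q - 1)) = t / 4 := by
    rw [ht, ← Real.rpow_mul (by norm_num)]
    have e : (q - 1) * (q / (q - 1)) = (q - 1) + 1 := by field_simp; ring
    rw [e, Real.rpow_add_one (by norm_num)]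
    ring
  rw [← ht]
  have hlip : LocLip P (fun y => t • radF p ε f (g y)) :=
    (LocLip.radF hp hε hq hΛ hf h.lip).const_smul t
  have key := field_const hq hP hlip hφ hc hs
    (measurable_annulus hP (h.lip.continuousOn hP) rb rc) (a := 0) (b := t * (q - 1) / 4 * K) ?_
  · rwa [zero_mul, zero_add] at key
  filter_upwards [h.lip.ae_differentiable hP] with x hxd hx _
  refine le_trans ?_ (flux_smul hq hp hε hδ hΛ hM hf hP h hmax hρ ht0 hx (hxd hx))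
  obtain ⟨F, hF⟩ : ∃ F, F = f ‖opS p ε (g x)‖ ^ (q / (q - 1)) := ⟨_, rfl⟩
  have hF0 : 0 ≤ F := by rw [hF]; exact Real.rpow_nonneg (hf.nonneg (norm_nonneg _)) _
  rw [← hF, ht1, zero_add]
  have h1 : t * (q - 1) / 4 * F ≤
      t * ((1 - ρ) * (M + (q - 1) * F)) - (q - 1) * (t / 4 * F) := by
    have h2 : (1 / 2) * ((q - 1) * F) ≤ (1 - ρ) * (M + (q - 1) * F) := by
      have h3 : 0 ≤ (q - 1) * F := by positivity
      have h4 : (1 / 2) * (M + (q - 1) * F) ≤ (1 - ρ) * (M + (q - 1) * F) := by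
        apply mul_le_mul_of_nonneg_right (by linarith) (by linarith)
      linarith
    have h3 := mul_le_mul_of_nonneg_left h2 ht0.le
    linarith
  refine le_trans ?_ h1
  by_cases hxA : x ∈ P ∩ {x | rb ≤ ‖g x‖ ∧ ‖g x‖ ≤ rc}
  · rw [indicator_of_mem hxA]
    have := hrb (g x) hxA.2.1
    rw [← hF] at this
    gcongr
  · rw [indicator_of_notMem hxA]
    positivity

end Pool.Agent.TH281.PC
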