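import Pool.Agent.TH281.PC.Strict4

/-!
# Strictness: localisation to small gradients
-/

open MeasureTheory Set Metric Filter Topology
open scoped InnerProductSpace

namespace Pool.Agent.TH281.PC

variable {d : ℕ}

/-- a smooth cutoff at the origin in the variable `‖z‖ ^ 2` -/
theorem exists_cutoff0 {u₁ : ℝ} (h1 : 0 < u₁) :
    ∃ (η η' : ℝ → ℝ) (Cη : ℝ), 0 ≤ Cη ∧ (∀ u, HasDerivAt η (η' u) u) ∧ (∀ u, |η' u| ≤ Cη) ∧
      (∀ u, 0 ≤ η u) ∧ (∀ u, η u ≤ 1) ∧ (∀ u, 0 ≤ u → u ≤ u₁ → η u = 1) ∧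
      (∀ u, 0 ≤ u → u < u₁ → η' u = 0) ∧
      (∀ u, 4 * u₁ ≤ u → η u = 0) ∧ (∀ u, 4 * u₁ < u → η' u = 0) ∧ ContDiff ℝ 1 η := by
  let ρ : ContDiffBump (0 : ℝ) :=
    { rIn := u₁
      rOut := 4 * u₁
      rIn_pos := h1
      rIn_lt_rOut := by linarith }
  have hsm : ContDiff ℝ 1 ρ := ρ.contDiff
  have hd : ∀ u, HasDerivAt ρ (deriv ρ u) u :=
    fun u => (hsm.differentiable one_ne_zero u).hasDerivAt
  have hone : ∀ u : ℝ, |u| ≤ u₁ → ρ u = 1 := fun u hu => by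
    apply ρ.one_of_mem_closedBall
    rw [mem_closedBall, Real.dist_eq, sub_zero]
    exact hu
  have hzero : ∀ u : ℝ, 4 * u₁ ≤ |u| → ρ u = 0 := fun u hu => by
    apply ρ.zero_of_le_dist
    rw [Real.dist_eq, sub_zero]
    exact hu
  have hc : Continuous (deriv ρ) := hsm.continuous_deriv le_rfl
  have hcs : HasCompactSupport (deriv ρ) := ρ.hasCompactSupport.deriv
  obtain ⟨C, hC⟩ := hc.bounded_above_of_compact_support hcs
  refine ⟨ρ, deriv ρ, max C 0, le_max_right _ _, hd, fun u => ?_, fun u => ρ.nonneg,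
    fun u => ρ.le_one, fun u hu0 hu => hone u (by rwa [abs_of_nonneg hu0]), fun u hu0 hu => ?_,
    fun u hu => hzero u (hu.trans (le_abs_self u)), fun u hu => ?_, hsm⟩
  · rw [← Real.norm_eq_abs]
    exact (hC u).trans (le_max_left _ _)
  · have hev : ρ =ᶠ[𝓝 u] fun _ => (1:ℝ) := by
      have : ∀ᶠ w : ℝ in 𝓝 u, |w| < u₁ := by
        apply (continuous_abs.tendsto u).eventually (gt_mem_nhds ?_)
        rwa [abs_of_nonneg hu0]
      filter_upwards [this] with w hw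
      exact hone w hw.le
    rw [hev.deriv_eq]
    simp
  · have hev : ρ =ᶠ[𝓝 u] fun _ => (0:ℝ) := by
      have : ∀ᶠ w : ℝ in 𝓝 u, 4 * u₁ < w := lt_mem_nhds hu
      filter_upwards [this] with w hw
      exact hzero w (hw.le.trans (le_abs_self w))
    rw [hev.deriv_eq]
    simp

theorem add_rpow_le {q u w : ℝ} (hq : 0 < q) (hu : 0 ≤ u) (hw : 0 ≤ w) :
    (u + w) ^ q ≤ 2 ^ q * (u ^ q + w ^ q) := by
  have h1 : u + w ≤ 2 * max u w := by linarith [le_max_left u w, le_max_right u w]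
  have h2 : 0 ≤ max u w := hu.trans (le_max_left _ _)
  have h3 : (u + w) ^ q ≤ (2 * max u w) ^ q := Real.rpow_le_rpow (by linarith) h1 hq.le
  rw [Real.mul_rpow two_pos.le h2] at h3
  refine h3.trans ?_
  gcongr
  rcases max_cases u w with ⟨h, -⟩ | ⟨h, -⟩
  · rw [h]
    have : 0 ≤ w ^ q := Real.rpow_nonneg hw _
    linarith
  · rw [h]
    have : 0 ≤ u ^ q := Real.rpow_nonneg hu _
    linarith

theorem integrable_fderiv_rpow {q : ℝ} (hq : 0 < q) {φ : V d → ℝ} {L : NNReal}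
    (hφ : LipschitzWith L φ) (hc : HasCompactSupport φ) :
    Integrable (fun x => ‖fderiv ℝ φ x‖ ^ q) := by
  refine Pool.Agent.TH365.J158.integrable_of_bdd (K := tsupport φ) (C := (L:ℝ) ^ q)
    ((measurable_fderiv ℝ φ).norm.pow_const q) hc (fun x hx => ?_) (fun x _ => ?_)
  · have h3 : fderiv ℝ φ x = 0 := by
      by_contra hne
      exact hx (support_fderiv_subset ℝ hne)
    rw [h3, norm_zero, Real.zero_rpow hq.ne']
  · rw [abs_of_nonneg (Real.rpow_nonneg (norm_nonneg _) _)]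
    exact Real.rpow_le_rpow (norm_nonneg _) (norm_fderiv_le_of_lipschitz ℝ hφ) hq.le

/-- localisation to the region where the gradient is small -/
theorem small_bound {p q Λ M : ℝ} (hq : 1 < q) (hp : 1 < p) (hΛ : 0 < Λ) (hM : 0 < M)
    {f : ℝ → ℝ} (hf : Phase p q Λ M f) {ra D₀ Λm : ℝ} (hra : 0 < ra)
    (hD₀ : 0 ≤ D₀) (hΛm : 0 ≤ Λm) :
    ∃ C₉ : ℝ, 0 ≤ C₉ ∧ ∀ ε δ ρ : ℝ, 0 < ε → ε ≤ 1 → 0 < δ → δ ≤ 1 → ρ ≤ 1 / 2 →
      ∀ P : Set (V d), IsOpen P → (∀ x ∈ P, ∀ y ∈ P, ‖x - y‖ ≤ D₀) →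
      ∀ (v : V d → ℝ) (g : V d → V d), Soln p ε δ P v g →
      ∀ x₀ ∈ P, (∀ x ∈ P, v x ≤ v x₀) → -δ * v x₀ ≤ Λm →
      (∀ z : V d, (1 - ρ) * (Λ + (p - 1) * ‖opS p ε z‖ ^ (p / (p - 1))) ≤
        opb p ε z - δ * v x₀) →
      ∀ t θ T : ℝ, 0 < t → 0 ≤ θ → 0 ≤ T → T + 1 ≤ t * M / 2 →
      (q - 1) * (t * θ) ^ (q / (q - 1)) ≤ 1 →
      (∀ z : V d, ‖z‖ ≤ 2 * ra → f ‖opS p ε z‖ ≤ θ) →
      ∀ (φ : V d → ℝ) (L : NNReal), LipschitzWith L φ → HasCompactSupport φ → tsupport φ ⊆ P →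
      T * (∫ x in P ∩ {x | 0 ≤ ‖g x‖ ∧ ‖g x‖ ≤ ra}, |φ x| ^ q) ≤
        2 ^ q * ((∫ x, ‖fderiv ℝ φ x‖ ^ q) +
          C₉ ^ q * (∫ x in P ∩ {x | ra ≤ ‖g x‖ ∧ ‖g x‖ ≤ 2 * ra}, |φ x| ^ q)) := by
  have hq0 : 0 < q := by linarith
  have hq1 : 0 < q - 1 := by linarith
  obtain ⟨α₀, γ₀, B₀, a₀, a₁, hα₀, hγ₀, ha₀, ha₁, hB₀, hann⟩ :=
    annulus_const (d := d) hq hp hΛ hf hra (show ra < 2 * ra by linarith)
  have hm : 0 < min 1 (p - 1) := lt_min one_pos (by linarith)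
  obtain ⟨CB, hCBdef⟩ : ∃ CB, CB = (B₀ + Λm + 2 * ra * D₀) / (min 1 (p - 1) * α₀) := ⟨_, rfl⟩
  have hCB : 0 ≤ CB := by rw [hCBdef]; positivity
  obtain ⟨η, η', Cη, hCη, hη, hη'b, hη0, hη1, hηone, hη'1, hηzero, hη'2, hηsm⟩ :=
    exists_cutoff0 (u₁ := ra ^ 2) (by positivity)
  obtain ⟨C₉, hC₉def⟩ : ∃ C₉, C₉ = 2 * Cη * CB * (2 * ra) := ⟨_, rfl⟩
  have hC₉ : 0 ≤ C₉ := by rw [hC₉def]; positivity
  refine ⟨C₉, hC₉, ?_⟩
  intro ε δ ρ hε hε1 hδ hδ1 hρ1 P hP hdiam v g h x₀ hx₀ hmax hΛm' hρ t θ T ht hθ hT hTt hθt hθf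
    φ L hφ hc hs
  have hr : 0 < 1 - ρ := by linarith
  -- the localised function
  obtain ⟨a, hadef⟩ : ∃ a : V d → ℝ, a = fun x => η (‖g x‖ ^ 2) := ⟨_, rfl⟩
  have hgc : ContinuousOn g P := h.lip.continuousOn hP
  have halip : LocLip P a := by
    rw [hadef]
    have h1 : ContDiff ℝ 1 fun z : V d => η (‖z‖ ^ 2) := hηsm.comp (contDiff_norm_sq ℝ)
    exact h.lip.comp h1.locallyLipschitz
  obtain ⟨L', hψ⟩ := Pool.Agent.TH281.PC.T.exists_lipschitz_mul hP halip hφ hc hs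
  obtain ⟨ψ, hψdef⟩ : ∃ ψ : V d → ℝ, ψ = fun x => a x * φ x := ⟨_, rfl⟩
  rw [← hψdef] at hψ
  have hψc : HasCompactSupport ψ := by
    rw [hψdef]
    exact hc.mul_left
  have hψs : tsupport ψ ⊆ P := by
    refine Subset.trans ?_ hs
    rw [hψdef]
    exact tsupport_mul_subset_right
  have ha0 : ∀ x, 0 ≤ a x := fun x => by rw [hadef]; exact hη0 _
  have ha1 : ∀ x, a x ≤ 1 := fun x => by rw [hadef]; exact hη1 _
  -- the field
  have hlip : LocLip P (fun y => t • radF p ε f (g y)) :=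
    (LocLip.radF hp hε hq hΛ hf h.lip).const_smul t
  have key := field_const hq hP hlip hψ hψc hψs MeasurableSet.empty (a := T) (b := 0) ?_
  swap
  · filter_upwards [h.lip.ae_differentiable hP] with x hxd hx hψx
    refine le_trans ?_ (flux_smul hq hp hε hδ hΛ hM hf hP h hmax hρ ht hx (hxd hx))
    have hgx : ‖g x‖ ≤ 2 * ra := by
      by_contra hcon
      rw [not_le] at hcon
      apply hψx
      rw [hψdef]
      have h2 : 4 * ra ^ 2 ≤ ‖g x‖ ^ 2 := by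
        have : (2 * ra) ^ 2 ≤ ‖g x‖ ^ 2 := by gcongr
        have e : (2 * ra) ^ 2 = 4 * ra ^ 2 := by ring
        linarith
      simp only [hadef, hηzero _ h2, zero_mul]
    obtain ⟨s, hsdef⟩ : ∃ s, s = f ‖opS p ε (g x)‖ := ⟨_, rfl⟩
    have hs0 : 0 ≤ s := by rw [hsdef]; exact hf.nonneg (norm_nonneg _)
    have hsθ : s ≤ θ := by rw [hsdef]; exact hθf _ hgx
    rw [← hsdef, indicator_empty, add_zero]
    have hqq : 0 ≤ q / (q - 1) := by positivity
    have h3 : t ^ (q / (q - 1)) * s ^ (q / (q - 1)) ≤ (t * θ) ^ (q / (q - 1)) := by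
      rw [← Real.mul_rpow ht.le hs0]
      exact Real.rpow_le_rpow (by positivity) (by gcongr) hqq
    have h4 : (q - 1) * (t ^ (q / (q - 1)) * s ^ (q / (q - 1))) ≤ 1 :=
      (mul_le_mul_of_nonneg_left h3 hq1.le).trans hθt
    have h5 : t * M / 2 ≤ t * ((1 - ρ) * (M + (q - 1) * s ^ (q / (q - 1)))) := by
      have h6 : 0 ≤ (q - 1) * s ^ (q / (q - 1)) := by positivity
      have h7 : (1 / 2) * (M + (q - 1) * s ^ (q / (q - 1))) ≤
          (1 - ρ) * (M + (q - 1) * s ^ (q / (q - 1))) :=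
        mul_le_mul_of_nonneg_right (by linarith) (by linarith)
      have h8 : M / 2 ≤ (1 - ρ) * (M + (q - 1) * s ^ (q / (q - 1))) := by linarith
      have h9 := mul_le_mul_of_nonneg_left h8 ht.le
      linarith
    linarith
  rw [zero_mul, add_zero] at key
  -- lower bound for the mass of `ψ`
  have hintφ : Integrable (fun x => |φ x| ^ q) := by
    refine Continuous.integrable_of_hasCompactSupport
      (hφ.continuous.abs.rpow_const fun x => Or.inr hq0.le) ?_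
    exact hc.comp_left (g := fun t : ℝ => |t| ^ q) (by simp [Real.zero_rpow hq0.ne'])
  have hintψ : Integrable (fun x => |ψ x| ^ q) := by
    refine Continuous.integrable_of_hasCompactSupport
      (hψ.continuous.abs.rpow_const fun x => Or.inr hq0.le) ?_
    exact hψc.comp_left (g := fun t : ℝ => |t| ^ q) (by simp [Real.zero_rpow hq0.ne'])
  have hmS := measurable_annulus hP hgc 0 ra
  have hmA := measurable_annulus hP hgc ra (2 * ra)
  have hmass : (∫ x in P ∩ {x | 0 ≤ ‖g x‖ ∧ ‖g x‖ ≤ ra}, |φ x| ^ q) ≤ ∫ x, |ψ x| ^ q := by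
    rw [← integral_indicator hmS]
    refine integral_mono (hintφ.indicator hmS) hintψ fun x => ?_
    by_cases hxS : x ∈ P ∩ {x | 0 ≤ ‖g x‖ ∧ ‖g x‖ ≤ ra}
    · simp only [indicator_of_mem hxS]
      have h1 : a x = 1 := by
        rw [hadef]
        exact hηone _ (by positivity) (by gcongr; exact hxS.2.2)
      rw [hψdef]
      simp [h1]
    · simp only [indicator_of_notMem hxS]
      positivity
  -- upper bound for the energy of `ψ`
  have hfφ : Integrable (fun x => ‖fderiv ℝ φ x‖ ^ q) := integrable_fderiv_rpow hq0 hφ hc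
  have hfψ : Integrable (fun x => ‖fderiv ℝ ψ x‖ ^ q) := integrable_fderiv_rpow hq0 hψ hψc
  obtain ⟨A, hAdef⟩ : ∃ A, A = P ∩ {x | ra ≤ ‖g x‖ ∧ ‖g x‖ ≤ 2 * ra} := ⟨_, rfl⟩
  rw [← hAdef] at hmA ⊢
  have hen : (∫ x, ‖fderiv ℝ ψ x‖ ^ q) ≤ 2 ^ q * ((∫ x, ‖fderiv ℝ φ x‖ ^ q) +
          C₉ ^ q * (∫ x in A, |φ x| ^ q)) := by
    have e1 : 2 ^ q * ((∫ x, ‖fderiv ℝ φ x‖ ^ q) + C₉ ^ q * (∫ x in A, |φ x| ^ q)) =
        ∫ x, 2 ^ q * (‖fderiv ℝ φ x‖ ^ q + A.indicator (fun x => C₉ ^ q * |φ x| ^ q) x) := by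
      rw [integral_const_mul, integral_add hfφ ((hintφ.const_mul _).indicator hmA),
        integral_indicator hmA, integral_const_mul]
    rw [e1]
    refine integral_mono_ae hfψ ((hfφ.add ((hintφ.const_mul _).indicator hmA)).const_mul _) ?_
    filter_upwards [h.lip.ae_differentiable hP, hφ.ae_differentiableAt] with x hgd hφd
    have hpos : 0 ≤ A.indicator (fun x => C₉ ^ q * |φ x| ^ q) x := by
      apply indicator_nonneg
      intro y _
      positivity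
    by_cases hx : x ∈ P
    swap
    · have h3 : fderiv ℝ ψ x = 0 := by
        by_contra hne
        exact hx (hψs (support_fderiv_subset ℝ hne))
      rw [h3, norm_zero, Real.zero_rpow hq0.ne']
      positivity
    have hD := (hgd hx).hasFDerivAt
    have hDn := hess_nonpos hP h.conc h.grad hx hD
    have hsym := hess_symm hP h.grad hx hD
    have h4 : HasFDerivAt (fun y => ‖g y‖ ^ 2)
        ((2 • (innerSL ℝ (g x))).comp (fderiv ℝ g x)) x :=
      (hasStrictFDerivAt_norm_sq (g x)).hasFDerivAt.comp x hD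
    have h5 : HasFDerivAt a (η' (‖g x‖ ^ 2) • ((2 • (innerSL ℝ (g x))).comp (fderiv ℝ g x))) x := by
      rw [hadef]
      exact (hη (‖g x‖ ^ 2)).comp_hasFDerivAt x h4
    have h6 := h5.mul hφd.hasFDerivAt
    have h7 : fderiv ℝ ψ x = a x • fderiv ℝ φ x +
        φ x • (η' (‖g x‖ ^ 2) • ((2 • (innerSL ℝ (g x))).comp (fderiv ℝ g x))) := by
      rw [hψdef]
      exact h6.fderiv
    -- norm of the derivative of the cutoff
    have h8 : ‖η' (‖g x‖ ^ 2) • ((2 • (innerSL ℝ (g x))).comp (fderiv ℝ g x))‖ ≤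
        |η' (‖g x‖ ^ 2)| * (2 * (-trL d (fderiv ℝ g x) * ‖g x‖)) := by
      rw [norm_smul, Real.norm_eq_abs]
      gcongr
      have htr : 0 ≤ -trL d (fderiv ℝ g x) := by
        have := trL_nonneg (H := -(fderiv ℝ g x)) (fun x => by simpa using hDn x)
        simpa using this
      refine ContinuousLinearMap.opNorm_le_bound _ (by positivity) fun e => ?_
      have h9 : ((2 • (innerSL ℝ (g x))).comp (fderiv ℝ g x)) e =
          2 * ⟪fderiv ℝ g x (g x), e⟫_ℝ := by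
        rw [hsym]
        simp
      rw [h9, Real.norm_eq_abs, abs_mul, abs_two]
      have h10 := abs_real_inner_le_norm (fderiv ℝ g x (g x)) e
      have h11 := norm_apply_le_trL hsym hDn (g x)
      calc 2 * |⟪fderiv ℝ g x (g x), e⟫_ℝ| ≤ 2 * (‖fderiv ℝ g x (g x)‖ * ‖e‖) := by gcongr
        _ ≤ 2 * ((-trL d (fderiv ℝ g x) * ‖g x‖) * ‖e‖) := by gcongr
        _ = _ := by ring
    have h12 : ‖fderiv ℝ ψ x‖ ≤ ‖fderiv ℝ φ x‖ + A.indicator (fun x => C₉ * |φ x|) x := by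
      rw [h7]
      refine (norm_add_le _ _).trans ?_
      have h13 : ‖a x • fderiv ℝ φ x‖ ≤ ‖fderiv ℝ φ x‖ := by
        rw [norm_smul, Real.norm_eq_abs, abs_of_nonneg (ha0 x)]
        exact mul_le_of_le_one_left (norm_nonneg _) (ha1 x)
      refine add_le_add h13 ?_
      rw [norm_smul, Real.norm_eq_abs]
      by_cases hxA : x ∈ A
      · rw [indicator_of_mem hxA]
        rw [hAdef] at hxA
        obtain ⟨hα, hγ, hB, hfa, hfb⟩ := hann ε hε hε1 (g x) hxA.2.1 hxA.2.2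
        have htrace := trace_bound hp hε hδ hδ1 hP h hx₀ hdiam hΛm' hx hD hxA.2.2 hα₀ hα hB
        rw [← hCBdef] at htrace
        have h14 : |η' (‖g x‖ ^ 2)| * (2 * (-trL d (fderiv ℝ g x) * ‖g x‖)) ≤ C₉ := by
          have h15 := hη'b (‖g x‖ ^ 2)
          have htr : 0 ≤ -trL d (fderiv ℝ g x) := by
            have := trL_nonneg (H := -(fderiv ℝ g x)) (fun x => by simpa using hDn x)
            simpa using this
          have h16 := hxA.2.2
          calc |η' (‖g x‖ ^ 2)| * (2 * (-trL d (fderiv ℝ g x) * ‖g x‖))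
              ≤ Cη * (2 * (CB * (2 * ra))) := by gcongr
            _ = C₉ := by rw [hC₉def]; ring
        calc |φ x| * ‖η' (‖g x‖ ^ 2) • ((2 • (innerSL ℝ (g x))).comp (fderiv ℝ g x))‖
            ≤ |φ x| * C₉ := by
              gcongr
              exact h8.trans h14
          _ = C₉ * |φ x| := mul_comm _ _
      · rw [indicator_of_notMem hxA]
        have h17 : η' (‖g x‖ ^ 2) = 0 := by
          rw [hAdef] at hxA
          rcases lt_or_ge ‖g x‖ ra with h18 | h18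
          · exact hη'1 _ (by positivity) (by gcongr)
          · rcases le_or_gt ‖g x‖ (2 * ra) with h19 | h19
            · exact absurd ⟨hx, h18, h19⟩ hxA
            · apply hη'2
              have : (2 * ra) ^ 2 < ‖g x‖ ^ 2 := by gcongr
              have e : (2 * ra) ^ 2 = 4 * ra ^ 2 := by ring
              linarith
        rw [h17, zero_smul, norm_zero, mul_zero]
    have hposA : 0 ≤ A.indicator (fun x => C₉ * |φ x|) x := by
      apply indicator_nonneg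
      intro y _
      positivity
    calc ‖fderiv ℝ ψ x‖ ^ q ≤ (‖fderiv ℝ φ x‖ + A.indicator (fun x => C₉ * |φ x|) x) ^ q :=
          Real.rpow_le_rpow (norm_nonneg _) h12 hq0.le
      _ ≤ 2 ^ q * (‖fderiv ℝ φ x‖ ^ q + (A.indicator (fun x => C₉ * |φ x|) x) ^ q) :=
          add_rpow_le hq0 (norm_nonneg _) hposA
      _ = 2 ^ q * (‖fderiv ℝ φ x‖ ^ q + A.indicator (fun x => C₉ ^ q * |φ x| ^ q) x) := by
          congr 2
          by_cases hxA : x ∈ A
          · simp only [indicator_of_mem hxA]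
            rw [Real.mul_rpow hC₉ (abs_nonneg _)]
          · simp only [indicator_of_notMem hxA]
            rw [Real.zero_rpow hq0.ne']
  calc T * (∫ x in P ∩ {x | 0 ≤ ‖g x‖ ∧ ‖g x‖ ≤ ra}, |φ x| ^ q) ≤ T * ∫ x, |ψ x| ^ q := by
        gcongr
    _ ≤ ∫ x, ‖fderiv ℝ ψ x‖ ^ q := key
    _ ≤ _ := hen

end Pool.Agent.TH281.PC
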