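import Pool.Agent.TH281.PC.Strict5

/-!
# Strictness: assembly
-/

open MeasureTheory Set Metric Filter Topology
open scoped InnerProductSpace

namespace Pool.Agent.TH281.PC

variable {d : ℕ}

/-- solving the scaling relation for the multiplier -/
theorem exists_scale {p q M Jp Jq : ℝ} (hp : 1 < p) (hM : 0 < M) (hJp : 0 < Jp)
    (hJq : 0 < Jq) : ∃ Λ : ℝ, 0 < Λ ∧ M ^ (-(1 / q)) * Jq = Λ ^ (-(1 / p)) * Jp := by
  have hp0 : 0 < p := by linarith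
  refine ⟨(Jp * M ^ (1 / q) / Jq) ^ p, by positivity, ?_⟩
  rw [← Real.rpow_mul (by positivity)]
  have e : p * -(1 / p) = -1 := by field_simp
  rw [e, Real.rpow_neg_one, Real.rpow_neg hM.le]
  have : 0 < M ^ (1 / q) := Real.rpow_pos_of_pos hM _
  field_simp

theorem lam_compare_strict {p q : ℝ} (hq : 1 < q) (hpq : q < p) (hd : 2 ≤ d) {Ω : Set (V d)}
    (hΩ : IsOpen Ω) (hcv : Convex ℝ Ω) (hb : Bornology.IsBounded Ω) (hne : Ω.Nonempty)
    {Λ M : ℝ} (hΛ : 0 < Λ) (hM : 0 < M) (hΛle : Λ ≤ lam p Ω)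
    (hs : M ^ (-(1 / q)) * Jr q = Λ ^ (-(1 / p)) * Jr p) (hJp : 0 < Jr p) (hJq : 0 < Jr q) :
    M < lam q Ω := by
  have hp : 1 < p := hq.trans hpq
  have hq0 : 0 < q := by linarith
  have hq1 : 0 < q - 1 := by linarith
  obtain ⟨f, hf⟩ := exists_phase hq hpq hΛ hM hs
  -- diameter
  obtain ⟨D₁, hD₁⟩ := Metric.isBounded_iff.1 hb
  obtain ⟨D₀, hD₀def⟩ : ∃ D₀, D₀ = max D₁ 0 := ⟨_, rfl⟩
  have hD₀ : 0 ≤ D₀ := by rw [hD₀def]; exact le_max_right _ _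
  have hdiam : ∀ x ∈ Ω, ∀ y ∈ Ω, ‖x - y‖ ≤ D₀ := fun x hx y hy => by
    rw [← dist_eq_norm, hD₀def]
    exact (hD₁ hx hy).trans (le_max_left _ _)
  -- a second phase map, used to bound the multiplier from above
  obtain ⟨M₁, hM₁def⟩ : ∃ M₁ : ℝ, M₁ = 2 ^ q * (M + 2) := ⟨_, rfl⟩
  have hM₁ : 0 < M₁ := by rw [hM₁def]; positivity
  obtain ⟨Λ₁, hΛ₁, hs₁⟩ := exists_scale (q := q) hp hM₁ hJp hJq
  obtain ⟨f₁, hf₁⟩ := exists_phase hq hpq hΛ₁ hM₁ hs₁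
  obtain ⟨Λm, hΛmdef⟩ : ∃ Λm, Λm = Λ₁ + Λ := ⟨_, rfl⟩
  have hΛm : 0 ≤ Λm := by rw [hΛmdef]; positivity
  -- large gradients
  obtain ⟨τ, hτdef⟩ : ∃ τ : ℝ, τ = (1 / 4) ^ (q - 1) * (q - 1) / 4 := ⟨_, rfl⟩
  have hτ : 0 < τ := by
    rw [hτdef]
    have : 0 < (1 / 4 : ℝ) ^ (q - 1) := Real.rpow_pos_of_pos (by norm_num) _
    positivity
  obtain ⟨K, hKdef⟩ : ∃ K : ℝ, K = 4 * (M + 1) / τ := ⟨_, rfl⟩
  have hτK : τ * K = 4 * (M + 1) := by rw [hKdef]; field_simp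
  obtain ⟨rb, hrb1, hrb⟩ := exists_large (d := d) hq hp hf K
  -- small gradients
  obtain ⟨T, hTdef⟩ : ∃ T : ℝ, T = 4 * (2 ^ q * (M + 2)) := ⟨_, rfl⟩
  have hT : 0 < T := by rw [hTdef]; positivity
  obtain ⟨t, htdef⟩ : ∃ t : ℝ, t = 2 * (T + 1) / M := ⟨_, rfl⟩
  have ht : 0 < t := by rw [htdef]; positivity
  have htM : T + 1 ≤ t * M / 2 := by
    rw [htdef]
    apply le_of_eq
    field_simp
  obtain ⟨θ, hθdef⟩ : ∃ θ : ℝ, θ = (1 / (q - 1)) ^ ((q - 1) / q) / t := ⟨_, rfl⟩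
  have hθ : 0 < θ := by
    rw [hθdef]
    have : 0 < (1 / (q - 1)) ^ ((q - 1) / q) := Real.rpow_pos_of_pos (by positivity) _
    positivity
  have hθt : (q - 1) * (t * θ) ^ (q / (q - 1)) ≤ 1 := by
    have e1 : t * θ = (1 / (q - 1)) ^ ((q - 1) / q) := by rw [hθdef]; field_simp
    rw [e1, ← Real.rpow_mul (by positivity)]
    have e2 : (q - 1) / q * (q / (q - 1)) = 1 := by field_simp
    rw [e2, Real.rpow_one]
    apply le_of_eq
    field_simp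
  obtain ⟨r₀, hr₀, hr₀1, hr₀f⟩ := exists_small (d := d) hp hf hθ
  obtain ⟨ra, hradef⟩ : ∃ ra : ℝ, ra = r₀ / 2 := ⟨_, rfl⟩
  have hra : 0 < ra := by rw [hradef]; linarith
  have hrarb : 2 * ra ≤ rb := by rw [hradef]; linarith
  have hrarb' : ra < rb := by linarith
  -- gain and localisation constants
  obtain ⟨c₁, hc₁, hgain⟩ := gain (d := d) hq hp hd hΛ hM hf hra hrarb' hD₀ hΛm
  obtain ⟨C₉, hC₉, hsmall⟩ := small_bound (d := d) hq hp hΛ hM hf hra hD₀ hΛm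
  obtain ⟨c₄, hc₄def⟩ : ∃ c₄ : ℝ, c₄ = min 1 (c₁ / (8 * (1 + C₉ ^ q))) := ⟨_, rfl⟩
  have hC₉q : 0 ≤ C₉ ^ q := Real.rpow_nonneg hC₉ _
  have hc₄ : 0 < c₄ := by rw [hc₄def]; exact lt_min one_pos (by positivity)
  have hc₄1 : c₄ ≤ 1 := by rw [hc₄def]; exact min_le_left _ _
  have hc₄2 : c₄ * (8 * (1 + C₉ ^ q)) ≤ c₁ := by
    have h1 : c₄ ≤ c₁ / (8 * (1 + C₉ ^ q)) := by rw [hc₄def]; exact min_le_right _ _
    rwa [le_div_iff₀ (by positivity)] at h1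
  -- small `ρ`
  obtain ⟨ρ, hρ0, hρ1, hρM⟩ : ∃ ρ : ℝ, 0 < ρ ∧ ρ ≤ 1 / 2 ∧ M - c₄ ≤ (1 - ρ) ^ q * M := by
    have hlim : Tendsto (fun ρ : ℝ => (1 - ρ) ^ q * M) (𝓝[>] 0) (𝓝 ((1 - 0) ^ q * M)) := by
      apply Tendsto.mono_left _ nhdsWithin_le_nhds
      have : ContinuousAt (fun ρ : ℝ => (1 - ρ) ^ q * M) 0 := by
        refine ContinuousAt.mul (ContinuousAt.rpow_const (by fun_prop) (Or.inl (by norm_num)))
          continuousAt_const
      exact this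
    rw [sub_zero, Real.one_rpow, one_mul] at hlim
    have h1 : ∀ᶠ ρ : ℝ in 𝓝[>] 0, M - c₄ < (1 - ρ) ^ q * M :=
      hlim.eventually (lt_mem_nhds (by linarith))
    have h2 : ∀ᶠ ρ : ℝ in 𝓝[>] 0, ρ ∈ Ioo (0:ℝ) (1 / 2) := Ioo_mem_nhdsGT (by norm_num)
    obtain ⟨ρ, h3, h4⟩ := (h1.and h2).exists
    exact ⟨ρ, h4.1, h4.2.le, h3.le⟩
  have hρ1' : ρ < 1 := by linarith
  obtain ⟨ε, δ, hε, hε1, hδ, hδ1, hbz, hset⟩ := setup hp hΛ hρ0 hρ1' d
  -- suppose the eigenvalue is at most `M`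
  by_contra hcon
  rw [not_lt] at hcon
  have h1 : (lamSet q Ω).Nonempty := Pool.Agent.TH925.J54.lamSet_nonempty q hΩ hne
  obtain ⟨r, ⟨u, hu, hc, hsu, h0, rfl⟩, hr⟩ := exists_lt_of_csInf_lt h1
    (show sInf (lamSet q Ω) < M + c₄ from lt_of_le_of_lt hcon (by linarith))
  obtain ⟨n, ν, c, hν, hK, hPΩ, hPne⟩ :=
    Pool.Agent.TH925.J55.exists_polytope (by omega) hΩ hcv hb hne hc hsu
  change tsupport u ⊆ poly ν c at hK
  change poly ν c ⊆ Ω at hPΩ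
  change (poly ν c).Nonempty at hPne
  obtain ⟨P, hPdef⟩ : ∃ P, P = poly ν c := ⟨_, rfl⟩
  have hP : IsOpen P := by rw [hPdef]; exact isOpen_poly ν c
  obtain ⟨v, g, hsol⟩ := exists_soln hp hε hδ hν (isOpen_poly ν c) (hb.subset hPΩ) hPne
  rw [← hPdef] at hK hPΩ hPne hsol
  have hPb := hb.subset hPΩ
  obtain ⟨x₀, hx₀, hmax⟩ := hsol.coer.exists_max hP hPne hsol.conc
  have hρ' := hset _ hP hPb v g hsol x₀ hx₀ hmax (hΛle.trans (lam_anti hP hPne hPΩ))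
  obtain ⟨L, hL⟩ := hu.lipschitzWith_of_hasCompactSupport hc one_ne_zero
  have hdiamP : ∀ x ∈ P, ∀ y ∈ P, ‖x - y‖ ≤ D₀ := fun x hx y hy => hdiam x (hPΩ hx) y (hPΩ hy)
  obtain ⟨I, hIdef⟩ : ∃ I, I = ∫ x, |u x| ^ q := ⟨_, rfl⟩
  obtain ⟨E, hEdef⟩ : ∃ E, E = ∫ x, ‖fderiv ℝ u x‖ ^ q := ⟨_, rfl⟩
  have hI : 0 < I := by
    rw [hIdef]
    exact Pool.Agent.TH925.J54.integral_pos_of_ne_zero hu.continuous hc h0 hq0
  have hEI : E < (M + c₄) * I := by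
    rw [← hIdef, ← hEdef, div_lt_iff₀ hI] at hr
    exact hr
  have hEI1 : E ≤ (M + 1) * I := by
    refine hEI.le.trans ?_
    gcongr
  -- upper bound for the multiplier
  have hΛm' : -δ * v x₀ ≤ Λm := by
    by_contra hcon2
    rw [not_le, hΛmdef] at hcon2
    have hρ₁ : ∀ z : V d, (1 - 1 / 2) * (Λ₁ + (p - 1) * ‖opS p ε z‖ ^ (p / (p - 1))) ≤
        opb p ε z - δ * v x₀ := by
      intro z
      have h2 := hbz z
      have h3 : 0 ≤ (p - 1) * ‖opS p ε z‖ ^ (p / (p - 1)) :=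
        mul_nonneg (by linarith) (Real.rpow_nonneg (norm_nonneg _) _)
      have h4 : (1 / 2) * ((p - 1) * ‖opS p ε z‖ ^ (p / (p - 1))) ≤
          (1 - ρ) * ((p - 1) * ‖opS p ε z‖ ^ (p / (p - 1))) :=
        mul_le_mul_of_nonneg_right (by linarith) h3
      have h5 : ρ * Λ ≤ 1 * Λ := by gcongr
      linarith
    have h2 := cert_bound hq hp hε hδ hΛ₁ hM₁ (by norm_num : (1 / 2 : ℝ) < 1) hf₁ hP hsol hmax
      hρ₁ hL hc hK
    rw [← hIdef, ← hEdef, hM₁def, ← mul_assoc] at h2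
    have e : (1 - 1 / 2 : ℝ) ^ q * 2 ^ q = 1 := by
      rw [← Real.mul_rpow (by norm_num) (by norm_num)]
      norm_num
    rw [e, one_mul] at h2
    have : (M + 1) * I < (M + 2) * I := by gcongr; norm_num
    linarith
  -- the three masses
  have hgc : ContinuousOn g P := hsol.lip.continuousOn hP
  obtain ⟨rc, hrc⟩ := hc.exists_bound_of_continuousOn (f := g) (hgc.mono hK)
  have hA := hgain ε δ ρ hε hε1 hδ hδ1 hρ0.le hρ1 P hP hdiamP v g hsol x₀ hx₀ hmax hΛm' hρ'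
    u L hL hc hK
  have hB := large_bound hq hp hε hδ hΛ hM hf hP hsol hmax hρ1 hρ' (K := K) (rb := rb) (rc := rc)
    (fun z hz => hrb ε hε hε1 z hz) hL hc hK
  have hS := hsmall ε δ ρ hε hε1 hδ hδ1 hρ1 P hP hdiamP v g hsol x₀ hx₀ hmax hΛm' hρ'
    t θ T ht hθ.le hT.le htM hθt (fun z hz => hr₀f ε hε hε1 z (by rw [hradef] at hz; linarith))
    u L hL hc hK
  have hmS := measurable_annulus hP hgc 0 ra
  have hmA := measurable_annulus hP hgc ra rb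
  have hmA' := measurable_annulus hP hgc ra (2 * ra)
  have hmB := measurable_annulus hP hgc rb rc
  obtain ⟨S, hSdef⟩ : ∃ S, S = P ∩ {x | 0 ≤ ‖g x‖ ∧ ‖g x‖ ≤ ra} := ⟨_, rfl⟩
  obtain ⟨A, hAdef⟩ : ∃ A, A = P ∩ {x | ra ≤ ‖g x‖ ∧ ‖g x‖ ≤ rb} := ⟨_, rfl⟩
  obtain ⟨A', hA'def⟩ : ∃ A', A' = P ∩ {x | ra ≤ ‖g x‖ ∧ ‖g x‖ ≤ 2 * ra} := ⟨_, rfl⟩
  obtain ⟨B, hBdef⟩ : ∃ B, B = P ∩ {x | rb ≤ ‖g x‖ ∧ ‖g x‖ ≤ rc} := ⟨_, rfl⟩
  rw [← hSdef] at hmS hS
  rw [← hAdef] at hmA hA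
  rw [← hA'def] at hmA' hS
  rw [← hBdef] at hmB hB
  have hint : Integrable (fun x => |u x| ^ q) := by
    refine Continuous.integrable_of_hasCompactSupport
      (hu.continuous.abs.rpow_const fun x => Or.inr hq0.le) ?_
    exact hc.comp_left (g := fun t : ℝ => |t| ^ q) (by simp [Real.zero_rpow hq0.ne'])
  obtain ⟨mS, hmSdef⟩ : ∃ m, m = ∫ x in S, |u x| ^ q := ⟨_, rfl⟩
  obtain ⟨mA, hmAdef⟩ : ∃ m, m = ∫ x in A, |u x| ^ q := ⟨_, rfl⟩
  obtain ⟨mA', hmA'def⟩ : ∃ m, m = ∫ x in A', |u x| ^ q := ⟨_, rfl⟩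
  obtain ⟨mB, hmBdef⟩ : ∃ m, m = ∫ x in B, |u x| ^ q := ⟨_, rfl⟩
  rw [← hIdef, ← hEdef, ← hmAdef] at hA
  rw [← hEdef, ← hmBdef, ← hτdef, hτK] at hB
  rw [← hEdef, ← hmSdef, ← hmA'def] at hS
  have hmA'A : mA' ≤ mA := by
    rw [hmA'def, hmAdef]
    refine setIntegral_mono_set hint.integrableOn
      (Eventually.of_forall fun x => by positivity) (LE.le.eventuallyLE ?_)
    rw [hA'def, hAdef]
    rintro x ⟨hx, h2, h3⟩
    exact ⟨hx, h2, h3.trans hrarb⟩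
  have hmA'0 : 0 ≤ mA' := by
    rw [hmA'def]
    exact setIntegral_nonneg hmA' fun x _ => by positivity
  have hcover : I ≤ mS + (mA + mB) := by
    have e2 := integral_add (hint.indicator hmA) (hint.indicator hmB)
    have e3 : ∫ x, (S.indicator (fun x => |u x| ^ q) x +
        (A.indicator (fun x => |u x| ^ q) x + B.indicator (fun x => |u x| ^ q) x)) =
        mS + (mA + mB) := by
      rw [hmSdef, hmAdef, hmBdef, ← integral_indicator hmS, ← integral_indicator hmA,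
        ← integral_indicator hmB]
      have e1 := integral_add (hint.indicator hmS)
        ((hint.indicator hmA).add (hint.indicator hmB))
      refine e1.trans ?_
      congr 1
    rw [← e3, hIdef]
    refine integral_mono hint ((hint.indicator hmS).add ((hint.indicator hmA).add
      (hint.indicator hmB))) fun x => ?_
    have hn : 0 ≤ |u x| ^ q := by positivity
    have hnS : 0 ≤ S.indicator (fun x => |u x| ^ q) x := indicator_nonneg (fun _ _ => by positivity) _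
    have hnA : 0 ≤ A.indicator (fun x => |u x| ^ q) x := indicator_nonneg (fun _ _ => by positivity) _
    have hnB : 0 ≤ B.indicator (fun x => |u x| ^ q) x := indicator_nonneg (fun _ _ => by positivity) _
    show |u x| ^ q ≤ S.indicator (fun x => |u x| ^ q) x +
      (A.indicator (fun x => |u x| ^ q) x + B.indicator (fun x => |u x| ^ q) x)
    by_cases hxs : x ∈ tsupport u
    · have hxP := hK hxs
      have hgrc := hrc x hxs
      rcases le_or_gt ‖g x‖ ra with h2 | h2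
      · have hxS : x ∈ S := by rw [hSdef]; exact ⟨hxP, norm_nonneg _, h2⟩
        rw [indicator_of_mem hxS]
        linarith
      · rcases le_or_gt ‖g x‖ rb with h3 | h3
        · have hxA : x ∈ A := by rw [hAdef]; exact ⟨hxP, h2.le, h3⟩
          rw [indicator_of_mem hxA]
          linarith
        · have hxB : x ∈ B := by rw [hBdef]; exact ⟨hxP, h3.le, hgrc⟩
          rw [indicator_of_mem hxB]
          linarith
    · have h2 : u x = 0 := image_eq_zero_of_notMem_tsupport hxs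
      rw [h2, abs_zero, Real.zero_rpow hq0.ne']
      linarith [hnS, hnA, hnB]
  -- conclusion
  have g1 : c₁ * mA ≤ 2 * c₄ * I := by
    have h2 : (M - c₄) * I ≤ (1 - ρ) ^ q * M * I := by gcongr
    linarith
  have g2 : 4 * (1 + C₉ ^ q) * mA ≤ I := by
    have hmA0 : 0 ≤ mA := hmA'0.trans hmA'A
    have h2 : c₄ * (8 * (1 + C₉ ^ q)) * mA ≤ c₁ * mA := by gcongr
    have h3 : (2 * c₄) * (4 * (1 + C₉ ^ q) * mA) ≤ (2 * c₄) * I := by linarith
    exact le_of_mul_le_mul_left h3 (by positivity)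
  have hmA0 : 0 ≤ mA := hmA'0.trans hmA'A
  have g3 : 4 * mA ≤ I := by
    have : 0 ≤ C₉ ^ q * mA := by positivity
    linarith
  have g4 : C₉ ^ q * mA' ≤ I := by
    have h2 : C₉ ^ q * mA' ≤ C₉ ^ q * mA := by gcongr
    have h3 : 0 ≤ C₉ ^ q * mA := by positivity
    linarith
  have g5 : 4 * mB ≤ I := by
    have h2 : (M + 1) * (4 * mB) ≤ (M + 1) * I := by linarith
    exact le_of_mul_le_mul_left h2 (by positivity)
  have g6 : 4 * mS ≤ I := by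
    have h2 : T * mS ≤ 2 ^ q * ((M + 1) * I + I) := by
      refine hS.trans ?_
      gcongr
    have h3 : (2 ^ q * (M + 2)) * (4 * mS) ≤ (2 ^ q * (M + 2)) * I := by
      rw [hTdef] at h2
      linarith
    exact le_of_mul_le_mul_left h3 (by positivity)
  linarith

end Pool.Agent.TH281.PC
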